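import Pool.Agent.TI.Basic

/-! Maximal ergodic inequality and two corollaries. -/

open MeasureTheory Filter Topology Set
open scoped ENNReal

namespace TanakaIto

section maxerg
variable {Ω : Type*}

/-- maximum of the Birkhoff sums of length at most n, with the empty sum -/
noncomputable def maxB (S : Ω → Ω) (g : Ω → ℝ) : ℕ → Ω → ℝ
  | 0, _ => 0
  | n + 1, x => max 0 (g x + maxB S g n (S x))

lemma maxB_nonneg (S : Ω → Ω) (g : Ω → ℝ) (n : ℕ) (x : Ω) : 0 ≤ maxB S g n x := by
  cases n with
  | zero => exact le_rfl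
  | succ n => exact le_max_left _ _

lemma maxB_le_succ (S : Ω → Ω) (g : Ω → ℝ) (n : ℕ) (x : Ω) :
    maxB S g n x ≤ maxB S g (n + 1) x := by
  induction n generalizing x with
  | zero => exact le_max_left _ _
  | succ n ih =>
    rw [maxB, maxB]
    exact max_le_max le_rfl (add_le_add le_rfl (ih (S x)))

lemma maxB_mono (S : Ω → Ω) (g : Ω → ℝ) (x : Ω) : Monotone (fun n => maxB S g n x) :=
  monotone_nat_of_le_succ (fun n => maxB_le_succ S g n x)

lemma birkhoffSum_le_maxB (S : Ω → Ω) (g : Ω → ℝ) (n : ℕ) (x : Ω) :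
    birkhoffSum S g n x ≤ maxB S g n x := by
  induction n generalizing x with
  | zero => simp [maxB]
  | succ n ih =>
    rw [birkhoffSum_succ', maxB]
    exact (add_le_add le_rfl (ih (S x))).trans (le_max_right _ _)

variable [MeasurableSpace Ω] {μ : Measure Ω} [IsProbabilityMeasure μ] {S : Ω → Ω}

lemma integrable_maxB (hS : MeasurePreserving S μ μ) {g : Ω → ℝ} (hg : Integrable g μ) (n : ℕ) :
    Integrable (maxB S g n) μ := by
  induction n with
  | zero => exact integrable_zero _ _ _
  | succ n ih =>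
    have h1 : Integrable (fun x => g x + maxB S g n (S x)) μ :=
      hg.add (hS.integrable_comp_of_integrable ih)
    exact (integrable_zero _ _ _).sup h1

/-- Garsia: the integral of `g` is nonnegative if almost every point has a positive Birkhoff
sum. -/
theorem integral_nonneg_of_birkhoff (hS : MeasurePreserving S μ μ) {g : Ω → ℝ}
    (hg : Integrable g μ) (h : ∀ᵐ x ∂μ, ∃ n : ℕ, 0 < birkhoffSum S g n x) :
    0 ≤ ∫ x, g x ∂μ := by
  set E : ℕ → Set Ω := fun n => {x | 0 < maxB S g n x} with hE
  have hEm : ∀ n, NullMeasurableSet (E n) μ := fun n =>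
    nullMeasurableSet_lt aemeasurable_const (integrable_maxB hS hg n).aemeasurable
  have hmono : Monotone E := fun i j hij x hx => lt_of_lt_of_le hx (maxB_mono S g x hij)
  have hstep : ∀ n, 0 ≤ ∫ x in E (n + 1), g x ∂μ := by
    intro n
    have hM := integrable_maxB hS hg (n + 1)
    have hMS : Integrable (fun x => maxB S g (n + 1) (S x)) μ :=
      hS.integrable_comp_of_integrable hM
    have hD : Integrable (fun x => maxB S g (n + 1) x - maxB S g (n + 1) (S x)) μ := hM.sub hMS
    have h0 : ∫ x, (maxB S g (n + 1) x - maxB S g (n + 1) (S x)) ∂μ = 0 := by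
      rw [integral_sub hM hMS]
      have h1 : ∫ x, maxB S g (n + 1) (S x) ∂μ = ∫ x, maxB S g (n + 1) x ∂μ := by
        have h2 := integral_map (μ := μ) hS.measurable.aemeasurable
          (f := maxB S g (n + 1)) (by rw [hS.map_eq]; exact hM.aestronglyMeasurable)
        rw [hS.map_eq] at h2
        exact h2.symm
      rw [h1, sub_self]
    have h3 : ∫ x in (E (n + 1))ᶜ, (maxB S g (n + 1) x - maxB S g (n + 1) (S x)) ∂μ ≤ 0 := by
      refine integral_nonpos_of_ae ?_
      refine (ae_restrict_iff'₀ (hEm (n + 1)).compl).2 (Eventually.of_forall (fun x hx => ?_))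
      have h4 : maxB S g (n + 1) x = 0 :=
        le_antisymm (not_lt.1 hx) (maxB_nonneg _ _ _ _)
      have h5 := maxB_nonneg S g (n + 1) (S x)
      simp only [Pi.zero_apply]
      linarith
    have h6 := integral_add_compl₀ (hEm (n + 1)) hD
    have h7 : ∫ x in E (n + 1), (maxB S g (n + 1) x - maxB S g (n + 1) (S x)) ∂μ ≤
        ∫ x in E (n + 1), g x ∂μ := by
      refine setIntegral_mono_on₀ hD.integrableOn hg.integrableOn (hEm (n + 1))
        (fun x hx => ?_)
      have h8 : maxB S g (n + 1) x = max 0 (g x + maxB S g n (S x)) := rfl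
      have h9 : 0 < max 0 (g x + maxB S g n (S x)) := by rw [← h8]; exact hx
      have h10 : maxB S g (n + 1) x = g x + maxB S g n (S x) := by
        rw [h8]
        rcases max_choice 0 (g x + maxB S g n (S x)) with h | h
        · rw [h] at h9; exact absurd h9 (lt_irrefl _)
        · exact h
      have h11 := maxB_le_succ S g n (S x)
      linarith
    linarith
  have hlim := tendsto_setIntegral_of_monotone₀ hEm hmono
    (f := g) (μ := μ) hg.integrableOn
  have hU : μ.restrict (⋃ n, E n) = μ := by
    refine Measure.restrict_eq_self_of_ae_mem ?_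
    filter_upwards [h] with x hx
    obtain ⟨n, hn⟩ := hx
    exact mem_iUnion.2 ⟨n, lt_of_lt_of_le hn (birkhoffSum_le_maxB S g n x)⟩
  rw [hU] at hlim
  refine ge_of_tendsto hlim ?_
  filter_upwards [eventually_ge_atTop 1] with n hn
  obtain ⟨m, rfl⟩ : ∃ m, n = m + 1 := ⟨n - 1, by omega⟩
  exact hstep m

end maxerg

theorem le_integral_of_le_birkhoff {Ω : Type*} [MeasurableSpace Ω] {μ : Measure Ω}
    [IsProbabilityMeasure μ] {S : Ω → Ω} (hS : MeasurePreserving S μ μ) {f : Ω → ℝ}
    (hf : Integrable f μ) {c : ℝ}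
    (h : ∀ᵐ x ∂μ, ∃ n : ℕ, 0 < n ∧ c * n ≤ birkhoffSum S f n x) :
    c ≤ ∫ x, f x ∂μ := by
  refine le_of_forall_pos_le_add (fun ε hε => ?_)
  have hg : Integrable (fun x => f x + (ε - c)) μ := hf.add (integrable_const _)
  have h1 := integral_nonneg_of_birkhoff hS hg (by
    filter_upwards [h] with x hx
    obtain ⟨n, hn, hx⟩ := hx
    refine ⟨n, ?_⟩
    have h2 : birkhoffSum S (fun x => f x + (ε - c)) n x = birkhoffSum S f n x + n * (ε - c) := by
      simp [birkhoffSum, Finset.sum_add_distrib]
      ring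
    rw [h2]
    have h3 : (0 : ℝ) < n := by exact_mod_cast hn
    nlinarith)
  rw [integral_add hf (integrable_const _)] at h1
  simp only [integral_const, probReal_univ, smul_eq_mul, one_mul] at h1
  linarith

theorem integral_le_of_birkhoff_le {Ω : Type*} [MeasurableSpace Ω] {μ : Measure Ω}
    [IsProbabilityMeasure μ] {S : Ω → Ω} (hS : MeasurePreserving S μ μ) {f : Ω → ℝ}
    (hf : Measurable f) (h0 : ∀ᵐ x ∂μ, 0 ≤ f x) {c : ℝ}
    (h : ∀ᵐ x ∂μ, ∃ n : ℕ, 0 < n ∧ birkhoffSum S f n x ≤ c * n) :
    Integrable f μ ∧ ∫ x, f x ∂μ ≤ c := by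
  -- truncations
  have hint : ∀ M : ℕ, Integrable (fun x => min (f x) M) μ := by
    intro M
    refine Integrable.of_bound (C := M) (hf.min measurable_const).aestronglyMeasurable ?_
    filter_upwards [h0] with x hx
    rw [Real.norm_eq_abs, abs_le]
    have : (0 : ℝ) ≤ M := Nat.cast_nonneg M
    refine ⟨?_, min_le_right _ _⟩
    have := le_min hx this
    have h2 : (0 : ℝ) ≤ M := Nat.cast_nonneg M
    linarith
  have htr : ∀ M : ℕ, ∫ x, min (f x) M ∂μ ≤ c := by
    intro M
    have h1 := le_integral_of_le_birkhoff hS (f := fun x => - min (f x) M) (hint M).neg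
      (c := -c) (by
      filter_upwards [h] with x hx
      obtain ⟨n, hn, hx⟩ := hx
      refine ⟨n, hn, ?_⟩
      have h2 : birkhoffSum S (fun x => - min (f x) M) n x ≥ - birkhoffSum S f n x := by
        rw [birkhoffSum, birkhoffSum, ← Finset.sum_neg_distrib]
        exact Finset.sum_le_sum (fun k _ => neg_le_neg (min_le_left _ _))
      linarith)
    rw [integral_neg] at h1
    linarith
  have hc : 0 ≤ c := by
    refine le_trans (integral_nonneg_of_ae ?_) (htr 0)
    filter_upwards [h0] with x hx
    simp [hx]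
  have hlint : ∫⁻ x, ENNReal.ofReal (f x) ∂μ ≤ ENNReal.ofReal c := by
    have h1 : ∀ x, ENNReal.ofReal (f x) = ⨆ M : ℕ, ENNReal.ofReal (min (f x) M) := by
      intro x
      refine le_antisymm ?_ (iSup_le (fun M => ENNReal.ofReal_le_ofReal (min_le_left _ _)))
      obtain ⟨M, hM⟩ := exists_nat_ge (f x)
      refine le_iSup_of_le M ?_
      rw [min_eq_left hM]
    simp_rw [h1]
    rw [lintegral_iSup]
    · refine iSup_le (fun M => ?_)
      rw [← ofReal_integral_eq_lintegral_ofReal (hint M)]
      · exact ENNReal.ofReal_le_ofReal (htr M)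
      · filter_upwards [h0] with x hx
        exact le_min hx (Nat.cast_nonneg M)
    · intro M
      exact (hf.min measurable_const).ennreal_ofReal
    · intro i j hij x
      refine ENNReal.ofReal_le_ofReal (min_le_min_left _ ?_)
      exact_mod_cast hij
  have hI : Integrable f μ := by
    refine ⟨hf.aestronglyMeasurable, ?_⟩
    rw [hasFiniteIntegral_iff_ofReal h0]
    exact hlint.trans_lt ENNReal.ofReal_lt_top
  refine ⟨hI, ?_⟩
  rw [← ofReal_integral_eq_lintegral_ofReal hI h0] at hlint
  exact (ENNReal.ofReal_le_ofReal_iff hc).1 hlint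

end TanakaIto
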