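import Pool.Agent.TI.LemmaA
import Pool.Agent.TI.MaxErg

/-! Tanaka-Ito maps: the integral of psi with respect to an acip. -/

open MeasureTheory Filter Topology Set
open scoped ENNReal

namespace TanakaIto

lemma A_nonneg (a x : ℝ) (n : ℕ) : 0 ≤ (N a (Real.exp (-(n : ℝ))) x : ℝ) / n := by positivity

lemma A_le {a x : ℝ} (ha : a ∈ Ioo (0:ℝ) 1) (hx : x ∈ Ioo (-1:ℝ) 1) (n : ℕ) :
    (N a (Real.exp (-(n : ℝ))) x : ℝ) / n ≤ 7 := by
  rcases Nat.eq_zero_or_pos n with rfl | hn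
  · simp
  · have hn' : (1 : ℝ) ≤ n := by exact_mod_cast hn
    have h := N_le_log (s := Real.exp (-(n : ℝ))) ha hx (Real.exp_pos _)
      (Real.exp_le_one_iff.mpr (by linarith))
    rw [one_div, ← Real.exp_neg, neg_neg, Real.log_exp] at h
    rw [div_le_iff₀ (by linarith)]
    linarith

lemma ae_good {a : ℝ} (ha : a ∈ Ioo (0:ℝ) 1) {μ : Measure ℝ} (hμ : IsAcip a μ)
    {p : ℝ → Prop} (h : ∀ᵐ x ∂(volume.restrict (Ioo (-1 : ℝ) 1)), p x) :
    ∀ᵐ x ∂μ, p x ∧ Irrational x ∧ x ∈ Ioo (-1 : ℝ) 1 := by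
  have h1 : ∀ᵐ x ∂(volume : Measure ℝ), x ∈ Ioo (-1 : ℝ) 1 → p x :=
    (ae_restrict_iff' measurableSet_Ioo).mp h
  have h2 : ∀ᵐ x ∂μ, x ∈ Ioo (-1 : ℝ) 1 → p x := hμ.ac.ae_le h1
  have h3 : ∀ᵐ x ∂μ, x ∈ Icc (a - 1) a := by
    rw [ae_iff]
    exact hμ.supp
  have h4 : ∀ᵐ x ∂(volume : Measure ℝ), Irrational x := by
    rw [ae_iff]
    have : {x : ℝ | ¬ Irrational x} = range ((↑) : ℚ → ℝ) := by
      ext x; simp [Irrational]
    rw [this]
    exact (countable_range _).measure_zero _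
  have h5 : ∀ᵐ x ∂μ, Irrational x := hμ.ac.ae_le h4
  filter_upwards [h2, h3, h5] with x hx2 hx3 hx5
  have hx : x ∈ Ioo (-1 : ℝ) 1 := ⟨by linarith [hx3.1, ha.1], by linarith [hx3.2, ha.2]⟩
  exact ⟨hx2 hx, hx5, hx⟩

theorem acip_limit {a : ℝ} (ha : a ∈ Ico (1 / 2 : ℝ) 1) {μ : Measure ℝ} (hμ : IsAcip a μ)
    {Lp Lm : ℝ}
    (h : ∀ᵐ x ∂(volume.restrict (Ioo (-1 : ℝ) 1)),
      limsup (fun n : ℕ => (N a (Real.exp (-(n : ℝ))) x : ℝ) / n) atTop = Lp ∧
      liminf (fun n : ℕ => (N a (Real.exp (-(n : ℝ))) x : ℝ) / n) atTop = Lm) (hLp : 0 < Lp) :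
    Integrable psi μ ∧ Lp * ∫ x, psi x ∂μ ≤ 2 ∧ 2 ≤ Lm * ∫ x, psi x ∂μ := by
  have ha' : a ∈ Ioo (0:ℝ) 1 := ⟨by linarith [ha.1], ha.2⟩
  have hprob := hμ.prob
  have hgood := ae_good ha' hμ h
  have hpsi0 : ∀ᵐ x ∂μ, 0 ≤ psi x := by
    filter_upwards [hgood] with x hx
    exact psi_nonneg ⟨hx.2.2.1.le, hx.2.2.2.le⟩
  -- upper bound
  have upper : ∀ c : ℝ, 2 < c * Lp → Integrable psi μ ∧ ∫ x, psi x ∂μ ≤ c := by
    intro c hc
    have hc0 : 0 < c := by
      by_contra hcon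
      push Not at hcon
      nlinarith
    refine integral_le_of_birkhoff_le hμ.inv measurable_psi hpsi0 ?_
    filter_upwards [hgood] with x hx
    obtain ⟨⟨hsup, -⟩, hi, hx⟩ := hx
    obtain ⟨c', hc'1, hc'2⟩ : ∃ c', 2 / Lp < c' ∧ c' < c :=
      exists_between (by rwa [div_lt_iff₀ hLp])
    have hc'0 : 0 < c' := (by positivity : (0:ℝ) < 2 / Lp).trans hc'1
    have hlt : 2 / c' < limsup (fun n : ℕ => (N a (Real.exp (-(n : ℝ))) x : ℝ) / n) atTop := by
      rw [hsup, div_lt_iff₀ hc'0]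
      rw [div_lt_iff₀ hLp] at hc'1
      linarith
    have hfr := frequently_lt_of_lt_limsup
      (isCoboundedUnder_le_of_le atTop (x := 0) (fun n => A_nonneg a x n)) hlt
    -- choose n large
    obtain ⟨n, hn1, hn2⟩ := (hfr.and_eventually
      (eventually_ge_atTop (⌈c' * (c' / (c - c') + 2)⌉₊ + 1))).exists
    have hn0 : (0 : ℝ) < n := by
      have : 1 ≤ n := by omega
      exact_mod_cast this
    set K := N a (Real.exp (-(n : ℝ))) x with hK
    have hKpos : 0 < K := N_pos ha' hx (Real.exp_pos _)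
      (Real.exp_le_one_iff.mpr (by linarith))
    rw [div_lt_div_iff₀ hc'0 hn0] at hn1
    have hncast : c' * (c' / (c - c') + 2) ≤ n := by
      refine (Nat.le_ceil _).trans ?_
      exact_mod_cast (by omega : ⌈c' * (c' / (c - c') + 2)⌉₊ ≤ n)
    have hdpos : 0 < c - c' := by linarith
    have hKbig : c' / (c - c') + 2 < K := by
      have h1 : c' * (c' / (c - c') + 2) < c' * K := by linarith
      exact lt_of_mul_lt_mul_left h1 hc'0.le
    have hKc : (c' / (c - c') : ℝ) * (c - c') = c' := by field_simp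
    refine ⟨K - 1, ?_, ?_⟩
    · have h2 : (2 : ℝ) < K := by
        have : 0 ≤ c' / (c - c') := by positivity
        linarith
      have : 2 < K := by exact_mod_cast h2
      omega
    · have hle : Real.exp (-(n : ℝ)) ≤ P a x (K - 1) :=
        (lt_N_iff ha' hx (Real.exp_pos _) (K - 1)).mp (by omega)
      rw [birkhoffSum_psi hi]
      have hlog : -(n : ℝ) ≤ Real.log (P a x (K - 1)) := by
        rw [← Real.log_exp (-(n : ℝ))]
        exact Real.log_le_log (Real.exp_pos _) hle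
      have hcast : ((K - 1 : ℕ) : ℝ) = K - 1 := by
        rw [Nat.cast_sub hKpos]; simp
      rw [hcast]
      nlinarith
  -- lower bound
  have hInt : Integrable psi μ := (upper (4 / Lp) (by field_simp; norm_num)).1
  refine ⟨hInt, ?_, ?_⟩
  · by_contra hcon
    push Not at hcon
    have h1 : 2 / Lp < ∫ x, psi x ∂μ := by rw [div_lt_iff₀ hLp]; linarith
    obtain ⟨c, hc1, hc2⟩ := exists_between h1
    have := (upper c (by rwa [div_lt_iff₀ hLp] at hc1)).2
    linarith
  · have lower : ∀ c : ℝ, c * Lm < 2 → c ≤ ∫ x, psi x ∂μ := by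
      intro c hc
      refine le_integral_of_le_birkhoff hμ.inv hInt ?_
      filter_upwards [hgood] with x hx
      obtain ⟨⟨-, hinf⟩, hi, hx⟩ := hx
      rcases le_or_gt c 0 with hc0 | hc0
      · refine ⟨1, one_pos, ?_⟩
        rw [birkhoffSum_one]
        have := psi_nonneg (x := x) ⟨hx.1.le, hx.2.le⟩
        push_cast
        linarith
      · have hlt : liminf (fun n : ℕ => (N a (Real.exp (-(n : ℝ))) x : ℝ) / n) atTop < 2 / c := by
          rw [hinf, lt_div_iff₀ hc0]; linarith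
        have hfr := frequently_lt_of_liminf_lt
          (isCoboundedUnder_ge_of_le atTop (x := 7) (fun n => A_le ha' hx n)) hlt
        obtain ⟨n, hn1, hn2⟩ := (hfr.and_eventually (eventually_ge_atTop 1)).exists
        have hn0 : (0 : ℝ) < n := by exact_mod_cast hn2
        set K := N a (Real.exp (-(n : ℝ))) x with hK
        have hKpos : 0 < K := N_pos ha' hx (Real.exp_pos _)
          (Real.exp_le_one_iff.mpr (by linarith))
        rw [div_lt_div_iff₀ hn0 hc0] at hn1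
        refine ⟨K, hKpos, ?_⟩
        have hPK := P_N_lt ha' hx (Real.exp_pos (-(n : ℝ)))
        rw [← hK] at hPK
        rw [birkhoffSum_psi hi]
        have hlog : Real.log (P a x K) < -(n : ℝ) := by
          rw [← Real.log_exp (-(n : ℝ))]
          exact Real.log_lt_log (P_pos hi K) hPK
        linarith
    by_contra hcon
    push Not at hcon
    rcases le_or_gt Lm 0 with hLm | hLm
    · have := lower (∫ x, psi x ∂μ + 1) (by nlinarith)
      linarith
    · have h1 : ∫ x, psi x ∂μ < 2 / Lm := by rw [lt_div_iff₀ hLm]; linarith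
      obtain ⟨c, hc1, hc2⟩ := exists_between h1
      have := lower c (by rwa [lt_div_iff₀ hLm] at hc2)
      linarith

end TanakaIto
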