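import Pool.Agent.TI.Basic

/-! Ergodicity of the Gauss map with respect to Lebesgue measure on the unit interval. -/

open MeasureTheory Filter Topology Set
open scoped ENNReal NNReal

namespace TanakaIto

/-- Inverse branches of the iterated Gauss map. -/
lemma gauss_branch {A : Set ℝ}
    (hA : ∀ x ∈ Ioo (0:ℝ) 1, Irrational x → (Int.fract (1 / x) ∈ A ↔ x ∈ A))
    {x : ℝ} (hx : x ∈ Ioo (0:ℝ) 1) (hxi : Irrational x) (k : ℕ) :
    ∃ p p' q q' t : ℝ, t ∈ Ioo (0:ℝ) 1 ∧ Irrational t ∧ 0 ≤ q' ∧ q' ≤ q ∧ 1 ≤ q ∧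
      (k:ℝ) + 1 ≤ q + q' ∧ (p * q' - p' * q) ^ 2 = 1 ∧
      x = (p + p' * t) / (q + q' * t) ∧
      ∀ y ∈ Ioo (0:ℝ) 1, Irrational y → ((p + p' * y) / (q + q' * y) ∈ A ↔ y ∈ A) := by
  induction k with
  | zero =>
    refine ⟨0, 1, 1, 0, x, hx, hxi, le_rfl, zero_le_one, le_rfl, by norm_num, by norm_num,
      by simp, fun y _ _ => by simp⟩
  | succ k ih =>
    obtain ⟨p, p', q, q', t, ht, hti, h1, h2, h3, h4, h5, h6, h7⟩ := ih
    obtain ⟨ht0, ht1⟩ := ht
    set n : ℤ := ⌊1 / t⌋ with hn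
    have hinv1 : 1 < 1 / t := by rw [lt_div_iff₀ ht0]; linarith
    have hn1 : (1 : ℤ) ≤ n := by
      rw [hn, Int.le_floor]
      push_cast
      exact hinv1.le
    have hn1' : (1 : ℝ) ≤ n := by exact_mod_cast hn1
    set u : ℝ := Int.fract (1 / t) with hu
    have hun : u = 1 / t - n := by rw [hu, Int.fract]
    have hui : Irrational u := by
      rw [hun, one_div]
      exact (irrational_inv_iff.mpr hti).sub_intCast _
    have hu0 : 0 < u := lt_of_le_of_ne (Int.fract_nonneg _) (Ne.symm hui.ne_zero)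
    have hu1 : u < 1 := Int.fract_lt_one _
    have htu : t = 1 / (n + u) := by
      rw [hun]; field_simp; ring
    have key : ∀ y : ℝ, 0 < y → (p + p' * (1 / (n + y))) / (q + q' * (1 / (n + y))) =
        ((p * n + p') + p * y) / ((q * n + q') + q * y) := by
      intro y hy
      have hny : (0 : ℝ) < n + y := by linarith
      have e1 : p + p' * (1 / (n + y)) = ((p * n + p') + p * y) / (n + y) := by
        field_simp; ring
      have e2 : q + q' * (1 / (n + y)) = ((q * n + q') + q * y) / (n + y) := by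
        field_simp; ring
      rw [e1, e2, div_div_div_cancel_right₀ hny.ne']
    refine ⟨p * n + p', p, q * n + q', q, u, ⟨hu0, hu1⟩, hui, by linarith, ?_, ?_, ?_, ?_, ?_, ?_⟩
    · nlinarith
    · nlinarith
    · push_cast; nlinarith
    · rw [← h5]; ring
    · rw [← key u hu0, ← htu]; exact h6
    · intro y hy hyi
      rw [← key y hy.1]
      have hny : (0 : ℝ) < n + y := by linarith [hy.1]
      have hzi : Irrational (1 / (n + y)) := by
        rw [one_div]
        exact irrational_inv_iff.mpr (hyi.intCast_add n)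
      have hz : 1 / ((n : ℝ) + y) ∈ Ioo (0:ℝ) 1 := by
        refine ⟨by positivity, ?_⟩
        rw [div_lt_one hny]
        linarith [hy.1]
      rw [h7 _ hz hzi, ← hA _ hz hzi]
      have : Int.fract (1 / (1 / ((n : ℝ) + y))) = y := by
        rw [one_div_one_div, Int.fract_intCast_add]
        exact Int.fract_eq_self.mpr ⟨hy.1.le, hy.2⟩
      rw [this]

/-- The rational points form a null set. -/
lemma ae_irrational : ∀ᵐ x : ℝ ∂volume, Irrational x := by
  have h : (Set.range ((↑) : ℚ → ℝ)).Countable := Set.countable_range _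
  exact h.ae_notMem volume

/-- Lower density bound along a sequence of radii. -/
lemma gauss_density {A : Set ℝ}
    (hA : ∀ x ∈ Ioo (0:ℝ) 1, Irrational x → (Int.fract (1 / x) ∈ A ↔ x ∈ A))
    {x : ℝ} (hx : x ∈ Ioo (0:ℝ) 1) (hxi : Irrational x) (k : ℕ) :
    ∃ r : ℝ, 0 < r ∧ r ≤ 4 / ((k : ℝ) + 1) ∧
      volume (A ∩ Ioo (0:ℝ) 1) / 8 ≤
        volume (A ∩ Metric.closedBall x r) / volume (Metric.closedBall x r) := by
  obtain ⟨p, p', q, q', t, ht, hti, h1, h2, h3, h4, h5, h6, h7⟩ := gauss_branch hA hx hxi k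
  set φ : ℝ → ℝ := fun y => (p + p' * y) / (q + q' * y) with hφ
  have hden : ∀ y ∈ Ioo (0:ℝ) 1, 0 < q + q' * y := fun y hy => by
    have := mul_nonneg h1 hy.1.le
    linarith
  have hdiff : ∀ y ∈ Ioo (0:ℝ) 1, ∀ z ∈ Ioo (0:ℝ) 1,
      |φ y - φ z| = |y - z| / ((q + q' * y) * (q + q' * z)) := by
    intro y hy z hz
    have hy' := hden y hy
    have hz' := hden z hz
    have e : φ y - φ z = -(p * q' - p' * q) * (y - z) / ((q + q' * y) * (q + q' * z)) := by
      simp only [hφ]
      rw [div_sub_div _ _ hy'.ne' hz'.ne']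
      congr 1
      ring
    have hdet : |p * q' - p' * q| = 1 := by
      rw [← sq_abs] at h5
      nlinarith [abs_nonneg (p * q' - p' * q)]
    rw [e, abs_div, abs_mul, abs_neg, hdet, one_mul, abs_of_pos (mul_pos hy' hz')]
  set r : ℝ := 1 / q ^ 2 with hr
  have hq0 : 0 < q := by linarith
  have hr0 : 0 < r := by positivity
  have hup : ∀ y ∈ Ioo (0:ℝ) 1, ∀ z ∈ Ioo (0:ℝ) 1, |φ y - φ z| ≤ r := by
    intro y hy z hz
    rw [hdiff y hy z hz, hr]
    have hy' : q ≤ q + q' * y := by have := mul_nonneg h1 hy.1.le; linarith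
    have hz' : q ≤ q + q' * z := by have := mul_nonneg h1 hz.1.le; linarith
    have hyz : |y - z| ≤ 1 := by
      rw [abs_le]; constructor <;> linarith [hy.1, hy.2, hz.1, hz.2]
    have hqq : q ^ 2 ≤ (q + q' * y) * (q + q' * z) := by nlinarith
    exact div_le_div₀ zero_le_one hyz (by positivity) hqq
  have hlow : ∀ y ∈ Ioo (0:ℝ) 1, ∀ z ∈ Ioo (0:ℝ) 1, |y - z| ≤ (4 * q ^ 2) * |φ y - φ z| := by
    intro y hy z hz
    rw [hdiff y hy z hz]
    have hy' : q + q' * y ≤ 2 * q := by nlinarith [hy.1, hy.2]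
    have hz' : q + q' * z ≤ 2 * q := by nlinarith [hz.1, hz.2]
    have hy0 := hden y hy
    have hz0 := hden z hz
    have hprod : (q + q' * y) * (q + q' * z) ≤ 4 * q ^ 2 := by nlinarith
    have hpos : 0 < (q + q' * y) * (q + q' * z) := mul_pos hy0 hz0
    rw [← mul_div_assoc, le_div_iff₀ hpos]
    have := abs_nonneg (y - z)
    nlinarith
  set S : Set ℝ := (A ∩ Ioo (0:ℝ) 1) ∩ {y | Irrational y} with hS
  have hSvol : volume S = volume (A ∩ Ioo (0:ℝ) 1) := by
    apply measure_congr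
    filter_upwards [ae_irrational] with y hy
    apply propext
    constructor
    · intro h; exact h.1
    · intro h; exact ⟨h, hy⟩
  have hSI : S ⊆ Ioo (0:ℝ) 1 := fun y hy => hy.1.2
  have hinj : InjOn φ (Ioo (0:ℝ) 1) := by
    intro y hy z hz hyz
    have := hlow y hy z hz
    rw [hyz, sub_self, abs_zero, mul_zero] at this
    exact sub_eq_zero.mp (abs_nonpos_iff.mp this)
  set K : ℝ≥0 := ⟨4 * q ^ 2, by positivity⟩ with hK
  have hlip : LipschitzOnWith K (Function.invFunOn φ (Ioo (0:ℝ) 1)) (φ '' S) := by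
    apply LipschitzOnWith.of_dist_le_mul
    rintro _ ⟨y, hy, rfl⟩ _ ⟨z, hz, rfl⟩
    rw [hinj.leftInvOn_invFunOn (hSI hy), hinj.leftInvOn_invFunOn (hSI hz),
      Real.dist_eq, Real.dist_eq]
    exact hlow y (hSI hy) z (hSI hz)
  have himg : Function.invFunOn φ (Ioo (0:ℝ) 1) '' (φ '' S) = S :=
    hinj.invFunOn_image hSI
  have hmeas := hlip.hausdorffMeasure_image_le (d := 1) zero_le_one
  rw [himg, hausdorffMeasure_real, ENNReal.rpow_one, hSvol] at hmeas
  have hsub : φ '' S ⊆ A ∩ Metric.closedBall x r := by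
    rintro _ ⟨y, hy, rfl⟩
    refine ⟨(h7 y (hSI hy) hy.2).mpr hy.1.1, ?_⟩
    rw [Metric.mem_closedBall, Real.dist_eq, h6]
    exact hup y (hSI hy) t ht
  have hmeas2 : volume (A ∩ Ioo (0:ℝ) 1) ≤ (K : ℝ≥0∞) * volume (A ∩ Metric.closedBall x r) :=
    hmeas.trans (mul_le_mul_right (measure_mono hsub) _)
  refine ⟨r, hr0, ?_, ?_⟩
  · rw [hr, div_le_div_iff₀ (by positivity) (by positivity)]
    have hqk : (k : ℝ) + 1 ≤ 2 * q := by linarith
    nlinarith
  · rw [Real.volume_closedBall]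
    have hne : ENNReal.ofReal (2 * r) ≠ 0 := by
      rw [Ne, ENNReal.ofReal_eq_zero, not_le]; positivity
    rw [ENNReal.le_div_iff_mul_le (Or.inl hne) (Or.inl ENNReal.ofReal_ne_top)]
    calc volume (A ∩ Ioo (0:ℝ) 1) / 8 * ENNReal.ofReal (2 * r)
        ≤ ((K : ℝ≥0∞) * volume (A ∩ Metric.closedBall x r)) / 8 * ENNReal.ofReal (2 * r) := by
          gcongr
      _ = volume (A ∩ Metric.closedBall x r) * ((K : ℝ≥0∞) / 8 * ENNReal.ofReal (2 * r)) := by
          rw [div_eq_mul_inv, div_eq_mul_inv]; ring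
      _ = volume (A ∩ Metric.closedBall x r) * 1 := by
          congr 1
          have hKr : (K : ℝ≥0∞) = ENNReal.ofReal (4 * q ^ 2) := by
            rw [ENNReal.ofReal, Real.toNNReal_of_nonneg (by positivity)]
            rfl
          have h8 : (8 : ℝ≥0∞) = ENNReal.ofReal 8 := by simp
          rw [hKr, h8, ← ENNReal.ofReal_div_of_pos (by norm_num),
            ← ENNReal.ofReal_mul (by positivity), hr, ← ENNReal.ofReal_one]
          congr 1
          field_simp
          norm_num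
      _ = volume (A ∩ Metric.closedBall x r) := mul_one _

/-- Zero one law for invariant sets of the Gauss map. -/
lemma gauss_zero_one {A : Set ℝ} (hAm : MeasurableSet A)
    (hA : ∀ x ∈ Ioo (0:ℝ) 1, Irrational x → (Int.fract (1 / x) ∈ A ↔ x ∈ A)) :
    (∀ᵐ x ∂(volume.restrict (Ioo (0:ℝ) 1)), x ∈ A) ∨
      (∀ᵐ x ∂(volume.restrict (Ioo (0:ℝ) 1)), x ∉ A) := by
  by_cases h0 : volume (A ∩ Ioo (0:ℝ) 1) = 0
  · right
    rw [ae_iff]
    have : {x | ¬ x ∉ A} = A := by ext; simp
    rw [this, Measure.restrict_apply hAm]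
    exact h0
  · left
    rw [ae_restrict_iff' measurableSet_Ioo]
    filter_upwards [ae_irrational,
      Besicovitch.ae_tendsto_measure_inter_div_of_measurableSet volume hAm] with x hxi hlim hx
    by_contra hxA
    rw [indicator_of_notMem hxA] at hlim
    choose r hr0 hr1 hr2 using gauss_density hA hx hxi
    have hrlim : Tendsto r atTop (𝓝[>] 0) := by
      rw [tendsto_nhdsWithin_iff]
      refine ⟨?_, Eventually.of_forall hr0⟩
      have h4 : Tendsto (fun k : ℕ => 4 / ((k : ℝ) + 1)) atTop (𝓝 0) :=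
        tendsto_const_nhds.div_atTop
          (tendsto_natCast_atTop_atTop.atTop_add tendsto_const_nhds)
      exact squeeze_zero (fun k => (hr0 k).le) hr1 h4
    have hlim2 := hlim.comp hrlim
    have hle := ge_of_tendsto' hlim2 hr2
    have : volume (A ∩ Ioo (0:ℝ) 1) / 8 = 0 := le_antisymm hle bot_le
    rw [ENNReal.div_eq_zero_iff] at this
    rcases this with h | h
    · exact h0 h
    · exact absurd h (by simp)

/-- A measurable function that is invariant under the Gauss map is almost everywhere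
constant. -/
theorem gauss_ae_const {F : ℝ → ℝ} (hF : Measurable F)
    (hinv : ∀ x ∈ Ioo (0 : ℝ) 1, Irrational x → F (Int.fract (1 / x)) = F x) :
    ∃ c : ℝ, ∀ᵐ x ∂(volume.restrict (Ioo (0 : ℝ) 1)), F x = c := by
  have h := exists_eventuallyEq_const_of_forall_separating
    (l := ae (volume.restrict (Ioo (0 : ℝ) 1))) (f := F) MeasurableSet ?_
  · obtain ⟨c, hc⟩ := h
    exact ⟨c, hc⟩
  · intro U hU
    have := gauss_zero_one (A := F ⁻¹' U) (hF hU) (fun x hx hxi => by
      rw [mem_preimage, mem_preimage, hinv x hx hxi])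
    exact this

end TanakaIto
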