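import Pool.Agent.TI.LemmaA
import Pool.Agent.TI.Gauss

/-! Tanaka-Ito maps: the growth rates of the counting function are almost everywhere
constant. -/

open MeasureTheory Filter Topology Set
open scoped ENNReal

namespace TanakaIto

lemma lim_mono_of_sub {A B : ℕ → ℝ} (hA0 : ∀ᶠ n in atTop, 0 ≤ A n) (hA7 : ∀ᶠ n in atTop, A n ≤ 7)
    (hB0 : ∀ᶠ n in atTop, 0 ≤ B n) (hB7 : ∀ᶠ n in atTop, B n ≤ 7)
    (h : Tendsto (fun n => A n - B n) atTop (𝓝 0)) :
    limsup A atTop ≤ limsup B atTop ∧ liminf B atTop ≤ liminf A atTop := by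
  have bA : IsBoundedUnder (fun x y : ℝ => x ≤ y) atTop A := isBoundedUnder_of_eventually_le hA7
  have bA' : IsBoundedUnder (fun x y : ℝ => x ≥ y) atTop A := isBoundedUnder_of_eventually_ge hA0
  have bB : IsBoundedUnder (fun x y : ℝ => x ≤ y) atTop B := isBoundedUnder_of_eventually_le hB7
  have bB' : IsBoundedUnder (fun x y : ℝ => x ≥ y) atTop B := isBoundedUnder_of_eventually_ge hB0
  have hD : A = (fun n => A n - B n) + B := by
    ext n; simp
  have hD0 := h.limsup_eq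
  have hD0' := h.liminf_eq
  constructor
  · have := limsup_add_le (f := atTop) (u := fun n => A n - B n) (v := B) h.isBoundedUnder_ge
      h.isBoundedUnder_le bB'.isCoboundedUnder_flip bB
    rw [hD0, zero_add, ← hD] at this
    exact this
  · have := le_liminf_add (f := atTop) (u := fun n => A n - B n) (v := B) h.isBoundedUnder_ge
      h.isBoundedUnder_le bB' bB.isCoboundedUnder_flip
    rw [hD0', zero_add, ← hD] at this
    exact this

/-- The normalised counting function. -/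
noncomputable def avgN (a x : ℝ) (n : ℕ) : ℝ := (N a (Real.exp (-(n : ℝ))) x : ℝ) / n

lemma avgN_nonneg (a x : ℝ) (n : ℕ) : 0 ≤ avgN a x n := by
  unfold avgN; positivity

lemma avgN_le {a x : ℝ} (ha : a ∈ Ioo (0:ℝ) 1) (hx : x ∈ Ioo (-1:ℝ) 1) {n : ℕ} (hn : 1 ≤ n) :
    avgN a x n ≤ 7 := by
  have h0 : (0:ℝ) < n := by exact_mod_cast hn
  have h1 : (1:ℝ) ≤ n := by exact_mod_cast hn
  have h := N_le_log ha hx (Real.exp_pos (-(n:ℝ))) (Real.exp_le_one_iff.mpr (by linarith))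
  have hlog : Real.log (1 / Real.exp (-(n:ℝ))) = n := by
    rw [one_div, ← Real.exp_neg, neg_neg, Real.log_exp]
  rw [hlog] at h
  unfold avgN
  rw [div_le_iff₀ h0]
  linarith

lemma avgN_lim_eq {a x y : ℝ} (ha : a ∈ Ioo (0:ℝ) 1) (hx : x ∈ Ioo (-1:ℝ) 1)
    (hy : y ∈ Ioo (-1:ℝ) 1) (c : ℝ)
    (h : ∀ s : ℝ, 0 < s → s ≤ 1 → |(N a s x : ℝ) - N a s y| ≤ c) :
    limsup (avgN a x) atTop = limsup (avgN a y) atTop ∧
      liminf (avgN a x) atTop = liminf (avgN a y) atTop := by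
  have hA0 : ∀ z : ℝ, ∀ᶠ n in atTop, 0 ≤ avgN a z n := fun z =>
    Eventually.of_forall fun n => avgN_nonneg a z n
  have hA7 : ∀ z ∈ Ioo (-1:ℝ) 1, ∀ᶠ n in atTop, avgN a z n ≤ 7 := fun z hz => by
    filter_upwards [eventually_ge_atTop 1] with n hn using avgN_le ha hz hn
  have hd : Tendsto (fun n : ℕ => avgN a x n - avgN a y n) atTop (𝓝 0) := by
    have h1 : Tendsto (fun n : ℕ => c / (n:ℝ)) atTop (𝓝 0) := tendsto_const_div_atTop_nhds_zero_nat c
    refine squeeze_zero_norm' ?_ h1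
    filter_upwards [eventually_ge_atTop 1] with n hn
    have h0 : (0:ℝ) < n := by exact_mod_cast hn
    have h2 := h (Real.exp (-(n:ℝ))) (Real.exp_pos _) (Real.exp_le_one_iff.mpr (by linarith))
    unfold avgN
    rw [Real.norm_eq_abs, ← sub_div, abs_div, abs_of_pos h0]
    gcongr
  have hd' : Tendsto (fun n : ℕ => avgN a y n - avgN a x n) atTop (𝓝 0) := by
    have := hd.neg
    simpa using this
  have e1 := lim_mono_of_sub (hA0 x) (hA7 x hx) (hA0 y) (hA7 y hy) hd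
  have e2 := lim_mono_of_sub (hA0 y) (hA7 y hy) (hA0 x) (hA7 x hx) hd'
  exact ⟨le_antisymm e1.1 e2.1, le_antisymm e2.2 e1.2⟩

lemma N_gauss {a : ℝ} (ha : a ∈ Ico (1 / 2 : ℝ) 1) {x : ℝ} (hx : x ∈ Ioo (0:ℝ) 1)
    (hi : Irrational x) {s : ℝ} (hs : 0 < s) (hs1 : s ≤ 1) :
    |(N a s x : ℝ) - N a s (Int.fract (1 / x))| ≤ 3 * Real.log (1 / x) + 13 := by
  have ha' : a ∈ Ioo (0:ℝ) 1 := ⟨by linarith [ha.1], ha.2⟩
  have hx' : x ∈ Ioo (-1:ℝ) 1 := ⟨by linarith [hx.1], hx.2⟩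
  set u := Int.fract (1 / x) with hu
  have hui : Irrational u := by
    rw [hu, Int.fract, one_div]
    exact (irrational_inv_iff.mpr hi).sub_intCast _
  have hu0 : 0 < u := lt_of_le_of_ne (Int.fract_nonneg _) hui.ne_zero.symm
  have hu1 : u < 1 := Int.fract_lt_one _
  have hfl : 1 / x = ⌊1 / x⌋ + u := by
    rw [hu]; exact (Int.floor_add_fract (1 / x)).symm
  have hT : T a x = u ∨ T a x = u - 1 := by
    by_cases hua : u < a
    · left
      exact T_eq_of hi.ne_zero ⌊1 / x⌋ (by linarith) (by linarith [ha.2]) hua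
    · right
      push Not at hua
      exact T_eq_of hi.ne_zero (⌊1 / x⌋ + 1) (by push_cast; linarith) (by linarith)
        (by linarith [ha.1])
  have habs : |x| = x := abs_of_pos hx.1
  have hN := N_succ ha' hx' hi hs hs1
  rw [habs] at hN
  have hs' : 0 < s / x := div_pos hs hx.1
  have hib := index_bound ha ⟨hu0, hu1⟩ hui hs'
  have hib' : |(N a (s / x) u : ℝ) - N a (s / x) (u - 1)| ≤ 8 := by exact_mod_cast hib
  have h1 : |(N a (s / x) (T a x) : ℝ) - N a (s / x) u| ≤ 8 := by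
    rcases hT with h | h
    · rw [h]; simp
    · rw [h, abs_sub_comm]; exact hib'
  have hu' : u ∈ Ioo (-1:ℝ) 1 := ⟨by linarith, hu1⟩
  have hss : s ≤ s / x := by
    rw [le_div_iff₀ hx.1]
    nlinarith [hx.2]
  have h2 : (N a (s / x) u : ℝ) ≤ N a s u := by
    exact_mod_cast N_anti ha' hu' hs hss
  have h3 := N_le_N_add ha' hu' hui hs' hx.1 hx.2.le
  rw [div_mul_cancel₀ s hx.1.ne'] at h3
  rw [hN]
  push_cast
  rw [abs_le] at h1 ⊢
  have hlog : 0 ≤ Real.log (1 / x) := Real.log_nonneg (by rw [le_div_iff₀ hx.1]; linarith [hx.2])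
  constructor <;> linarith [h1.1, h1.2]

lemma measurable_avgN (a : ℝ) (n : ℕ) : Measurable fun x => avgN a x n := by
  unfold avgN
  exact ((measurable_from_top (f := fun m : ℕ => (m : ℝ))).comp (measurable_N a _)).div_const _

theorem ae_const_lim {a : ℝ} (ha : a ∈ Ico (1 / 2 : ℝ) 1) :
    ∃ Lp Lm : ℝ, ∀ᵐ x ∂(volume.restrict (Ioo (-1 : ℝ) 1)),
      limsup (fun n : ℕ => (N a (Real.exp (-(n : ℝ))) x : ℝ) / n) atTop = Lp ∧
      liminf (fun n : ℕ => (N a (Real.exp (-(n : ℝ))) x : ℝ) / n) atTop = Lm := by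
  have ha' : a ∈ Ioo (0:ℝ) 1 := ⟨by linarith [ha.1], ha.2⟩
  set F : ℝ → ℝ := fun x => limsup (avgN a x) atTop with hF
  set G : ℝ → ℝ := fun x => liminf (avgN a x) atTop with hG
  have hFm : Measurable F := Measurable.limsup (f := fun n x => avgN a x n) (measurable_avgN a)
  have hGm : Measurable G := Measurable.liminf (f := fun n x => avgN a x n) (measurable_avgN a)
  have hfr : ∀ x ∈ Ioo (0:ℝ) 1, Irrational x → F (Int.fract (1 / x)) = F x ∧
      G (Int.fract (1 / x)) = G x := by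
    intro x hx hi
    have hx' : x ∈ Ioo (-1:ℝ) 1 := ⟨by linarith [hx.1], hx.2⟩
    have hu' : Int.fract (1 / x) ∈ Ioo (-1:ℝ) 1 :=
      ⟨by linarith [Int.fract_nonneg (1 / x)], Int.fract_lt_one _⟩
    have h := avgN_lim_eq ha' hx' hu' (3 * Real.log (1 / x) + 13)
      (fun s hs hs1 => N_gauss ha hx hi hs hs1)
    exact ⟨h.1.symm, h.2.symm⟩
  obtain ⟨Lp, hLp⟩ := gauss_ae_const hFm (fun x hx hi => (hfr x hx hi).1)
  obtain ⟨Lm, hLm⟩ := gauss_ae_const hGm (fun x hx hi => (hfr x hx hi).2)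
  refine ⟨Lp, Lm, ?_⟩
  have hshift : ∀ x ∈ Ioo (0:ℝ) 1, Irrational x → F (x - 1) = F x ∧ G (x - 1) = G x := by
    intro x hx hi
    have hx' : x ∈ Ioo (-1:ℝ) 1 := ⟨by linarith [hx.1], hx.2⟩
    have hu' : x - 1 ∈ Ioo (-1:ℝ) 1 := ⟨by linarith [hx.1], by linarith [hx.2]⟩
    refine avgN_lim_eq ha' hu' hx' 8 (fun s hs _ => ?_)
    have := index_bound ha hx hi hs
    rw [abs_sub_comm]
    exact_mod_cast this
  have hgood : ∀ᵐ x : ℝ ∂volume, x ∈ Ioo (0:ℝ) 1 → (F x = Lp ∧ G x = Lm) ∧ Irrational x := by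
    rw [ae_restrict_iff' measurableSet_Ioo] at hLp hLm
    filter_upwards [hLp, hLm, ae_irrational] with x h1 h2 h3 hx
    exact ⟨⟨h1 hx, h2 hx⟩, h3⟩
  have hgood' : ∀ᵐ x : ℝ ∂volume, x + 1 ∈ Ioo (0:ℝ) 1 →
      (F (x + 1) = Lp ∧ G (x + 1) = Lm) ∧ Irrational (x + 1) :=
    (measurePreserving_add_right volume (1:ℝ)).quasiMeasurePreserving.ae hgood
  rw [ae_restrict_iff' measurableSet_Ioo]
  filter_upwards [hgood, hgood', ae_irrational] with x h1 h2 h3 hx
  change F x = Lp ∧ G x = Lm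
  rcases lt_trichotomy x 0 with h | h | h
  · have hx1 : x + 1 ∈ Ioo (0:ℝ) 1 := ⟨by linarith [hx.1], by linarith⟩
    obtain ⟨⟨e1, e2⟩, hi⟩ := h2 hx1
    have := hshift (x + 1) hx1 hi
    rw [add_sub_cancel_right] at this
    exact ⟨this.1.trans e1, this.2.trans e2⟩
  · exact absurd h h3.ne_zero
  · exact (h1 ⟨h, hx.2⟩).1

end TanakaIto
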