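import Pool.Agent.TI.Basic

/-! Tanaka-Ito maps: existence of an absolutely continuous invariant probability measure,
from the renewal bound, by an ultrafilter limit. -/

open MeasureTheory Filter Topology Set
open scoped ENNReal

namespace TanakaIto

/-- Limit of a dominated sequence of measures along an ultrafilter. -/
theorem exists_limit_measure {Ω : Type*} [MeasurableSpace Ω] {ν : Measure Ω} [IsFiniteMeasure ν]
    {C : ℝ≥0∞} (hC : C ≠ ∞) {m : ℕ → Measure Ω}
    (hm : ∀ n A, MeasurableSet A → m n A ≤ C * ν A) (U : Ultrafilter ℕ) :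
    ∃ μ : Measure Ω, ∀ A, MeasurableSet A → Tendsto (fun n => m n A) U (𝓝 (μ A)) := by
  classical
  set L : Set Ω → ℝ≥0∞ := fun A => (U.map (fun n => m n A)).lim with hL
  have hlim : ∀ A, Tendsto (fun n => m n A) U (𝓝 (L A)) := fun A =>
    (U.map (fun n => m n A)).le_nhds_lim
  have hle : ∀ A, MeasurableSet A → L A ≤ C * ν A := fun A hA =>
    le_of_tendsto' (hlim A) fun n => hm n A hA
  have hmono : ∀ A B, A ⊆ B → L A ≤ L B := fun A B hAB =>
    le_of_tendsto_of_tendsto' (hlim A) (hlim B) fun n => measure_mono hAB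
  have hadd : ∀ A B, Disjoint A B → MeasurableSet B → L (A ∪ B) = L A + L B := by
    intro A B hd hB
    refine tendsto_nhds_unique (hlim _) ?_
    have := (hlim A).add (hlim B)
    refine this.congr fun n => ?_
    rw [measure_union hd hB]
  have hempty : L ∅ = 0 := tendsto_nhds_unique (hlim ∅) (by simp)
  have hfin : ∀ (A : ℕ → Set Ω), (∀ i, MeasurableSet (A i)) → Pairwise (Function.onFun Disjoint A) →
      ∀ n, L (⋃ i, A i) = ∑ i ∈ Finset.range n, L (A i) + L (⋃ i, A (i + n)) := by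
    intro A hA hd n
    induction n with
    | zero => simp
    | succ n ih =>
      rw [ih, Finset.sum_range_succ, add_assoc]
      congr 1
      have hU : (⋃ i, A (i + n)) = A n ∪ ⋃ i, A (i + (n + 1)) := by
        ext x
        simp only [mem_iUnion, mem_union]
        constructor
        · rintro ⟨i, hi⟩
          cases i with
          | zero => left; simpa using hi
          | succ i => right; exact ⟨i, by rwa [show i + (n + 1) = i + 1 + n by ring]⟩
        · rintro (h | ⟨i, hi⟩)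
          · exact ⟨0, by simpa using h⟩
          · exact ⟨i + 1, by rwa [show i + 1 + n = i + (n + 1) by ring]⟩
      rw [hU]
      apply hadd
      · rw [disjoint_iUnion_right]
        intro i
        exact hd (by omega)
      · exact MeasurableSet.iUnion fun i => hA _
  have hsum : ∀ (A : ℕ → Set Ω), (∀ i, MeasurableSet (A i)) → Pairwise (Function.onFun Disjoint A) →
      L (⋃ i, A i) = ∑' i, L (A i) := by
    intro A hA hd
    apply le_antisymm
    · have hν : Tendsto (fun n => ∑' k, ν (A (k + n))) atTop (𝓝 0) := by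
        refine ENNReal.tendsto_sum_nat_add (fun i => ν (A i)) ?_
        rw [← measure_iUnion hd hA]
        exact measure_ne_top _ _
      have h2 : Tendsto (fun n => ∑' i, L (A i) + C * ∑' k, ν (A (k + n))) atTop
          (𝓝 (∑' i, L (A i) + C * 0)) := by
        apply Tendsto.add tendsto_const_nhds
        exact ENNReal.Tendsto.const_mul hν (Or.inr hC)
      rw [mul_zero, add_zero] at h2
      refine ge_of_tendsto' h2 fun n => ?_
      rw [hfin A hA hd n]
      gcongr
      · exact ENNReal.sum_le_tsum _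
      · refine (hle _ (MeasurableSet.iUnion fun i => hA _)).trans ?_
        gcongr
        exact measure_iUnion_le _
    · refine ENNReal.tsum_le_of_sum_range_le fun n => ?_
      rw [hfin A hA hd n]
      exact le_self_add
  refine ⟨Measure.ofMeasurable (fun A _ => L A) hempty fun A hA hd => hsum A hA hd,
    fun A hA => ?_⟩
  rw [Measure.ofMeasurable_apply A hA]
  exact hlim A

/-- The renewal sum of the function f at the point x. -/
noncomputable def rsum (a s : ℝ) (f : ℝ → ℝ≥0∞) (x : ℝ) : ℝ≥0∞ :=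
  ∑' k : ℕ, if s ≤ P a x k then f ((T a)^[k] x) else 0

lemma rsum_eq {a s x : ℝ} (ha : a ∈ Ioo (0:ℝ) 1) (hx : x ∈ Ioo (-1:ℝ) 1) (hs : 0 < s)
    (f : ℝ → ℝ≥0∞) : rsum a s f x = ∑ k ∈ Finset.range (N a s x), f ((T a)^[k] x) := by
  unfold rsum
  rw [tsum_eq_sum (s := Finset.range (N a s x))]
  · refine Finset.sum_congr rfl fun k hk => ?_
    rw [if_pos ((lt_N_iff ha hx hs k).mp (Finset.mem_range.mp hk))]
  · intro k hk
    rw [if_neg]
    rw [← lt_N_iff ha hx hs k]
    simpa using hk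

/-- The renewal measure with parameter s. -/
noncomputable def rmeas (a s : ℝ) : Measure ℝ :=
  Measure.sum fun k : ℕ =>
    (volume.restrict (Ico (a - 1) a ∩ {x | s ≤ P a x k})).map (T a)^[k]

lemma measurableSet_le_P (a s : ℝ) (k : ℕ) : MeasurableSet {x | s ≤ P a x k} :=
  measurableSet_le measurable_const (measurable_P a k)

lemma lintegral_rmeas (a s : ℝ) {f : ℝ → ℝ≥0∞} (hf : Measurable f) :
    ∫⁻ x, f x ∂(rmeas a s) = ∫⁻ x in Ico (a - 1) a, rsum a s f x := by
  unfold rmeas rsum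
  rw [lintegral_sum_measure, lintegral_tsum]
  · refine tsum_congr fun k => ?_
    rw [lintegral_map hf ((measurable_T a).iterate k), inter_comm,
      ← Measure.restrict_restrict (measurableSet_le_P a s k),
      ← lintegral_indicator (measurableSet_le_P a s k)]
    rfl
  · intro k
    apply Measurable.aemeasurable
    exact Measurable.ite (measurableSet_le_P a s k) (hf.comp ((measurable_T a).iterate k))
      measurable_const

lemma exp_mem (t : ℕ) : Real.exp (-(t:ℝ)) ∈ Ioc (0:ℝ) 1 :=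
  ⟨Real.exp_pos _, Real.exp_le_one_iff.mpr (by simp)⟩

/-- The normalised renewal measures. -/
noncomputable def nmeas (a : ℝ) (t : ℕ) : Measure ℝ :=
  ((1 + t : ℝ≥0∞))⁻¹ • rmeas a (Real.exp (-(t:ℝ)))

lemma lintegral_nmeas (a : ℝ) (t : ℕ) {f : ℝ → ℝ≥0∞} (hf : Measurable f) :
    ∫⁻ x, f x ∂(nmeas a t) =
      (1 + t : ℝ≥0∞)⁻¹ * ∫⁻ x in Ico (a - 1) a, rsum a (Real.exp (-(t:ℝ))) f x := by
  unfold nmeas
  rw [lintegral_smul_measure, lintegral_rmeas a _ hf, smul_eq_mul]

lemma lintegral_nmeas_le {C : ℝ} (hB : RenewalBound C) {a : ℝ} (ha : a ∈ Ico (1 / 2 : ℝ) 1)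
    (t : ℕ) {f : ℝ → ℝ≥0∞} (hf : Measurable f) :
    ∫⁻ x, f x ∂(nmeas a t) ≤ ENNReal.ofReal C * ∫⁻ x in Ico (a - 1) a, f x := by
  rw [lintegral_nmeas a t hf]
  have h := hB a ha _ (exp_mem t) f hf
  have hlog : Real.log (1 / Real.exp (-(t:ℝ))) = t := by
    rw [one_div, ← Real.exp_neg, neg_neg, Real.log_exp]
  rw [hlog] at h
  have h1 : ENNReal.ofReal (C * (1 + (t:ℝ))) = ENNReal.ofReal C * (1 + t : ℝ≥0∞) := by
    rw [ENNReal.ofReal_mul' (by positivity), ENNReal.ofReal_add (by norm_num) (by positivity)]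
    simp
  rw [h1] at h
  have hne : (1 + t : ℝ≥0∞) ≠ 0 := by
    intro h0
    simp at h0
  have hnt : (1 + t : ℝ≥0∞) ≠ ∞ := by simp
  calc (1 + t : ℝ≥0∞)⁻¹ * ∫⁻ x in Ico (a - 1) a, rsum a (Real.exp (-(t:ℝ))) f x
      ≤ (1 + t : ℝ≥0∞)⁻¹ * (ENNReal.ofReal C * (1 + t : ℝ≥0∞) * ∫⁻ x in Ico (a - 1) a, f x) := by
        gcongr
        exact h
    _ = ((1 + t : ℝ≥0∞)⁻¹ * (1 + t : ℝ≥0∞)) * (ENNReal.ofReal C * ∫⁻ x in Ico (a - 1) a, f x) := by
        ring
    _ = _ := by rw [ENNReal.inv_mul_cancel hne hnt, one_mul]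

lemma Ico_sub {a : ℝ} (ha : a ∈ Ioo (0:ℝ) 1) {x : ℝ} (hx : x ∈ Ico (a - 1) a) :
    x ∈ Ioo (-1:ℝ) 1 := ⟨by linarith [hx.1, ha.1], by linarith [hx.2, ha.2]⟩

lemma volume_I (a : ℝ) : volume (Ico (a - 1) a) = 1 := by
  rw [Real.volume_Ico]; simp

lemma rsum_comp_T {a s : ℝ} (ha : a ∈ Ioo (0:ℝ) 1) (hs : 0 < s) {x : ℝ}
    (hx : x ∈ Ico (a - 1) a) {f : ℝ → ℝ≥0∞} :
    rsum a s (fun y => f (T a y)) x + f x = rsum a s f x + f ((T a)^[N a s x] x) := by
  rw [rsum_eq ha (Ico_sub ha hx) hs, rsum_eq ha (Ico_sub ha hx) hs]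
  have h1 := Finset.sum_range_succ' (fun k => f ((T a)^[k] x)) (N a s x)
  have h2 := Finset.sum_range_succ (fun k => f ((T a)^[k] x)) (N a s x)
  rw [← h2, h1]
  simp only [Function.iterate_succ_apply', Function.iterate_zero, id]

lemma nmeas_preimage {a : ℝ} (ha : a ∈ Ioo (0:ℝ) 1) (t : ℕ) {A : Set ℝ} (hA : MeasurableSet A) :
    nmeas a t (T a ⁻¹' A) ≤ nmeas a t A + (1 + t : ℝ≥0∞)⁻¹ ∧
      nmeas a t A ≤ nmeas a t (T a ⁻¹' A) + (1 + t : ℝ≥0∞)⁻¹ := by
  have hTA : MeasurableSet (T a ⁻¹' A) := measurable_T a hA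
  set f : ℝ → ℝ≥0∞ := A.indicator 1 with hf
  have hfm : Measurable f := measurable_one.indicator hA
  have e1 : nmeas a t A = ∫⁻ x, f x ∂(nmeas a t) := by
    rw [hf, lintegral_indicator_one hA]
  have e2 : nmeas a t (T a ⁻¹' A) = ∫⁻ x, f (T a x) ∂(nmeas a t) := by
    rw [← lintegral_indicator_one hTA]
    rfl
  have hf1 : ∀ x, f x ≤ 1 := fun x => by
    rw [hf]
    exact indicator_le_self' (fun _ _ => bot_le) x
  rw [e1, e2, lintegral_nmeas a t hfm,
    lintegral_nmeas a t (f := fun x => f (T a x)) (hfm.comp (measurable_T a))]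
  set s := Real.exp (-(t:ℝ)) with hs
  have hs0 : 0 < s := Real.exp_pos _
  have hone : ∫⁻ _x in Ico (a - 1) a, (1 : ℝ≥0∞) = 1 := by
    rw [setLIntegral_one, volume_I]
  constructor
  · calc (1 + t : ℝ≥0∞)⁻¹ * ∫⁻ x in Ico (a - 1) a, rsum a s (fun y => f (T a y)) x
        ≤ (1 + t : ℝ≥0∞)⁻¹ * ∫⁻ x in Ico (a - 1) a, (rsum a s f x + 1) := by
          gcongr 1
          refine setLIntegral_mono' measurableSet_Ico fun x hx => ?_
          calc rsum a s (fun y => f (T a y)) x ≤ rsum a s (fun y => f (T a y)) x + f x :=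
                le_self_add
            _ = rsum a s f x + f ((T a)^[N a s x] x) := rsum_comp_T ha hs0 hx
            _ ≤ _ := by gcongr; exact hf1 _
      _ = _ := by
          rw [lintegral_add_right _ measurable_const, hone, mul_add, mul_one]
  · calc (1 + t : ℝ≥0∞)⁻¹ * ∫⁻ x in Ico (a - 1) a, rsum a s f x
        ≤ (1 + t : ℝ≥0∞)⁻¹ * ∫⁻ x in Ico (a - 1) a, (rsum a s (fun y => f (T a y)) x + 1) := by
          gcongr 1
          refine setLIntegral_mono' measurableSet_Ico fun x hx => ?_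
          calc rsum a s f x ≤ rsum a s f x + f ((T a)^[N a s x] x) := le_self_add
            _ = rsum a s (fun y => f (T a y)) x + f x := (rsum_comp_T ha hs0 hx).symm
            _ ≤ _ := by gcongr; exact hf1 _
      _ = _ := by
          rw [lintegral_add_right _ measurable_const, hone, mul_add, mul_one]

/-- The part of psi above the level M. -/
noncomputable def excess (M : ℝ) (x : ℝ) : ℝ≥0∞ := ENNReal.ofReal (psi x - M)

lemma measurable_excess (M : ℝ) : Measurable (excess M) :=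
  (measurable_psi.sub_const M).ennreal_ofReal

lemma lintegral_psi_lt_top {a : ℝ} : ∫⁻ x in Ico (a - 1) a, ENNReal.ofReal (psi x) < ∞ := by
  have h : IntervalIntegrable psi volume (a - 1) a := by
    unfold psi
    simp only [Real.log_abs]
    exact intervalIntegral.intervalIntegrable_log'.const_mul _
  rw [intervalIntegrable_iff_integrableOn_Ico_of_le (by linarith)] at h
  exact h.integrable.lintegral_lt_top

lemma tendsto_excess (a : ℝ) :
    Tendsto (fun M : ℕ => ∫⁻ x in Ico (a - 1) a, excess (M:ℝ) x) atTop (𝓝 0) := by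
  have h := tendsto_lintegral_of_dominated_convergence (μ := volume.restrict (Ico (a - 1) a))
    (F := fun M : ℕ => excess (M:ℝ)) (f := fun _ => 0) (fun x => ENNReal.ofReal (psi x))
    (fun M => measurable_excess _) (fun M => ?_) lintegral_psi_lt_top.ne ?_
  · simpa using h
  · refine Eventually.of_forall fun x => ?_
    unfold excess
    apply ENNReal.ofReal_le_ofReal
    have : (0:ℝ) ≤ M := Nat.cast_nonneg M
    linarith
  · refine Eventually.of_forall fun x => ?_
    obtain ⟨n, hn⟩ := exists_nat_ge (psi x)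
    refine tendsto_const_nhds.congr' ?_
    filter_upwards [eventually_ge_atTop n] with M hM
    unfold excess
    rw [ENNReal.ofReal_of_nonpos]
    have : (n:ℝ) ≤ M := by exact_mod_cast hM
    linarith

lemma rsum_lower {a : ℝ} (ha : a ∈ Ioo (0:ℝ) 1) (t : ℕ) (M : ℝ) {x : ℝ}
    (hx : x ∈ Ico (a - 1) a) (hi : Irrational x) :
    ENNReal.ofReal (2 * t) ≤
      rsum a (Real.exp (-(t:ℝ))) (fun y => ENNReal.ofReal M + excess M y) x := by
  set s := Real.exp (-(t:ℝ)) with hs
  have hs0 : 0 < s := Real.exp_pos _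
  have hx' := Ico_sub ha hx
  rw [rsum_eq ha hx' hs0]
  set K := N a s x with hK
  have h1 : ∑ k ∈ Finset.range K, ENNReal.ofReal (psi ((T a)^[k] x)) ≤
      ∑ k ∈ Finset.range K, (ENNReal.ofReal M + excess M ((T a)^[k] x)) := by
    refine Finset.sum_le_sum fun k _ => ?_
    unfold excess
    calc ENNReal.ofReal (psi ((T a)^[k] x))
        = ENNReal.ofReal (M + (psi ((T a)^[k] x) - M)) := by congr 1; ring
      _ ≤ _ := ENNReal.ofReal_add_le
  refine le_trans ?_ h1
  rw [← ENNReal.ofReal_sum_of_nonneg]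
  · apply ENNReal.ofReal_le_ofReal
    have h2 : ∑ k ∈ Finset.range K, psi ((T a)^[k] x) = -2 * Real.log (P a x K) := by
      rw [← birkhoffSum_psi hi]; rfl
    rw [h2]
    have h3 := P_N_lt ha hx' hs0
    have h4 : Real.log (P a x K) < Real.log s := Real.log_lt_log (P_pos hi K) h3
    rw [hs, Real.log_exp] at h4
    linarith
  · intro k _
    apply psi_nonneg
    have := iter_mem_Ioo ha hx' k
    exact ⟨this.1.le, this.2.le⟩

lemma ae_irrational_restrict (a : ℝ) :
    ∀ᵐ x ∂(volume.restrict (Ico (a - 1) a)), x ∈ Ico (a - 1) a ∧ Irrational x := by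
  have h1 : ∀ᵐ x ∂(volume.restrict (Ico (a - 1) a)), x ∈ Ico (a - 1) a :=
    ae_restrict_mem measurableSet_Ico
  have h2 : ∀ᵐ x ∂(volume : Measure ℝ), Irrational x := by
    rw [ae_iff]
    have : {x : ℝ | ¬ Irrational x} = range ((↑) : ℚ → ℝ) := by
      ext x
      simp [Irrational]
    rw [this]
    exact (countable_range _).measure_zero _
  filter_upwards [h1, ae_restrict_of_ae h2] with x hx hi using ⟨hx, hi⟩

lemma nmeas_lower {C : ℝ} (hB : RenewalBound C) {a : ℝ} (ha : a ∈ Ico (1 / 2 : ℝ) 1)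
    {t : ℕ} (ht : 1 ≤ t) (M : ℝ) :
    1 ≤ ENNReal.ofReal M * nmeas a t univ +
      ENNReal.ofReal C * ∫⁻ x in Ico (a - 1) a, excess M x := by
  have ha' : a ∈ Ioo (0:ℝ) 1 := ⟨by linarith [ha.1], ha.2⟩
  have hm : Measurable fun y => ENNReal.ofReal M + excess M y :=
    measurable_const.add (measurable_excess M)
  have h1 : ENNReal.ofReal (2 * t) ≤ ∫⁻ x in Ico (a - 1) a,
      rsum a (Real.exp (-(t:ℝ))) (fun y => ENNReal.ofReal M + excess M y) x := by
    calc ENNReal.ofReal (2 * t) = ∫⁻ _x in Ico (a - 1) a, ENNReal.ofReal (2 * t) := by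
          rw [setLIntegral_const, volume_I, mul_one]
      _ ≤ _ := by
          apply lintegral_mono_ae
          filter_upwards [ae_irrational_restrict a] with x hx
          exact rsum_lower ha' t M hx.1 hx.2
  have h2 := lintegral_nmeas a t hm
  have hne : (1 + t : ℝ≥0∞) ≠ 0 := by
    intro h0
    simp at h0
  have hnt : (1 + t : ℝ≥0∞) ≠ ∞ := by simp
  have h3 : (1 : ℝ≥0∞) ≤ (1 + t : ℝ≥0∞)⁻¹ * ENNReal.ofReal (2 * t) := by
    rw [ENNReal.ofReal_mul (by norm_num)]
    have : (1 + t : ℝ≥0∞) ≤ ENNReal.ofReal 2 * ENNReal.ofReal t := by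
      simp only [ENNReal.ofReal_ofNat, ENNReal.ofReal_natCast]
      rw [two_mul]
      gcongr
      exact_mod_cast ht
    calc (1 : ℝ≥0∞) = (1 + t : ℝ≥0∞)⁻¹ * (1 + t : ℝ≥0∞) :=
          (ENNReal.inv_mul_cancel hne hnt).symm
      _ ≤ _ := by gcongr
  calc (1 : ℝ≥0∞) ≤ (1 + t : ℝ≥0∞)⁻¹ * ENNReal.ofReal (2 * t) := h3
    _ ≤ (1 + t : ℝ≥0∞)⁻¹ * ∫⁻ x in Ico (a - 1) a,
      rsum a (Real.exp (-(t:ℝ))) (fun y => ENNReal.ofReal M + excess M y) x := by gcongr
    _ = ∫⁻ x, (ENNReal.ofReal M + excess M x) ∂(nmeas a t) := h2.symm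
    _ = ENNReal.ofReal M * nmeas a t univ + ∫⁻ x, excess M x ∂(nmeas a t) := by
        rw [lintegral_add_left measurable_const, lintegral_const]
    _ ≤ _ := by
        gcongr
        exact lintegral_nmeas_le hB ha t (measurable_excess M)

theorem exists_acip {C : ℝ} (hB : RenewalBound C) {a : ℝ} (ha : a ∈ Ico (1 / 2 : ℝ) 1) :
    ∃ μ : Measure ℝ, IsAcip a μ := by
  have ha' : a ∈ Ioo (0:ℝ) 1 := ⟨by linarith [ha.1], ha.2⟩
  have hdom : ∀ (n : ℕ) (A : Set ℝ), MeasurableSet A →
      nmeas a n A ≤ ENNReal.ofReal C * (volume.restrict (Ico (a - 1) a)) A := by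
    intro n A hA
    have h := lintegral_nmeas_le hB ha n (f := A.indicator 1) (measurable_one.indicator hA)
    rwa [lintegral_indicator_one hA, lintegral_indicator_one hA] at h
  have : IsFiniteMeasure (volume.restrict (Ico (a - 1) a)) :=
    ⟨by rw [Measure.restrict_apply_univ, volume_I]; exact ENNReal.one_lt_top⟩
  obtain ⟨μ, hμ⟩ := exists_limit_measure (ν := volume.restrict (Ico (a - 1) a))
    ENNReal.ofReal_ne_top hdom (hyperfilter ℕ)
  have hat : (hyperfilter ℕ : Filter ℕ) ≤ atTop := by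
    rw [← Nat.cofinite_eq_atTop]; exact hyperfilter_le_cofinite
  have hμle : ∀ A, MeasurableSet A →
      μ A ≤ ENNReal.ofReal C * (volume.restrict (Ico (a - 1) a)) A := fun A hA =>
    le_of_tendsto' (hμ A hA) fun n => hdom n A hA
  have hinv0 : Tendsto (fun n : ℕ => (1 + n : ℝ≥0∞)⁻¹) (hyperfilter ℕ) (𝓝 0) := by
    apply Tendsto.mono_left _ hat
    have h1 : Tendsto (fun n : ℕ => (n : ℝ≥0∞)⁻¹) atTop (𝓝 0) :=
      ENNReal.tendsto_inv_nat_nhds_zero
    refine tendsto_of_tendsto_of_tendsto_of_le_of_le tendsto_const_nhds h1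
      (fun n => bot_le) (fun n => ?_)
    exact ENNReal.inv_le_inv.mpr (by simp)
  have hinv : ∀ A, MeasurableSet A → μ (T a ⁻¹' A) = μ A := by
    intro A hA
    have hTA := measurable_T a hA
    apply le_antisymm
    · have h := (hμ A hA).add hinv0
      rw [add_zero] at h
      exact le_of_tendsto_of_tendsto' (hμ _ hTA) h fun n => (nmeas_preimage ha' n hA).1
    · have h := (hμ _ hTA).add hinv0
      rw [add_zero] at h
      exact le_of_tendsto_of_tendsto' (hμ _ hA) h fun n => (nmeas_preimage ha' n hA).2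
  have hne : μ univ ≠ 0 := by
    intro h0
    have hex := ENNReal.Tendsto.const_mul (tendsto_excess a)
      (Or.inr (ENNReal.ofReal_ne_top (r := C)))
    rw [mul_zero] at hex
    have hev : ∀ᶠ M : ℕ in atTop,
        ENNReal.ofReal C * ∫⁻ x in Ico (a - 1) a, excess (M:ℝ) x < 1 :=
      hex.eventually_lt_const zero_lt_one
    obtain ⟨M, hM⟩ := hev.exists
    have h1 : Tendsto (fun n => ENNReal.ofReal (M:ℝ) * nmeas a n univ +
        ENNReal.ofReal C * ∫⁻ x in Ico (a - 1) a, excess (M:ℝ) x) (hyperfilter ℕ)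
        (𝓝 (ENNReal.ofReal (M:ℝ) * μ univ +
          ENNReal.ofReal C * ∫⁻ x in Ico (a - 1) a, excess (M:ℝ) x)) :=
      (ENNReal.Tendsto.const_mul (hμ univ MeasurableSet.univ)
        (Or.inr ENNReal.ofReal_ne_top)).add tendsto_const_nhds
    have h2 : (1 : ℝ≥0∞) ≤ ENNReal.ofReal (M:ℝ) * μ univ +
        ENNReal.ofReal C * ∫⁻ x in Ico (a - 1) a, excess (M:ℝ) x := by
      refine ge_of_tendsto h1 ?_
      have : ∀ᶠ n : ℕ in (hyperfilter ℕ : Filter ℕ), 1 ≤ n := hat (eventually_ge_atTop 1)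
      filter_upwards [this] with n hn
      exact nmeas_lower hB ha hn M
    rw [h0, mul_zero, zero_add] at h2
    exact absurd h2 (not_le.mpr hM)
  have htop : μ univ ≠ ∞ := by
    refine ne_top_of_le_ne_top ?_ (hμle univ MeasurableSet.univ)
    exact ENNReal.mul_ne_top ENNReal.ofReal_ne_top (measure_ne_top _ _)
  have hzero : ∀ A, MeasurableSet A → (volume.restrict (Ico (a - 1) a)) A = 0 → μ A = 0 := by
    intro A hA h
    have := hμle A hA
    rw [h, mul_zero] at this
    exact le_antisymm this bot_le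
  refine ⟨(μ univ)⁻¹ • μ, ?_, ?_, ?_, ?_⟩
  · refine ⟨?_⟩
    rw [Measure.smul_apply, smul_eq_mul, ENNReal.inv_mul_cancel hne htop]
  · rw [Measure.smul_apply, hzero _ measurableSet_Icc.compl, smul_zero]
    rw [Measure.restrict_apply measurableSet_Icc.compl]
    have : (Icc (a - 1) a)ᶜ ∩ Ico (a - 1) a = ∅ := by
      rw [← disjoint_iff_inter_eq_empty]
      exact disjoint_compl_left.mono_right Ico_subset_Icc_self
    rw [this, measure_empty]
  · refine Measure.AbsolutelyContinuous.mk fun A hA h => ?_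
    rw [Measure.smul_apply, hzero A hA, smul_zero]
    exact le_antisymm ((Measure.restrict_apply_le _ _).trans h.le) bot_le
  · refine ⟨measurable_T a, ?_⟩
    rw [Measure.map_smul]
    congr 1
    ext A hA
    rw [Measure.map_apply (measurable_T a) hA, hinv A hA]

end TanakaIto
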