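import Pool.Agent.TI.LemmaA
import Pool.Agent.TI.Exist

/-! Tanaka-Ito continued fraction maps: comparison of two parameters. -/

open MeasureTheory Filter Topology Set
open scoped ENNReal

namespace TanakaIto

/-- The number of k below n such that the point number k + 1 of the orbit is in Ico a b. -/
noncomputable def cnt (a b : ℝ) (n : ℕ) (x : ℝ) : ℕ :=
  ∑ k ∈ Finset.range n, (Ico a b).indicator (fun _ => 1) ((T b)^[k + 1] x)

lemma cnt_succ (a b : ℝ) (n : ℕ) (x : ℝ) :
    cnt a b (1 + n) x = cnt a b n (T b x) + (Ico a b).indicator (fun _ => 1) (T b x) := by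
  unfold cnt
  rw [add_comm 1 n, Finset.sum_range_succ']
  simp only [Function.iterate_succ_apply, Function.iterate_zero_apply]

lemma cnt_le (a b : ℝ) (n : ℕ) (x : ℝ) :
    cnt a b n x ≤ 1 + ∑ k ∈ Finset.range n, (Ico a b).indicator (fun _ => 1) ((T b)^[k] x) := by
  unfold cnt
  have h1 := Finset.sum_range_succ' (fun k => (Ico a b).indicator (fun _ => (1:ℕ)) ((T b)^[k] x)) n
  have h2 := Finset.sum_range_succ (fun k => (Ico a b).indicator (fun _ => (1:ℕ)) ((T b)^[k] x)) n
  have h3 : (Ico a b).indicator (fun _ => (1:ℕ)) ((T b)^[n] x) ≤ 1 :=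
    Set.indicator_le_self' (f := fun _ => (1:ℕ)) (fun _ _ => Nat.zero_le _) _
  omega

lemma glue_pointwise {a b : ℝ} (ha : a ∈ Ico (1 / 2 : ℝ) 1)
    (hb : b ∈ Ico (1 / 2 : ℝ) 1) (hab : a < b) :
    ∀ (n : ℕ) (x s : ℝ), N b s x = n → x ∈ Ioo (-1 : ℝ) 1 → Irrational x → 0 < s →
      |(N a s x : ℤ) - (N b s x : ℤ)| ≤ 8 * (cnt a b (N b s x) x : ℤ) := by
  have ha' : a ∈ Ioo (0:ℝ) 1 := ⟨by linarith [ha.1], ha.2⟩
  have hb' : b ∈ Ioo (0:ℝ) 1 := ⟨by linarith [hb.1], hb.2⟩
  intro n
  induction n with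
  | zero =>
    intro x s hN hx hi hs
    have hs1 : 1 < s := by
      by_contra h
      push Not at h
      have := N_pos hb' hx hs h
      omega
    rw [N_eq_zero hs1, N_eq_zero hs1]
    simp
  | succ n ih =>
    intro x s hN hx hi hs
    have hs1 : s ≤ 1 := by
      by_contra h
      push Not at h
      rw [N_eq_zero h] at hN
      omega
    have hx0 : x ≠ 0 := hi.ne_zero
    have hNb := N_succ hb' hx hi hs hs1
    have hNa := N_succ ha' hx hi hs hs1
    have hs' : 0 < s / |x| := div_pos hs (abs_pos.mpr hx0)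
    have hy := T_mem_Ico (x := x) hb'
    have hy' := T_mem_Ioo (x := x) hb'
    have hyi : Irrational (T b x) := irrational_T hi
    have hind := ih (T b x) (s / |x|) (by omega) hy' hyi hs'
    rw [hNb, hNa, cnt_succ]
    have hTb : 1 / x - (dig b x : ℝ) = T b x := (T_of_ne hx0).symm
    by_cases hya : T b x < a
    · have hTa : T a x = T b x := T_eq_of hx0 (dig b x) hTb (by linarith [hy.1]) hya
      rw [hTa]
      have : (Ico a b).indicator (fun _ => (1:ℕ)) (T b x) = 0 := by
        rw [Set.indicator_of_notMem]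
        intro h
        exact absurd h.1 (not_le.mpr hya)
      rw [this]
      push_cast
      rw [abs_le] at *
      omega
    · push Not at hya
      have hTa : T a x = T b x - 1 := by
        apply T_eq_of hx0 (dig b x + 1)
        · push_cast; linarith
        · linarith
        · linarith [hy'.2, ha.1]
      rw [hTa]
      have hone : (Ico a b).indicator (fun _ => (1:ℕ)) (T b x) = 1 := by
        rw [Set.indicator_of_mem]
        exact ⟨hya, hy.2⟩
      rw [hone]
      have hib := index_bound ha (x := T b x) ⟨by linarith [ha.1], hy'.2⟩ hyi hs'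
      push_cast
      rw [abs_le] at *
      omega

lemma glue_ennreal {a b : ℝ} (ha : a ∈ Ico (1 / 2 : ℝ) 1)
    (hb : b ∈ Ico (1 / 2 : ℝ) 1) (hab : a < b) {x s : ℝ} (hx : x ∈ Ico (b - 1) b)
    (hi : Irrational x) (hs : 0 < s) :
    ENNReal.ofReal |(N a s x : ℝ) - (N b s x : ℝ)| ≤
      8 * (1 + rsum b s ((Ico a b).indicator (fun _ => 1)) x) := by
  have hb' : b ∈ Ioo (0:ℝ) 1 := ⟨by linarith [hb.1], hb.2⟩
  have hx' := Ico_sub hb' hx
  rw [rsum_eq hb' hx' hs]
  have h1 := glue_pointwise ha hb hab _ x s rfl hx' hi hs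
  have h2 := cnt_le a b (N b s x) x
  have h3 : |(N a s x : ℤ) - (N b s x : ℤ)| ≤
      ((8 * (1 + ∑ k ∈ Finset.range (N b s x),
        (Ico a b).indicator (fun _ => (1:ℕ)) ((T b)^[k] x)) : ℕ) : ℤ) := by
    refine h1.trans ?_
    push_cast
    have : (cnt a b (N b s x) x : ℤ) ≤ ((1 + ∑ k ∈ Finset.range (N b s x),
        (Ico a b).indicator (fun _ => (1:ℕ)) ((T b)^[k] x) : ℕ) : ℤ) := by exact_mod_cast h2
    push_cast at this
    linarith
  have h4 : |(N a s x : ℝ) - (N b s x : ℝ)| ≤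
      ((8 * (1 + ∑ k ∈ Finset.range (N b s x),
        (Ico a b).indicator (fun _ => (1:ℕ)) ((T b)^[k] x)) : ℕ) : ℝ) := by
    exact_mod_cast h3
  refine (ENNReal.ofReal_le_ofReal h4).trans ?_
  rw [ENNReal.ofReal_natCast]
  push_cast
  apply le_of_eq
  congr 2
  refine Finset.sum_congr rfl fun k _ => ?_
  by_cases h : (T b)^[k] x ∈ Ico a b
  · rw [Set.indicator_of_mem h, Set.indicator_of_mem h]; simp
  · rw [Set.indicator_of_notMem h, Set.indicator_of_notMem h]; simp

lemma glue_integral {C : ℝ} (hC : 0 < C) (hB : RenewalBound C) {a b : ℝ}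
    (ha : a ∈ Ico (1 / 2 : ℝ) 1) (hb : b ∈ Ico (1 / 2 : ℝ) 1) (hab : a < b) (n : ℕ) :
    ∫⁻ x in Ico (b - 1) b,
      ENNReal.ofReal |(N a (Real.exp (-(n:ℝ))) x : ℝ) - (N b (Real.exp (-(n:ℝ))) x : ℝ)| ≤
    ENNReal.ofReal (8 * (1 + C * (1 + n) * (b - a))) := by
  have hs := exp_mem n
  set s := Real.exp (-(n:ℝ)) with hsdef
  have hf : Measurable ((Ico a b).indicator (fun _ => (1:ℝ≥0∞))) :=
    measurable_const.indicator measurableSet_Ico
  have hBs := hB b hb s hs _ hf
  have hlog : Real.log (1 / s) = n := by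
    rw [hsdef, one_div, ← Real.exp_neg, neg_neg, Real.log_exp]
  rw [hlog] at hBs
  have hind : ∫⁻ x in Ico (b - 1) b, (Ico a b).indicator (fun _ => (1:ℝ≥0∞)) x =
      ENNReal.ofReal (b - a) := by
    rw [lintegral_indicator measurableSet_Ico, Measure.restrict_restrict measurableSet_Ico,
      inter_eq_self_of_subset_left, setLIntegral_one, Real.volume_Ico]
    intro x hx
    exact ⟨by linarith [hx.1, ha.1, hb.2], hx.2⟩
  rw [hind] at hBs
  calc ∫⁻ x in Ico (b - 1) b, ENNReal.ofReal |(N a s x : ℝ) - (N b s x : ℝ)|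
      ≤ ∫⁻ x in Ico (b - 1) b, 8 * (1 + rsum b s ((Ico a b).indicator (fun _ => 1)) x) := by
        apply lintegral_mono_ae
        filter_upwards [ae_irrational_restrict b] with x hx
        exact glue_ennreal ha hb hab hx.1 hx.2 hs.1
    _ = 8 * (1 + ∫⁻ x in Ico (b - 1) b, rsum b s ((Ico a b).indicator (fun _ => 1)) x) := by
        rw [lintegral_const_mul' _ _ (by norm_num), lintegral_add_left measurable_const,
          setLIntegral_one, volume_I]
    _ ≤ 8 * (1 + ENNReal.ofReal (C * (1 + n)) * ENNReal.ofReal (b - a)) := by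
        gcongr
        exact hBs
    _ = _ := by
        rw [← ENNReal.ofReal_mul (by positivity), ← ENNReal.ofReal_one,
          ← ENNReal.ofReal_add (by norm_num) (mul_nonneg (by positivity) (by linarith)),
          show (8:ℝ≥0∞) = ENNReal.ofReal 8 by simp, ← ENNReal.ofReal_mul (by norm_num)]

theorem glue {C : ℝ} (hC : 0 < C) (hB : RenewalBound C) {a b : ℝ} (ha : a ∈ Ico (1 / 2 : ℝ) 1)
    (hb : b ∈ Ico (1 / 2 : ℝ) 1) (hab : a < b) {La Lb : ℝ}
    (hLa : ∀ᵐ x ∂(volume.restrict (Ioo (-1 : ℝ) 1)),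
      Tendsto (fun n : ℕ => (N a (Real.exp (-(n : ℝ))) x : ℝ) / n) atTop (𝓝 La))
    (hLb : ∀ᵐ x ∂(volume.restrict (Ioo (-1 : ℝ) 1)),
      Tendsto (fun n : ℕ => (N b (Real.exp (-(n : ℝ))) x : ℝ) / n) atTop (𝓝 Lb)) :
    |La - Lb| ≤ 8 * C * (b - a) := by
  have hb' : b ∈ Ioo (0:ℝ) 1 := ⟨by linarith [hb.1], hb.2⟩
  have hsub : Ico (b - 1) b ⊆ Ioo (-1:ℝ) 1 := fun x hx => Ico_sub hb' hx
  have hLa' := ae_restrict_of_ae_restrict_of_subset hsub hLa
  have hLb' := ae_restrict_of_ae_restrict_of_subset hsub hLb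
  set F : ℕ → ℝ → ℝ≥0∞ := fun n x =>
    ENNReal.ofReal |(N a (Real.exp (-(n:ℝ))) x : ℝ) / n - (N b (Real.exp (-(n:ℝ))) x : ℝ) / n|
    with hF
  have hmeas : ∀ n, Measurable (F n) := by
    intro n
    have h1 : Measurable fun x => (N a (Real.exp (-(n:ℝ))) x : ℝ) :=
      measurable_from_nat.comp (measurable_N a _)
    have h2 : Measurable fun x => (N b (Real.exp (-(n:ℝ))) x : ℝ) :=
      measurable_from_nat.comp (measurable_N b _)
    exact ENNReal.measurable_ofReal.comp
      (continuous_abs.measurable.comp ((h1.div_const _).sub (h2.div_const _)))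
  have hfatou := lintegral_liminf_le (u := atTop) (μ := volume.restrict (Ico (b - 1) b)) hmeas
  have hleft : ∫⁻ x in Ico (b - 1) b, liminf (fun n => F n x) atTop =
      ENNReal.ofReal |La - Lb| := by
    have : ∫⁻ x in Ico (b - 1) b, liminf (fun n => F n x) atTop =
        ∫⁻ _ in Ico (b - 1) b, ENNReal.ofReal |La - Lb| := by
      apply lintegral_congr_ae
      filter_upwards [hLa', hLb'] with x h1 h2
      exact (ENNReal.tendsto_ofReal ((h1.sub h2).abs)).liminf_eq
    rw [this, setLIntegral_const, volume_I, mul_one]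
  rw [hleft] at hfatou
  have hup : ∀ n : ℕ, 1 ≤ n → ∫⁻ x in Ico (b - 1) b, F n x ≤
      ENNReal.ofReal (8 * (1 + C * (1 + n) * (b - a)) / n) := by
    intro n hn
    have hn0 : (0:ℝ) < n := by exact_mod_cast hn
    have h1 : ∀ x, F n x = ENNReal.ofReal (1 / n) *
        ENNReal.ofReal |(N a (Real.exp (-(n:ℝ))) x : ℝ) - (N b (Real.exp (-(n:ℝ))) x : ℝ)| := by
      intro x
      rw [← ENNReal.ofReal_mul (by positivity)]
      simp only [hF]
      congr 1
      rw [← sub_div, abs_div, abs_of_pos hn0]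
      ring
    simp only [h1]
    rw [lintegral_const_mul' _ _ ENNReal.ofReal_ne_top]
    refine (mul_le_mul_right (glue_integral hC hB ha hb hab n) _).trans ?_
    rw [← ENNReal.ofReal_mul (by positivity)]
    apply le_of_eq
    congr 1
    ring
  have hlim : Tendsto (fun n : ℕ => ENNReal.ofReal (8 * (1 + C * (1 + n) * (b - a)) / n)) atTop
      (𝓝 (ENNReal.ofReal (8 * C * (b - a)))) := by
    apply ENNReal.tendsto_ofReal
    have h1 : Tendsto (fun n : ℕ => (8 * (1 + C * (b - a))) * (1 / (n:ℝ)) + 8 * C * (b - a))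
        atTop (𝓝 ((8 * (1 + C * (b - a))) * 0 + 8 * C * (b - a))) :=
      (tendsto_one_div_atTop_nhds_zero_nat.const_mul _).add_const _
    rw [mul_zero, zero_add] at h1
    refine h1.congr' ?_
    filter_upwards [eventually_ge_atTop 1] with n hn
    have hn0 : (n:ℝ) ≠ 0 := by
      have : (0:ℝ) < n := by exact_mod_cast hn
      exact this.ne'
    field_simp
    ring
  have hfin : ENNReal.ofReal |La - Lb| ≤ ENNReal.ofReal (8 * C * (b - a)) := by
    refine hfatou.trans ?_
    rw [← hlim.liminf_eq]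
    refine liminf_le_liminf ?_ (by isBoundedDefault) (by isBoundedDefault)
    filter_upwards [eventually_ge_atTop 1] with n hn
    exact hup n hn
  exact (ENNReal.ofReal_le_ofReal_iff (mul_nonneg (by positivity) (by linarith))).mp hfin

end TanakaIto
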