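import Pool.Agent.TI.LemmaA

/-! Tanaka-Ito continued fraction maps: from the counting function to Birkhoff sums. -/

open MeasureTheory Filter Topology Set
open scoped ENNReal

namespace TanakaIto

/-- Renewal inversion: if the counting function grows like 2/lam per unit of logarithmic
scale, then the Birkhoff averages of psi converge to lam. -/
theorem birkhoff_of_N {a : ℝ} (ha : a ∈ Ioo (0 : ℝ) 1) {x : ℝ} (hx : x ∈ Ioo (-1 : ℝ) 1)
    (hi : Irrational x) {lam : ℝ} (hlam : 0 < lam)
    (h : Tendsto (fun n : ℕ => (N a (Real.exp (-(n : ℝ))) x : ℝ) / n) atTop (𝓝 (2 / lam))) :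
    Tendsto (fun n : ℕ => birkhoffSum (T a) psi n x / n) atTop (𝓝 lam) := by
  set L : ℕ → ℝ := fun k => - Real.log (P a x k) with hL
  have hS : ∀ k, birkhoffSum (T a) psi k x = 2 * L k := by
    intro k
    rw [birkhoffSum_psi hi]
    simp only [hL]
    ring
  have hPexp : ∀ k, P a x k = Real.exp (-(L k)) := fun k => by
    simp only [hL, neg_neg]
    rw [Real.exp_log (P_pos hi k)]
  have hLnn : ∀ k, 0 ≤ L k := fun k => by
    have := Real.log_nonpos (P_nonneg a x k) (P_le_one ha hx k)
    simp only [hL]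
    linarith
  have hLmono : Monotone L := by
    intro i j hij
    have h1 := P_antitone ha hx hij
    have h2 := Real.log_le_log (P_pos hi j) h1
    simp only [hL]
    linarith
  have hLtop : Tendsto L atTop atTop := by
    refine tendsto_atTop_atTop_of_monotone hLmono fun b => ?_
    obtain ⟨k, hk⟩ := exists_P_lt ha hx (Real.exp_pos (-b))
    refine ⟨k, ?_⟩
    rw [hPexp k] at hk
    have := Real.exp_lt_exp.mp hk
    linarith
  set m : ℕ → ℕ := fun k => ⌊L k⌋₊ with hm
  have hmtop : Tendsto m atTop atTop := tendsto_nat_floor_atTop.comp hLtop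
  have hm1 : ∀ k, (m k : ℝ) ≤ L k := fun k => Nat.floor_le (hLnn k)
  have hm2 : ∀ k, L k < m k + 1 := fun k => Nat.lt_floor_add_one (L k)
  set g : ℕ → ℝ := fun n => (N a (Real.exp (-(n : ℝ))) x : ℝ) with hg
  have key1 : ∀ k : ℕ, (k : ℝ) ≤ g (m k + 1) := by
    intro k
    have h1 : k < N a (Real.exp (-((m k + 1 : ℕ) : ℝ))) x := by
      rw [lt_N_iff ha hx (Real.exp_pos _), hPexp k]
      apply Real.exp_le_exp.mpr
      push_cast
      linarith [hm2 k]
    have h2 : (k : ℝ) ≤ (N a (Real.exp (-((m k + 1 : ℕ) : ℝ))) x : ℝ) := by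
      exact_mod_cast h1.le
    exact h2
  have key2 : ∀ k : ℕ, 1 ≤ m k → g (m k - 1) ≤ k := by
    intro k hk
    have h1 : N a (Real.exp (-((m k - 1 : ℕ) : ℝ))) x ≤ k := by
      rw [N_le_iff ha hx (Real.exp_pos _), hPexp k]
      apply Real.exp_lt_exp.mpr
      push_cast [Nat.cast_sub hk]
      linarith [hm1 k]
    have h2 : (N a (Real.exp (-((m k - 1 : ℕ) : ℝ))) x : ℝ) ≤ k := by
      exact_mod_cast h1
    exact h2
  have hc : (2 / lam) ≠ 0 := (div_pos two_pos hlam).ne'
  have hratio : Tendsto (fun n : ℕ => (n : ℝ) / ((n : ℝ) + 1)) atTop (𝓝 1) :=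
    tendsto_natCast_div_add_atTop (1 : ℝ)
  -- g (n+1) / n
  have h1 : Tendsto (fun n : ℕ => g (n + 1) / n) atTop (𝓝 (2 / lam)) := by
    have h3 : Tendsto (fun n : ℕ => g (n + 1) / ((n + 1 : ℕ) : ℝ)) atTop (𝓝 (2 / lam)) :=
      h.comp (tendsto_add_atTop_nat 1)
    have h4 := h3.div hratio one_ne_zero
    rw [div_one] at h4
    refine h4.congr' ?_
    filter_upwards [eventually_gt_atTop 0] with n hn
    have hn' : (0 : ℝ) < n := by exact_mod_cast hn
    simp only [Pi.div_apply]
    push_cast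
    field_simp
  have h2 : Tendsto (fun n : ℕ => g (n - 1) / n) atTop (𝓝 (2 / lam)) := by
    have h3 : Tendsto (fun n : ℕ => g (n - 1) / ((n - 1 : ℕ) : ℝ)) atTop (𝓝 (2 / lam)) :=
      h.comp (tendsto_sub_atTop_nat 1)
    have h4 := h3.mul (hratio.comp (tendsto_sub_atTop_nat 1))
    rw [mul_one] at h4
    refine h4.congr' ?_
    filter_upwards [eventually_gt_atTop 1] with n hn
    have hn' : (1 : ℝ) < n := by exact_mod_cast hn
    simp only [Function.comp]
    push_cast [Nat.cast_sub hn.le]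
    have h5 : (n : ℝ) - 1 ≠ 0 := by linarith
    have h6 : (n : ℝ) ≠ 0 := by linarith
    rw [sub_add_cancel]
    field_simp
  have h3 : Tendsto (fun k : ℕ => (k : ℝ) / m k) atTop (𝓝 (2 / lam)) := by
    refine tendsto_of_tendsto_of_tendsto_of_le_of_le' (h2.comp hmtop) (h1.comp hmtop) ?_ ?_
    · filter_upwards [hmtop.eventually_ge_atTop 1] with k hk
      exact div_le_div_of_nonneg_right (key2 k hk) (Nat.cast_nonneg _)
    · filter_upwards with k
      exact div_le_div_of_nonneg_right (key1 k) (Nat.cast_nonneg _)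
  have h4 : Tendsto (fun k : ℕ => (m k : ℝ) / k) atTop (𝓝 (lam / 2)) := by
    have := h3.inv₀ hc
    rw [inv_div] at this
    simpa only [inv_div] using this
  have h5 : Tendsto (fun k : ℕ => L k / k) atTop (𝓝 (lam / 2)) := by
    have h6 : Tendsto (fun k : ℕ => (m k : ℝ) / k + 1 / (k : ℝ)) atTop (𝓝 (lam / 2 + 0)) :=
      h4.add tendsto_one_div_atTop_nhds_zero_nat
    rw [add_zero] at h6
    refine tendsto_of_tendsto_of_tendsto_of_le_of_le h4 h6 ?_ ?_
    · intro k
      exact div_le_div_of_nonneg_right (hm1 k) (Nat.cast_nonneg _)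
    · intro k
      simp only
      rw [← add_div]
      exact div_le_div_of_nonneg_right (hm2 k).le (Nat.cast_nonneg _)
  have h6 := h5.const_mul 2
  have h7 : 2 * (lam / 2) = lam := by ring
  rw [h7] at h6
  refine h6.congr fun k => ?_
  rw [hS k]
  ring

end TanakaIto
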