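import Pool.Agent.TI.Exist

/-! Tanaka-Ito maps: a uniform lower bound of the upper growth rate of the counting function,
from the renewal bound. -/

open MeasureTheory Filter Topology Set
open scoped ENNReal

namespace TanakaIto

/-- The excess integral is small, uniformly in the parameter. -/
lemma exists_excess_small {C : ℝ} :
    ∃ M : ℕ, 1 ≤ M ∧ ∀ a ∈ Ico (1 / 2 : ℝ) 1,
      ENNReal.ofReal C * ∫⁻ x in Ico (a - 1) a, excess (M:ℝ) x ≤ ENNReal.ofReal (1 / 2) := by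
  have h0 := tendsto_excess 0
  have h1 := tendsto_excess 1
  have h2 : Tendsto (fun M : ℕ => ENNReal.ofReal C *
      ((∫⁻ x in Ico ((0:ℝ) - 1) 0, excess (M:ℝ) x) + ∫⁻ x in Ico ((1:ℝ) - 1) 1, excess (M:ℝ) x))
      atTop (𝓝 (ENNReal.ofReal C * (0 + 0))) :=
    ENNReal.Tendsto.const_mul (h0.add h1) (Or.inr ENNReal.ofReal_ne_top)
  rw [add_zero, mul_zero] at h2
  have h3 : ∀ᶠ M : ℕ in atTop, ENNReal.ofReal C *
      ((∫⁻ x in Ico ((0:ℝ) - 1) 0, excess (M:ℝ) x) + ∫⁻ x in Ico ((1:ℝ) - 1) 1, excess (M:ℝ) x) <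
        ENNReal.ofReal (1 / 2) :=
    h2.eventually (gt_mem_nhds (by rw [ENNReal.ofReal_pos]; norm_num))
  obtain ⟨M, hM, hM1⟩ := (h3.and (eventually_ge_atTop 1)).exists
  refine ⟨M, hM1, fun a ha => le_trans ?_ hM.le⟩
  gcongr
  calc ∫⁻ x in Ico (a - 1) a, excess (M:ℝ) x
      ≤ ∫⁻ x in Ico ((0:ℝ) - 1) 0 ∪ Ico ((1:ℝ) - 1) 1, excess (M:ℝ) x := by
        apply lintegral_mono_set
        intro x hx
        rcases lt_or_ge x 0 with h | h
        · left; exact ⟨by linarith [hx.1, ha.1], h⟩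
        · right; exact ⟨by linarith, by linarith [hx.2, ha.2]⟩
    _ ≤ _ := lintegral_union_le _ _ _

/-- Uniform lower bound of the mean of the counting function. -/
lemma lintegral_N_lower {C : ℝ} (hB : RenewalBound C) {M : ℕ} (hM1 : 1 ≤ M)
    {a : ℝ} (ha : a ∈ Ico (1 / 2 : ℝ) 1)
    (hM : ENNReal.ofReal C * ∫⁻ x in Ico (a - 1) a, excess (M:ℝ) x ≤ ENNReal.ofReal (1 / 2))
    {t : ℕ} (ht : 1 ≤ t) :
    ENNReal.ofReal (1 / (2 * M)) ≤
      ∫⁻ x in Ico (a - 1) a, ENNReal.ofReal ((N a (Real.exp (-(t : ℝ))) x : ℝ) / t) := by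
  have ha' : a ∈ Ioo (0:ℝ) 1 := ⟨by linarith [ha.1], ha.2⟩
  have h := nmeas_lower hB ha ht (M:ℝ)
  have h' := h.trans (add_le_add_right hM _)
  have hhalf : ENNReal.ofReal (1 / 2) ≤ ENNReal.ofReal (M:ℝ) * nmeas a t univ := by
    have e1 : (1 : ℝ≥0∞) = ENNReal.ofReal (1 / 2) + ENNReal.ofReal (1 / 2) := by
      rw [← ENNReal.ofReal_add (by norm_num) (by norm_num)]; norm_num
    rw [e1] at h'
    exact (ENNReal.add_le_add_iff_right ENNReal.ofReal_ne_top).mp h'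
  have hN : nmeas a t univ = (1 + t : ℝ≥0∞)⁻¹ *
      ∫⁻ x in Ico (a - 1) a, (N a (Real.exp (-(t : ℝ))) x : ℝ≥0∞) := by
    have e := lintegral_nmeas a t (f := fun _ => 1) measurable_const
    rw [lintegral_one] at e
    rw [e]
    congr 1
    refine setLIntegral_congr_fun measurableSet_Ico fun x hx => ?_
    rw [rsum_eq ha' (Ico_sub ha' hx) (Real.exp_pos _)]
    simp
  have hM0 : (0:ℝ) < M := by exact_mod_cast hM1
  have ht0 : (0:ℝ) < t := by exact_mod_cast ht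
  have e2 : ∀ x, ENNReal.ofReal ((N a (Real.exp (-(t : ℝ))) x : ℝ) / t) =
      (t : ℝ≥0∞)⁻¹ * (N a (Real.exp (-(t : ℝ))) x : ℝ≥0∞) := by
    intro x
    rw [ENNReal.ofReal_div_of_pos ht0, ENNReal.ofReal_natCast, ENNReal.ofReal_natCast,
      div_eq_mul_inv, mul_comm]
  simp_rw [e2]
  rw [lintegral_const_mul' _ _ (by
    rw [Ne, ENNReal.inv_eq_top]; exact_mod_cast (by omega : t ≠ 0))]
  rw [hN] at hhalf
  have e3 : ENNReal.ofReal (1 / (2 * M)) = (M : ℝ≥0∞)⁻¹ * ENNReal.ofReal (1 / 2) := by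
    have e4 : 1 / (2 * (M:ℝ)) = (M:ℝ)⁻¹ * (1 / 2) := by
      field_simp
    rw [e4, ENNReal.ofReal_mul (by positivity), ENNReal.ofReal_inv_of_pos hM0,
      ENNReal.ofReal_natCast]
  rw [e3]
  have hMne : (M : ℝ≥0∞) ≠ 0 := by exact_mod_cast (by omega : M ≠ 0)
  calc (M : ℝ≥0∞)⁻¹ * ENNReal.ofReal (1 / 2)
      ≤ (M : ℝ≥0∞)⁻¹ * (ENNReal.ofReal (M:ℝ) * ((1 + t : ℝ≥0∞)⁻¹ *
        ∫⁻ x in Ico (a - 1) a, (N a (Real.exp (-(t : ℝ))) x : ℝ≥0∞))) := by gcongr
    _ = ((M : ℝ≥0∞)⁻¹ * M) * ((1 + t : ℝ≥0∞)⁻¹ *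
        ∫⁻ x in Ico (a - 1) a, (N a (Real.exp (-(t : ℝ))) x : ℝ≥0∞)) := by
        rw [ENNReal.ofReal_natCast, mul_assoc]
    _ = (1 + t : ℝ≥0∞)⁻¹ *
        ∫⁻ x in Ico (a - 1) a, (N a (Real.exp (-(t : ℝ))) x : ℝ≥0∞) := by
        rw [ENNReal.inv_mul_cancel hMne (ENNReal.natCast_ne_top M), one_mul]
    _ ≤ _ := by
        gcongr
        exact le_add_self

theorem limsup_lower {C : ℝ} (hC : 0 < C) (hB : RenewalBound C) :
    ∃ c0 : ℝ, 0 < c0 ∧ ∀ a ∈ Ico (1 / 2 : ℝ) 1, ∀ Lp : ℝ,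
      (∀ᵐ x ∂(volume.restrict (Ioo (-1 : ℝ) 1)),
        limsup (fun n : ℕ => (N a (Real.exp (-(n : ℝ))) x : ℝ) / n) atTop = Lp) → c0 ≤ Lp := by
  obtain ⟨M, hM1, hM⟩ := exists_excess_small (C := C)
  have hM0 : (0:ℝ) < M := by exact_mod_cast hM1
  refine ⟨1 / (2 * M), by positivity, fun a ha Lp hL => ?_⟩
  have ha' : a ∈ Ioo (0:ℝ) 1 := ⟨by linarith [ha.1], ha.2⟩
  by_contra hlt
  push Not at hlt
  set c : ℝ := (Lp + 1 / (2 * M)) / 2 with hc
  have hLc : Lp < c := by rw [hc]; linarith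
  have hc0 : c < 1 / (2 * M) := by rw [hc]; linarith
  -- bound
  have hb : ∀ x ∈ Ico (a - 1) a, ∀ n : ℕ, (N a (Real.exp (-(n : ℝ))) x : ℝ) / n ≤ 7 := by
    intro x hx n
    rcases Nat.eq_zero_or_pos n with h | h
    · subst h; simp
    · have hn : (1:ℝ) ≤ n := by exact_mod_cast h
      have h1 := N_le_log ha' (Ico_sub ha' hx) (Real.exp_pos (-(n:ℝ))) (exp_mem n).2
      have hlog : Real.log (1 / Real.exp (-(n:ℝ))) = n := by
        rw [one_div, ← Real.exp_neg, neg_neg, Real.log_exp]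
      rw [hlog] at h1
      rw [div_le_iff₀ (by linarith)]
      linarith
  have hmeas : ∀ n : ℕ, Measurable fun x =>
      ENNReal.ofReal ((N a (Real.exp (-(n : ℝ))) x : ℝ) / n) := by
    intro n
    apply Measurable.ennreal_ofReal
    exact ((measurable_from_top (f := fun m : ℕ => (m : ℝ))).comp (measurable_N a _)).div_const _
  have hF := limsup_lintegral_le (μ := volume.restrict (Ico (a - 1) a))
    (f := fun n x => ENNReal.ofReal ((N a (Real.exp (-(n : ℝ))) x : ℝ) / n))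
    (fun _ => ENNReal.ofReal 7) hmeas
    (fun n => by
      filter_upwards [ae_restrict_mem measurableSet_Ico] with x hx
      exact ENNReal.ofReal_le_ofReal (hb x hx n))
    (by rw [setLIntegral_const, volume_I, mul_one]; exact ENNReal.ofReal_ne_top)
  have hlow : ENNReal.ofReal (1 / (2 * M)) ≤ limsup (fun n : ℕ => ∫⁻ x in Ico (a - 1) a,
      ENNReal.ofReal ((N a (Real.exp (-(n : ℝ))) x : ℝ) / n)) atTop := by
    refine le_limsup_of_frequently_le (Eventually.frequently ?_)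
      (isBoundedUnder_of ⟨⊤, fun _ => le_top⟩)
    filter_upwards [eventually_ge_atTop 1] with n hn
    exact lintegral_N_lower hB hM1 ha (hM a ha) hn
  have hup : ∫⁻ x in Ico (a - 1) a, limsup (fun n : ℕ =>
      ENNReal.ofReal ((N a (Real.exp (-(n : ℝ))) x : ℝ) / n)) atTop ≤ ENNReal.ofReal c := by
    have hsub : Ico (a - 1) a ⊆ Ioo (-1 : ℝ) 1 := fun x hx => Ico_sub ha' hx
    have hL' := ae_restrict_of_ae_restrict_of_subset hsub hL
    calc _ ≤ ∫⁻ _x in Ico (a - 1) a, ENNReal.ofReal c := by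
          apply lintegral_mono_ae
          filter_upwards [hL', ae_restrict_mem measurableSet_Ico] with x hx hxI
          apply limsup_le_of_le
          · exact isCoboundedUnder_le_of_le _ (fun _ => bot_le)
          · have hbdd : IsBoundedUnder (· ≤ ·) atTop
                (fun n : ℕ => (N a (Real.exp (-(n : ℝ))) x : ℝ) / n) :=
              isBoundedUnder_of ⟨7, hb x hxI⟩
            have hev := eventually_lt_of_limsup_lt (hx.trans_lt hLc) hbdd
            filter_upwards [hev] with n hn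
            exact ENNReal.ofReal_le_ofReal hn.le
      _ = ENNReal.ofReal c := by rw [setLIntegral_const, volume_I, mul_one]
  have hfin := (hlow.trans hF).trans hup
  rw [ENNReal.ofReal_le_ofReal_iff'] at hfin
  rcases hfin with h | h
  · linarith
  · have : (0:ℝ) < 1 / (2 * M) := by positivity
    linarith

end TanakaIto
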