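import Pool.Agent.TI.Basic

/-! Tanaka-Ito continued fraction maps: the mirror symmetry x to -x. -/

open MeasureTheory Filter Topology Set
open scoped ENNReal

namespace TanakaIto

lemma mirror_T {a x : ℝ} (h : ∀ m : ℤ, x ≠ 1 / ((m : ℝ) + a)) :
    T (1 - a) (-x) = - T a x := by
  by_cases hx : x = 0
  · subst hx
    simp [T_zero]
  have hx' : -x ≠ 0 := neg_ne_zero.mpr hx
  rw [T_of_ne hx, T_of_ne hx', dig, dig]
  set v : ℝ := 1 / x - a with hv
  have h1 : 1 / -x + 1 - (1 - a) = -v := by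
    rw [hv, one_div_neg_eq_neg_one_div]; ring
  have h2 : 1 / x + 1 - a = v + 1 := by rw [hv]; ring
  rw [h1, h2, Int.floor_add_one]
  have hv0 : ∀ m : ℤ, v ≠ m := by
    intro m hm
    refine h m ?_
    have h3 : 1 / x = (m : ℝ) + a := by rw [← hm, hv]; ring
    rw [← h3, one_div_one_div]
  have h4 : ⌊-v⌋ = -⌊v⌋ - 1 := by
    rw [Int.floor_eq_iff]
    have e1 := Int.floor_le v
    have e2 := Int.lt_floor_add_one v
    have e3 : (⌊v⌋ : ℝ) ≠ v := fun h => hv0 _ h.symm
    have e4 : (⌊v⌋ : ℝ) < v := lt_of_le_of_ne e1 e3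
    push_cast
    constructor <;> linarith
  rw [h4, one_div_neg_eq_neg_one_div]
  push_cast
  ring

lemma mirror_ae {a : ℝ} {μ : Measure ℝ} (hac : μ ≪ volume) :
    ∀ᵐ x ∂μ, ∀ m : ℤ, x ≠ 1 / ((m : ℝ) + a) := by
  have h : ∀ᵐ x ∂(volume : Measure ℝ), ∀ m : ℤ, x ≠ 1 / ((m : ℝ) + a) := by
    rw [ae_all_iff]
    intro m
    exact (measure_eq_zero_iff_ae_notMem.mp (measure_singleton (1 / ((m : ℝ) + a)))).mono
      fun x hx => by simpa using hx
  exact hac.ae_le h

lemma mirror_T_ae {a : ℝ} {μ : Measure ℝ} (hμ : IsAcip a μ) :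
    (fun x => T (1 - a) (-x)) =ᵐ[μ] fun x => - T a x :=
  (mirror_ae (a := a) hμ.ac).mono fun _ hx => mirror_T hx

lemma mirror_iter_ae {a : ℝ} {μ : Measure ℝ} (hμ : IsAcip a μ) :
    ∀ᵐ x ∂μ, ∀ n : ℕ, (T (1 - a))^[n] (-x) = - (T a)^[n] x := by
  have h : ∀ᵐ x ∂μ, ∀ n : ℕ, ∀ m : ℤ, (T a)^[n] x ≠ 1 / ((m : ℝ) + a) := by
    rw [ae_all_iff]
    intro n
    exact (hμ.inv.iterate n).quasiMeasurePreserving.ae (mirror_ae (a := a) hμ.ac)
  filter_upwards [h] with x hx n
  induction n with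
  | zero => rfl
  | succ n ih =>
    rw [Function.iterate_succ_apply', Function.iterate_succ_apply', ih, mirror_T (hx n)]

theorem IsAcip.mirror {a : ℝ} (ha : a ∈ Ioo (0 : ℝ) 1) {μ : Measure ℝ} (hμ : IsAcip a μ) :
    IsAcip (1 - a) (μ.map (fun x => -x)) := by
  have hm : Measurable (fun x : ℝ => -x) := measurable_neg
  refine ⟨?_, ?_, ?_, ?_⟩
  · have := hμ.prob
    exact Measure.isProbabilityMeasure_map hm.aemeasurable
  · rw [Measure.map_apply hm measurableSet_Icc.compl]
    convert hμ.supp using 2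
    ext x
    simp only [mem_preimage, mem_compl_iff, mem_Icc, not_iff_not]
    constructor
    · rintro ⟨h1, h2⟩; constructor <;> linarith
    · rintro ⟨h1, h2⟩; constructor <;> linarith
  · have h := hμ.ac.map hm
    have h2 : Measure.map (fun x : ℝ => -x) volume = volume := Measure.map_neg_eq_self volume
    rwa [h2] at h
  · refine ⟨measurable_T _, ?_⟩
    rw [Measure.map_map (measurable_T _) hm]
    have h1 : Measure.map (T (1 - a) ∘ fun x => -x) μ =
        Measure.map ((fun x => -x) ∘ T a) μ := Measure.map_congr (mirror_T_ae hμ)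
    rw [h1, ← Measure.map_map hm (measurable_T _), hμ.inv.map_eq]

lemma mirror_rate {a : ℝ} {μ : Measure ℝ} (hμ : IsAcip a μ) {k : ℕ} (η : ℝ → Fin k) :
    entropyRate (μ.map (fun x => -x)) (T (1 - a)) η =
      entropyRate μ (T a) (fun x => η (-x)) := by
  unfold entropyRate
  congr 1
  funext n
  have h : partEntropy (μ.map (fun x => -x)) (itin (T (1 - a)) η n) =
      partEntropy μ (itin (T a) (fun x => η (-x)) n) := by
    unfold partEntropy
    refine Finset.sum_congr rfl fun w _ => ?_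
    congr 1
    have h1 : (μ.map (fun x => -x)) (itin (T (1 - a)) η n ⁻¹' {w}) =
        μ ((fun x => -x) ⁻¹' (itin (T (1 - a)) η n ⁻¹' {w})) :=
      (MeasurableEquiv.neg ℝ).map_apply _
    have h2 : μ ((fun x => -x) ⁻¹' (itin (T (1 - a)) η n ⁻¹' {w})) =
        μ (itin (T a) (fun x => η (-x)) n ⁻¹' {w}) := by
      apply measure_congr
      filter_upwards [mirror_iter_ae hμ] with x hx
      have h3 : itin (T (1 - a)) η n (-x) = itin (T a) (fun x => η (-x)) n x := by
        funext i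
        simp only [itin]
        rw [hx]
      apply propext
      change itin (T (1 - a)) η n (-x) ∈ ({w} : Set (Fin n → Fin k)) ↔
        itin (T a) (fun x => η (-x)) n x ∈ ({w} : Set (Fin n → Fin k))
      rw [h3]
    rw [Measure.real, Measure.real, h1, h2]
  rw [h]

theorem ksEntropy_mirror {a : ℝ} (ha : a ∈ Ioo (0 : ℝ) 1) {μ : Measure ℝ} (hμ : IsAcip a μ) :
    ksEntropy (μ.map (fun x => -x)) (T (1 - a)) = ksEntropy μ (T a) := by
  unfold ksEntropy
  apply le_antisymm
  · refine iSup_le fun k => iSup_le fun η => iSup_le fun hη => ?_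
    rw [mirror_rate hμ η]
    exact le_iSup_of_le k (le_iSup_of_le (fun x => η (-x))
      (le_iSup_of_le (hη.comp measurable_neg) le_rfl))
  · refine iSup_le fun k => iSup_le fun η => iSup_le fun hη => ?_
    have h := mirror_rate hμ (fun x => η (-x))
    simp only [neg_neg] at h
    rw [← h]
    exact le_iSup_of_le k (le_iSup_of_le (fun x => η (-x))
      (le_iSup_of_le (hη.comp measurable_neg) le_rfl))

end TanakaIto
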