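import Pool.Agent.TI.LowerEnt

/-! Lower bound of the Kolmogorov-Sinai entropy. -/

open MeasureTheory Filter Topology Set
open scoped ENNReal

namespace TanakaIto

namespace Lower

/-- The word of the first n digits. -/
noncomputable def word (a : ℝ) (n : ℕ) (x : ℝ) : Fin n → ℤ := fun i => dig a ((T a)^[i] x)

/-- The cylinder of a word. -/
def cyl (a : ℝ) (n : ℕ) (w : Fin n → ℤ) : Set ℝ := {x | x ∈ Ico (a - 1) a ∧ word a n x = w}

lemma measurable_word (a : ℝ) (n : ℕ) : Measurable (word a n) :=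
  measurable_pi_lambda _ (fun i => (measurable_dig a).comp ((measurable_T a).iterate i))

lemma measurableSet_cyl (a : ℝ) (n : ℕ) (w : Fin n → ℤ) : MeasurableSet (cyl a n w) :=
  measurableSet_Ico.inter ((measurable_word a n) (measurableSet_singleton w))

lemma ae_irrational {a : ℝ} {μ : Measure ℝ} (hμ : IsAcip a μ) : ∀ᵐ x ∂μ, Irrational x := by
  refine hμ.ac.ae_le ?_
  rw [mem_ae_iff]
  have h : {x : ℝ | Irrational x}ᶜ = range ((↑) : ℚ → ℝ) := by
    ext x
    simp [Irrational]
  rw [h]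
  exact (countable_range _).measure_zero _

lemma ae_mem_Ico {a : ℝ} {μ : Measure ℝ} (hμ : IsAcip a μ) : ∀ᵐ x ∂μ, x ∈ Ico (a - 1) a := by
  have h1 : ∀ᵐ x ∂μ, x ∈ Icc (a - 1) a := by
    rw [ae_iff]
    exact hμ.supp
  have h2 : ∀ᵐ x ∂μ, x ≠ a := by
    rw [ae_iff]
    simp only [ne_eq, not_not]
    exact hμ.ac (by simp)
  filter_upwards [h1, h2] with x hx1 hx2
  exact ⟨hx1.1, lt_of_le_of_ne hx1.2 hx2⟩

/-- Length of a cylinder. -/
lemma volume_cyl_le (hC : Comparable) {a : ℝ} (ha : a ∈ Ico (1 / 2 : ℝ) 1) {x : ℝ}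
    (hx : x ∈ Ico (a - 1) a) (hi : Irrational x) (n : ℕ) :
    volume (cyl a n (word a n x)) ≤ ENNReal.ofReal (10 * P a x n ^ 2) := by
  have ha' : a ∈ Ioo (0 : ℝ) 1 := ⟨by linarith [ha.1], ha.2⟩
  have hsub : cyl a n (word a n x) ⊆
      range ((↑) : ℚ → ℝ) ∪ Metric.closedBall x (5 * P a x n ^ 2) := by
    rintro x' ⟨hx', hw⟩
    by_cases hi' : Irrational x'
    · right
      have hd : ∀ i < n, dig a ((T a)^[i] x) = dig a ((T a)^[i] x') := by
        intro i hi
        have := congrFun hw ⟨i, hi⟩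
        exact this.symm
      have h1 := abs_sub_eq hi hi' n hd
      have h2 := hC a ha x hx x' hx' hi hi' n hd
      have h3 := iter_mem_Ico ha' hx n
      have h4 := iter_mem_Ico ha' hx' n
      have h5 : |(T a)^[n] x - (T a)^[n] x'| ≤ 1 := by
        rw [abs_le]
        constructor <;> linarith [h3.1, h3.2, h4.1, h4.2]
      rw [Metric.mem_closedBall, dist_comm, Real.dist_eq, h1]
      have h6 := P_nonneg a x n
      have h7 := P_nonneg a x' n
      calc P a x n * P a x' n * |(T a)^[n] x - (T a)^[n] x'| ≤ P a x n * P a x' n * 1 :=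
            mul_le_mul_of_nonneg_left h5 (mul_nonneg h6 h7)
        _ ≤ P a x n * (5 * P a x n) * 1 := by
            rw [mul_one, mul_one]
            exact mul_le_mul_of_nonneg_left h2 h6
        _ = 5 * P a x n ^ 2 := by ring
    · left
      rw [Irrational, not_not] at hi'
      exact hi'
  refine (measure_mono hsub).trans ((measure_union_le _ _).trans ?_)
  rw [(countable_range _).measure_zero, zero_add, Real.volume_closedBall]
  refine le_of_eq ?_
  congr 1
  ring

/-- The part of psi at the points with large digits. -/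
noncomputable def hL (a : ℝ) (L : ℕ) (y : ℝ) : ℝ := if |dig a y| ≤ L then 0 else psi y

lemma measurable_hL (a : ℝ) (L : ℕ) : Measurable (hL a L) := by
  refine Measurable.ite ?_ measurable_const measurable_psi
  exact (measurable_dig a) (MeasurableSet.of_discrete (s := {m : ℤ | |m| ≤ L}))

lemma hL_nonneg {a : ℝ} {L : ℕ} {y : ℝ} (hy : y ∈ Icc (-1 : ℝ) 1) : 0 ≤ hL a L y := by
  rw [hL]
  split_ifs
  · exact le_rfl
  · exact psi_nonneg hy

lemma dig_bound {a : ℝ} (ha : a ∈ Ico (1 / 2 : ℝ) 1) {L : ℕ} (hL2 : 2 ≤ L) {y : ℝ}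
    (hd : ¬ |dig a y| ≤ L) : y ≠ 0 ∧ |(dig a y : ℝ)| ≤ (y ^ 2)⁻¹ := by
  have hy : y ≠ 0 := by
    rintro rfl
    apply hd
    have : dig a 0 = 0 := by
      rw [dig, Int.floor_eq_iff]
      constructor
      · simp; linarith [ha.2]
      · simp; linarith [ha.1]
    rw [this]
    simp
  refine ⟨hy, ?_⟩
  have h1 := Int.floor_le (1 / y + 1 - a)
  have h2 := Int.lt_floor_add_one (1 / y + 1 - a)
  rw [← dig] at h1 h2
  push Not at hd
  have hd3 : (3 : ℝ) ≤ |(dig a y : ℝ)| := by
    have : (3 : ℤ) ≤ |dig a y| := by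
      have : (2 : ℤ) ≤ L := by exact_mod_cast hL2
      omega
    exact_mod_cast this
  have h3 : |(dig a y : ℝ)| ≤ |1 / y| + 1 := by
    have h4 : |(dig a y : ℝ) - 1 / y| ≤ 1 := by
      rw [abs_le]
      constructor <;> linarith [ha.1, ha.2]
    have h5 : |(dig a y : ℝ)| ≤ |(dig a y : ℝ) - 1 / y| + |1 / y| := by
      have := abs_add_le ((dig a y : ℝ) - 1 / y) (1 / y)
      simpa using this
    linarith
  have h4 : (2 : ℝ) ≤ |1 / y| := by linarith
  have h5 : (y ^ 2)⁻¹ = |1 / y| ^ 2 := by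
    rw [sq_abs, one_div, inv_pow]
  rw [h5]
  nlinarith

lemma exp_psi {y : ℝ} (hy : y ≠ 0) : Real.exp (psi y) = (y ^ 2)⁻¹ := by
  have h : 0 < |y| := abs_pos.2 hy
  rw [psi]
  have : -2 * Real.log |y| = Real.log ((y ^ 2)⁻¹) := by
    rw [Real.log_inv, Real.log_pow, Real.log_abs]
    push_cast
    ring
  rw [this, Real.exp_log (by positivity)]

/-- Large digits are controlled by hL. -/
lemma dig_le_exp {a : ℝ} (ha : a ∈ Ico (1 / 2 : ℝ) 1) {L : ℕ} (hL2 : 2 ≤ L) (y : ℝ) :
    |(dig a y : ℝ)| ≤ L + Real.exp (hL a L y) ∧ Real.exp (-2 * hL a L y) ≤ wt L (dig a y) := by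
  by_cases hd : |dig a y| ≤ L
  · rw [hL, if_pos hd, wt, if_pos hd]
    have : |(dig a y : ℝ)| ≤ L := by exact_mod_cast hd
    have h1 : (0 : ℝ) < Real.exp 0 := Real.exp_pos _
    constructor
    · linarith
    · simp
  · obtain ⟨hy, h1⟩ := dig_bound ha hL2 hd
    rw [hL, if_neg hd, wt, if_neg hd]
    have h2 := exp_psi hy
    constructor
    · rw [h2]
      have : (0 : ℝ) ≤ L := by positivity
      linarith
    · have h3 : Real.exp (-2 * psi y) = (Real.exp (psi y) ^ 2)⁻¹ := by
        rw [← Real.exp_nat_mul, ← Real.exp_neg]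
        congr 1
        push_cast
        ring
      rw [h3, h2]
      have hne : (dig a y : ℝ) ≠ 0 := by
        intro h0
        apply hd
        have : dig a y = 0 := by exact_mod_cast h0
        rw [this]
        simp
      have h4 : (dig a y : ℝ) ^ 2 ≤ ((y ^ 2)⁻¹) ^ 2 := by
        rw [← sq_abs]
        exact pow_le_pow_left₀ (abs_nonneg _) h1 2
      exact inv_anti₀ (by positivity) h4

/-- The good set. -/
def good (a : ℝ) (μ : Measure ℝ) (L : ℕ) (ε lam : ℝ) (n : ℕ) : Set ℝ :=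
  {x | x ∈ Ico (a - 1) a ∧ Irrational x ∧ P a x n ^ 2 ≤ Real.exp (-((lam - ε) * n)) ∧
    birkhoffSum (T a) (hL a L) n x ≤ ε * n ∧
    μ (cyl a n (word a n x)) ≤
      ENNReal.ofReal (Real.exp (ε * n)) * volume (cyl a n (word a n x))}

lemma measurable_itin (a : ℝ) (L n : ℕ) (e : Fin n → Fin (2 * L + 2)) :
    MeasurableSet (itin (T a) (fun x => lab L (dig a x)) n ⁻¹' {e}) := by
  have : Measurable (itin (T a) (fun x => lab L (dig a x)) n) := by
    refine measurable_pi_lambda _ (fun i => ?_)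
    exact (Measurable.of_discrete (f := lab L)).comp
      ((measurable_dig a).comp ((measurable_T a).iterate i))
  exact this (measurableSet_singleton e)

lemma cell_le (hC : Comparable) {a : ℝ} (ha : a ∈ Ico (1 / 2 : ℝ) 1) {μ : Measure ℝ}
    (hμ : IsAcip a μ) {L : ℕ} (hL2 : 2 ≤ L) {ε lam : ℝ} (n : ℕ) (e : Fin n → Fin (2 * L + 2)) :
    μ.real (itin (T a) (fun x => lab L (dig a x)) n ⁻¹' {e} ∩ good a μ L ε lam n) ≤
      Real.exp (-((lam - 4 * ε) * n - Real.log 10)) := by
  classical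
  have ha' : a ∈ Ioo (0 : ℝ) 1 := ⟨by linarith [ha.1], ha.2⟩
  have := hμ.prob
  set M : ℕ := L + ⌈Real.exp (ε * n)⌉₊ with hM
  have hmem : ∀ x ∈ good a μ L ε lam n, ∀ i : Fin n, 0 ≤ hL a L ((T a)^[i] x) ∧
      hL a L ((T a)^[i] x) ≤ ε * n := by
    rintro x ⟨hx, -, -, hb, -⟩ i
    have h0 : ∀ j, 0 ≤ hL a L ((T a)^[j] x) := fun j => hL_nonneg (by
      have := iter_mem_Ico ha' hx j
      exact ⟨by linarith [this.1, ha'.1], by linarith [this.2, ha'.2]⟩)
    refine ⟨h0 i, le_trans ?_ hb⟩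
    rw [birkhoffSum]
    exact Finset.single_le_sum (f := fun j => hL a L ((T a)^[j] x)) (fun j _ => h0 j)
      (Finset.mem_range.2 i.2)
  set W : Finset (Fin n → ℤ) := (Fintype.piFinset (fun i : Fin n =>
      (Finset.Icc (-(M : ℤ)) M).filter (fun m => lab L m = e i))).filter
      (fun w => ∃ x ∈ good a μ L ε lam n, word a n x = w) with hW
  have hcard : (W.card : ℝ) * Real.exp (-(2 * ε * n)) ≤ 1 := by
    refine card_words hL2 M n e W (fun w hw => ?_)
    rw [hW, Finset.mem_filter, Fintype.mem_piFinset] at hw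
    refine ⟨fun i => Finset.mem_filter.1 (hw.1 i), ?_⟩
    obtain ⟨x, hx, rfl⟩ := hw.2
    have h1 : ∏ i : Fin n, Real.exp (-2 * hL a L ((T a)^[i] x)) ≤ ∏ i, wt L (word a n x i) :=
      Finset.prod_le_prod (fun _ _ => (Real.exp_pos _).le) (fun i _ => (dig_le_exp ha hL2 _).2)
    refine le_trans ?_ h1
    rw [← Real.exp_sum, Real.exp_le_exp, ← Finset.mul_sum,
      Fin.sum_univ_eq_sum_range (fun j => hL a L ((T a)^[j] x))]
    have h2 := hx.2.2.2.1
    rw [birkhoffSum] at h2
    linarith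
  have hsub : itin (T a) (fun x => lab L (dig a x)) n ⁻¹' {e} ∩ good a μ L ε lam n ⊆
      ⋃ w ∈ W, cyl a n w := by
    rintro x ⟨hx1, hx2⟩
    rw [mem_iUnion₂]
    refine ⟨word a n x, ?_, hx2.1, rfl⟩
    rw [hW, Finset.mem_filter, Fintype.mem_piFinset]
    refine ⟨fun i => ?_, x, hx2, rfl⟩
    rw [Finset.mem_filter, Finset.mem_Icc]
    constructor
    · have h1 := (dig_le_exp ha hL2 ((T a)^[i] x)).1
      have h2 : Real.exp (hL a L ((T a)^[i] x)) ≤ ⌈Real.exp (ε * n)⌉₊ :=
        (Real.exp_le_exp.2 (hmem x hx2 i).2).trans (Nat.le_ceil _)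
      have h3 : |((dig a ((T a)^[i] x) : ℤ) : ℝ)| ≤ ((M : ℤ) : ℝ) := by
        rw [hM]
        push_cast
        linarith
      have h4 : |dig a ((T a)^[i] x)| ≤ (M : ℤ) := by exact_mod_cast h3
      exact abs_le.1 h4
    · exact congrFun hx1 i
  have hone : ∀ w ∈ W, μ (cyl a n w) ≤
      ENNReal.ofReal (Real.exp (ε * n) * (10 * Real.exp (-((lam - ε) * n)))) := by
    intro w hw
    rw [hW, Finset.mem_filter] at hw
    obtain ⟨-, x, ⟨hx, hi, hP, -, hc⟩, rfl⟩ := hw
    refine hc.trans ?_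
    rw [ENNReal.ofReal_mul (Real.exp_pos _).le]
    gcongr
    refine (volume_cyl_le hC ha hx hi n).trans (ENNReal.ofReal_le_ofReal ?_)
    linarith
  have h1 : μ (itin (T a) (fun x => lab L (dig a x)) n ⁻¹' {e} ∩ good a μ L ε lam n) ≤
      ENNReal.ofReal (W.card * (Real.exp (ε * n) * (10 * Real.exp (-((lam - ε) * n))))) := by
    refine (measure_mono hsub).trans ((measure_biUnion_finset_le _ _).trans ?_)
    refine (Finset.sum_le_card_nsmul _ _ _ hone).trans (le_of_eq ?_)
    rw [nsmul_eq_mul, ENNReal.ofReal_mul (show (0 : ℝ) ≤ (W.card : ℝ) by positivity),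
      ENNReal.ofReal_natCast]
  have h2 : μ.real (itin (T a) (fun x => lab L (dig a x)) n ⁻¹' {e} ∩ good a μ L ε lam n) ≤
      W.card * (Real.exp (ε * n) * (10 * Real.exp (-((lam - ε) * n)))) := by
    rw [measureReal_def]
    exact ENNReal.toReal_le_of_le_ofReal (by positivity) h1
  refine h2.trans ?_
  have h3 : (W.card : ℝ) ≤ Real.exp (2 * ε * n) := by
    rw [Real.exp_neg] at hcard
    have h4 : 0 < Real.exp (2 * ε * n) := Real.exp_pos _
    have h5 := mul_le_mul_of_nonneg_right hcard h4.le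
    rwa [mul_assoc, inv_mul_cancel₀ h4.ne', mul_one, one_mul] at h5
  calc (W.card : ℝ) * (Real.exp (ε * n) * (10 * Real.exp (-((lam - ε) * n)))) ≤
        Real.exp (2 * ε * n) * (Real.exp (ε * n) * (10 * Real.exp (-((lam - ε) * n)))) :=
        mul_le_mul_of_nonneg_right h3 (by positivity)
    _ = Real.exp (2 * ε * n) * (Real.exp (ε * n) * (Real.exp (Real.log 10) *
          Real.exp (-((lam - ε) * n)))) := by rw [Real.exp_log (by norm_num)]
    _ = Real.exp (-((lam - 4 * ε) * n - Real.log 10)) := by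
        rw [← Real.exp_add, ← Real.exp_add, ← Real.exp_add]
        congr 1
        ring

/-! ### the good set is large -/

/-- The cylinders that are much larger for μ than for the length. -/
def badC (a : ℝ) (μ : Measure ℝ) (ε : ℝ) (n : ℕ) : Set ℝ :=
  ⋃ w ∈ {w : Fin n → ℤ | ENNReal.ofReal (Real.exp (ε * n)) * volume (cyl a n w) <
    μ (cyl a n w)}, cyl a n w

lemma volume_badC_le {a : ℝ} {μ : Measure ℝ} [IsProbabilityMeasure μ] {ε : ℝ} (n : ℕ) :
    volume (badC a μ ε n) ≤ ENNReal.ofReal (Real.exp (-(ε * n))) := by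
  have hcnt : {w : Fin n → ℤ | ENNReal.ofReal (Real.exp (ε * n)) * volume (cyl a n w) <
    μ (cyl a n w)}.Countable := to_countable _
  rw [badC, biUnion_eq_iUnion]
  refine (measure_iUnion_le _).trans ?_
  have h1 : ∀ w : {w : Fin n → ℤ | ENNReal.ofReal (Real.exp (ε * n)) * volume (cyl a n w) <
      μ (cyl a n w)}, volume (cyl a n w) ≤
      ENNReal.ofReal (Real.exp (-(ε * n))) * μ (cyl a n w) := by
    rintro ⟨w, hw⟩
    rw [mem_ofPred_eq] at hw
    have h2 : ENNReal.ofReal (Real.exp (-(ε * n))) *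
        (ENNReal.ofReal (Real.exp (ε * n)) * volume (cyl a n w)) = volume (cyl a n w) := by
      rw [← mul_assoc, ← ENNReal.ofReal_mul (Real.exp_pos _).le, ← Real.exp_add]
      simp
    calc volume (cyl a n w) = ENNReal.ofReal (Real.exp (-(ε * n))) *
        (ENNReal.ofReal (Real.exp (ε * n)) * volume (cyl a n w)) := h2.symm
      _ ≤ ENNReal.ofReal (Real.exp (-(ε * n))) * μ (cyl a n w) := by gcongr
  refine (ENNReal.tsum_le_tsum h1).trans ?_
  rw [ENNReal.tsum_mul_left, ← measure_iUnion]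
  · calc ENNReal.ofReal (Real.exp (-(ε * n))) * μ _ ≤
          ENNReal.ofReal (Real.exp (-(ε * n))) * 1 := by
          gcongr
          exact prob_le_one
      _ = ENNReal.ofReal (Real.exp (-(ε * n))) := mul_one _
  · intro w w' hww
    rw [Function.onFun, Set.disjoint_left]
    rintro x ⟨-, h3⟩ ⟨-, h4⟩
    exact hww (Subtype.ext (h3.symm.trans h4))
  · exact fun w => measurableSet_cyl a n w

lemma tendsto_badC {a : ℝ} {μ : Measure ℝ} (hμ : IsAcip a μ) {ε : ℝ} (hε : 0 < ε) :
    Tendsto (fun n => μ (badC a μ ε n)) atTop (𝓝 0) := by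
  have := hμ.prob
  have h1 : Tendsto (volume ∘ badC a μ ε) atTop (𝓝 0) := by
    refine tendsto_of_tendsto_of_tendsto_of_le_of_le tendsto_const_nhds ?_
      (fun _ => bot_le) (fun n => volume_badC_le n)
    rw [← ENNReal.ofReal_zero]
    refine ENNReal.tendsto_ofReal ?_
    refine Real.tendsto_exp_atBot.comp ?_
    refine tendsto_neg_atTop_atBot.comp ?_
    exact tendsto_natCast_atTop_atTop.const_mul_atTop hε
  have h2 := tendsto_setLIntegral_zero (μ := volume) (f := μ.rnDeriv volume)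
    (Measure.lintegral_rnDeriv_lt_top μ volume).ne h1
  refine h2.congr (fun n => ?_)
  exact Measure.setLIntegral_rnDeriv hμ.ac _

lemma integral_birkhoffSum {μ : Measure ℝ} {S : ℝ → ℝ} (hS : MeasurePreserving S μ μ)
    {f : ℝ → ℝ} (hf : Integrable f μ) (n : ℕ) :
    Integrable (birkhoffSum S f n) μ ∧ ∫ x, birkhoffSum S f n x ∂μ = n * ∫ x, f x ∂μ := by
  have h1 : ∀ i, Integrable (fun x => f (S^[i] x)) μ := fun i =>
    (hS.iterate i).integrable_comp_of_integrable hf
  have h2 : ∀ i, ∫ x, f (S^[i] x) ∂μ = ∫ x, f x ∂μ := by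
    intro i
    have h3 := (hS.iterate i).map_eq
    have h4 : AEStronglyMeasurable f (Measure.map (S^[i]) μ) := by
      rw [h3]; exact hf.aestronglyMeasurable
    rw [← integral_map (hS.iterate i).measurable.aemeasurable h4, h3]
  constructor
  · unfold birkhoffSum
    exact integrable_finsetSum _ (fun i _ => h1 i)
  · unfold birkhoffSum
    rw [integral_finsetSum _ (fun i _ => h1 i)]
    simp [h2]

lemma good_ge {a : ℝ} (ha : a ∈ Ico (1 / 2 : ℝ) 1) {μ : Measure ℝ} (hμ : IsAcip a μ)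
    {lam : ℝ} (hint : Integrable psi μ)
    (hlim : ∀ᵐ x ∂μ, Tendsto (fun n : ℕ => birkhoffSum (T a) psi n x / n) atTop (𝓝 lam))
    {L : ℕ} {ε : ℝ} (hε : 0 < ε) (hsmall : ∫ x, hL a L x ∂μ ≤ ε ^ 2) :
    ∀ᶠ n in atTop, 1 - 3 * ε ≤ μ.real (good a μ L ε lam n) := by
  have ha' : a ∈ Ioo (0 : ℝ) 1 := ⟨by linarith [ha.1], ha.2⟩
  have := hμ.prob
  have hmeas : ∀ n : ℕ, Measurable (fun x => birkhoffSum (T a) psi n x / n) := by
    intro n
    unfold birkhoffSum
    exact (Finset.measurable_sum _ (fun i _ =>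
      measurable_psi.comp ((measurable_T a).iterate i))).div_const _
  have hA : Tendsto (fun n : ℕ => μ {x | ε ≤ dist (birkhoffSum (T a) psi n x / n) lam}) atTop
      (𝓝 0) := by
    have h1 := tendstoInMeasure_of_tendsto_ae (fun n => (hmeas n).aestronglyMeasurable) hlim
    rw [tendstoInMeasure_iff_dist] at h1
    exact h1 ε hε
  have hB := tendsto_badC hμ hε
  have hε0 : (0 : ℝ≥0∞) < ENNReal.ofReal ε := ENNReal.ofReal_pos.2 hε
  have hA' := hA.eventually (gt_mem_nhds hε0)
  have hB' := hB.eventually (gt_mem_nhds hε0)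
  filter_upwards [hA', hB', eventually_ge_atTop 1] with n h1 h2 hn
  have hn0 : (0 : ℝ) < n := by exact_mod_cast hn
  -- the set where the sum over large digits is large
  have hLint : Integrable (hL a L) μ := by
    refine hint.mono (measurable_hL a L).aestronglyMeasurable (Eventually.of_forall fun x => ?_)
    rw [hL]
    split_ifs
    · simp
    · exact le_rfl
  have h3 : μ.real {x | ε * n ≤ birkhoffSum (T a) (hL a L) n x} ≤ ε := by
    obtain ⟨h4, h5⟩ := integral_birkhoffSum hμ.inv hLint n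
    have h6 : 0 ≤ᵐ[μ] birkhoffSum (T a) (hL a L) n := by
      filter_upwards [ae_mem_Ico hμ] with x hx
      refine Finset.sum_nonneg (fun j _ => hL_nonneg ?_)
      have := iter_mem_Ico ha' hx j
      exact ⟨by linarith [this.1, ha'.1], by linarith [this.2, ha'.2]⟩
    have h7 := mul_meas_ge_le_integral_of_nonneg h6 h4 (ε * n)
    rw [h5] at h7
    have h8 : ε * n * μ.real {x | ε * n ≤ birkhoffSum (T a) (hL a L) n x} ≤ ε * n * ε := by
      refine h7.trans ?_
      calc (n : ℝ) * ∫ x, hL a L x ∂μ ≤ n * ε ^ 2 := mul_le_mul_of_nonneg_left hsmall hn0.le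
        _ = ε * n * ε := by ring
    exact le_of_mul_le_mul_left h8 (by positivity)
  have hcover : (univ : Set ℝ) ⊆ good a μ L ε lam n ∪
      ({x | ε ≤ dist (birkhoffSum (T a) psi n x / n) lam} ∪
      ({x | ε * n ≤ birkhoffSum (T a) (hL a L) n x} ∪
      (badC a μ ε n ∪ ({x | x ∈ Ico (a - 1) a}ᶜ ∪ {x | Irrational x}ᶜ)))) := by
    intro x _
    by_contra hcon
    simp only [mem_union, mem_compl_iff, mem_ofPred_eq, not_or, not_not, not_le] at hcon
    obtain ⟨hg, hc1, hc2, hc3, hc4, hc5⟩ := hcon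
    apply hg
    refine ⟨hc4, hc5, ?_, hc2.le, ?_⟩
    · have h4 := birkhoffSum_psi (a := a) hc5 n
      rw [h4, Real.dist_eq, abs_lt] at hc1
      have h5 := hc1.1
      have h6 : (lam - ε) * n < -2 * Real.log (P a x n) := by
        have h7 : lam - ε < -2 * Real.log (P a x n) / n := by linarith
        rwa [lt_div_iff₀ hn0] at h7
      have hP := P_pos (a := a) hc5 n
      have h8 : P a x n ^ 2 = Real.exp (2 * Real.log (P a x n)) := by
        rw [mul_comm, Real.exp_mul, Real.exp_log hP]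
        norm_num
      rw [h8, Real.exp_le_exp]
      linarith
    · by_contra h4
      push Not at h4
      apply hc3
      rw [badC, mem_iUnion₂]
      exact ⟨word a n x, h4, hc4, rfl⟩
  have hz1 : μ {x | x ∈ Ico (a - 1) a}ᶜ = 0 := by
    have := ae_mem_Ico hμ
    rwa [ae_iff] at this
  have hz2 : μ {x | Irrational x}ᶜ = 0 := by
    have := ae_irrational hμ
    rwa [ae_iff] at this
  have hA2 : μ.real {x | ε ≤ dist (birkhoffSum (T a) psi n x / n) lam} ≤ ε :=
    ENNReal.toReal_le_of_le_ofReal hε.le h1.le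
  have hB2 : μ.real (badC a μ ε n) ≤ ε := ENNReal.toReal_le_of_le_ofReal hε.le h2.le
  have htot : (1 : ℝ) ≤ μ.real (good a μ L ε lam n) +
      (μ.real {x | ε ≤ dist (birkhoffSum (T a) psi n x / n) lam} +
      (μ.real {x | ε * n ≤ birkhoffSum (T a) (hL a L) n x} +
      (μ.real (badC a μ ε n) + (μ.real {x | x ∈ Ico (a - 1) a}ᶜ +
        μ.real {x | Irrational x}ᶜ)))) := by
    have h4 : (1 : ℝ) = μ.real univ := by simp
    refine h4.trans_le ((measureReal_mono hcover).trans ?_)
    refine (measureReal_union_le _ _).trans (add_le_add le_rfl ?_)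
    refine (measureReal_union_le _ _).trans (add_le_add le_rfl ?_)
    refine (measureReal_union_le _ _).trans (add_le_add le_rfl ?_)
    refine (measureReal_union_le _ _).trans (add_le_add le_rfl ?_)
    exact measureReal_union_le _ _
  have hz1' : μ.real {x | x ∈ Ico (a - 1) a}ᶜ = 0 := by rw [measureReal_def, hz1]; rfl
  have hz2' : μ.real {x | Irrational x}ᶜ = 0 := by rw [measureReal_def, hz2]; rfl
  rw [hz1', hz2'] at htot
  linarith

end Lower

open Lower in
/-- The lower bound of the entropy. -/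
theorem le_ks (hC : Comparable) {a : ℝ} (ha : a ∈ Ico (1 / 2 : ℝ) 1)
    {μ : Measure ℝ} (hμ : IsAcip a μ) {lam : ℝ} (hlam : 0 < lam) (hint : Integrable psi μ)
    (hlim : ∀ᵐ x ∂μ, Tendsto (fun n : ℕ => birkhoffSum (T a) psi n x / n) atTop (𝓝 lam)) :
    (lam : EReal) ≤ ksEntropy μ (T a) := by
  have := hμ.prob
  -- it suffices to have all smaller reals
  suffices h : ∀ c : ℝ, c < lam → (c : EReal) ≤ ksEntropy μ (T a) by
    refine le_of_forall_lt_imp_le_of_dense (fun c hc => ?_)
    induction c with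
    | bot => exact bot_le
    | top => exact absurd hc (not_lt.2 le_top)
    | coe c => exact h c (EReal.coe_lt_coe_iff.1 hc)
  intro c hc
  obtain ⟨ε, hε, hε1, hε2, hε3⟩ : ∃ ε : ℝ, 0 < ε ∧ 4 * ε < lam ∧ 3 * ε < 1 ∧
      c ≤ (1 - 3 * ε) * (lam - 4 * ε) - ε := by
    refine ⟨min (lam / 8) (min (1 / 6) ((lam - c) / (3 * lam + 5))), ?_, ?_, ?_, ?_⟩
    · have : 0 < (lam - c) / (3 * lam + 5) := div_pos (by linarith) (by linarith)
      positivity
    · have := min_le_left (lam / 8) (min (1 / 6) ((lam - c) / (3 * lam + 5)))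
      linarith
    · have := (min_le_right (lam / 8) (min (1 / 6) ((lam - c) / (3 * lam + 5)))).trans
        (min_le_left _ _)
      linarith
    · have h1 := (min_le_right (lam / 8) (min (1 / 6) ((lam - c) / (3 * lam + 5)))).trans
        (min_le_right _ _)
      set ε := min (lam / 8) (min (1 / 6) ((lam - c) / (3 * lam + 5)))
      rw [le_div_iff₀ (by linarith)] at h1
      nlinarith [sq_nonneg ε]
  -- choice of L
  have hlimL : Tendsto (fun L : ℕ => ∫ x, hL a L x ∂μ) atTop (𝓝 (∫ x, (0 : ℝ) ∂μ)) := by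
    refine tendsto_integral_of_dominated_convergence (fun x => ‖psi x‖)
      (fun L => (measurable_hL a L).aestronglyMeasurable) hint.norm
      (fun L => Eventually.of_forall fun x => ?_) (Eventually.of_forall fun x => ?_)
    · rw [hL]
      split_ifs
      · simp
      · exact le_rfl
    · refine tendsto_const_nhds.congr' ?_
      filter_upwards [eventually_ge_atTop (dig a x).natAbs] with L hLx
      rw [hL, if_pos]
      rw [Int.abs_eq_natAbs]
      exact_mod_cast hLx
  rw [integral_zero] at hlimL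
  have hL1 := hlimL.eventually (gt_mem_nhds (show (0 : ℝ) < ε ^ 2 by positivity))
  obtain ⟨L, hL3, hL2⟩ := (hL1.and (eventually_ge_atTop 2)).exists
  have hgood := good_ge ha hμ hint hlim hε hL3.le
  refine le_trans ?_ (le_iSup_of_le (2 * L + 2) (le_iSup_of_le (fun x => lab L (dig a x))
    (le_iSup_of_le ((Measurable.of_discrete (f := lab L)).comp (measurable_dig a)) le_rfl)))
  rw [entropyRate]
  refine le_limsup_of_frequently_le' (Eventually.frequently ?_)
  have hbig : ∀ᶠ n : ℕ in atTop, (Real.log 10 + 2) / ε ≤ n ∧ Real.log 10 / (lam - 4 * ε) ≤ n :=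
    (tendsto_natCast_atTop_atTop.eventually_ge_atTop _).and
      (tendsto_natCast_atTop_atTop.eventually_ge_atTop _)
  filter_upwards [hgood, hbig, eventually_ge_atTop 1] with n h1 h2 hn
  have hn0 : (0 : ℝ) < n := by exact_mod_cast hn
  rw [EReal.coe_le_coe_iff, le_div_iff₀ hn0]
  have h3 := partEntropy_ge (μ := μ) (measurable_itin a L n) (good a μ L ε lam n)
    (fun e => cell_le hC ha hμ hL2 n e)
  refine le_trans ?_ h3
  obtain ⟨h4, h5⟩ := h2
  rw [div_le_iff₀ hε] at h4
  rw [div_le_iff₀ (by linarith)] at h5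
  have hlog : 0 ≤ Real.log 10 := Real.log_nonneg (by norm_num)
  have h6 : (1 - 3 * ε) * ((lam - 4 * ε) * n - Real.log 10) ≤
      μ.real (good a μ L ε lam n) * ((lam - 4 * ε) * n - Real.log 10) :=
    mul_le_mul_of_nonneg_right h1 (by linarith)
  have h7 : c * n ≤ ((1 - 3 * ε) * (lam - 4 * ε) - ε) * n :=
    mul_le_mul_of_nonneg_right hε3 hn0.le
  nlinarith

end TanakaIto
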