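import Pool.Agent.TI.Basic

/-! Tanaka-Ito continued fraction maps: upper bound of the Kolmogorov-Sinai entropy. -/

open MeasureTheory Filter Topology Set
open scoped ENNReal

namespace TanakaIto


lemma negMulLog_le_one {q : ℝ} (hq : 0 ≤ q) : Real.negMulLog q ≤ 1 := by
  rcases hq.eq_or_lt with h | h
  · rw [← h]; simp
  · have h1 : Real.log (1 / q) ≤ 1 / q - 1 := Real.log_le_sub_one_of_pos (by positivity)
    rw [Real.log_div one_ne_zero h.ne', Real.log_one] at h1
    unfold Real.negMulLog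
    have h2 : q * (0 - Real.log q) ≤ q * (1 / q - 1) := mul_le_mul_of_nonneg_left h1 h.le
    have h3 : q * (1 / q - 1) = 1 - q := by field_simp
    nlinarith

/-- Jensen for the function negMulLog over a finite set. -/
lemma sum_negMulLog_le {ι : Type*} (V : Finset ι) (p : ι → ℝ) (hp : ∀ i ∈ V, 0 ≤ p i) :
    ∑ i ∈ V, Real.negMulLog (p i) ≤ (∑ i ∈ V, p i) * Real.log V.card + 1 := by
  rcases V.eq_empty_or_nonempty with h | h
  · subst h; simp
  have hc : (0 : ℝ) < V.card := by exact_mod_cast h.card_pos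
  have hJ := Real.concaveOn_negMulLog.le_map_sum (t := V) (w := fun _ => (1 / (V.card : ℝ)))
    (p := p) (fun _ _ => by positivity)
    (by rw [Finset.sum_const, nsmul_eq_mul]; field_simp)
    (fun i hi => hp i hi)
  simp only [smul_eq_mul] at hJ
  rw [← Finset.mul_sum, ← Finset.mul_sum] at hJ
  set q := ∑ i ∈ V, p i with hq
  have hq0 : 0 ≤ q := Finset.sum_nonneg hp
  have h1 : Real.negMulLog (1 / (V.card : ℝ) * q) =
      1 / (V.card : ℝ) * (q * Real.log V.card + Real.negMulLog q) := by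
    rcases hq0.eq_or_lt with h0 | h0
    · rw [← h0]; simp
    · unfold Real.negMulLog
      rw [Real.log_mul (by positivity) h0.ne', Real.log_div one_ne_zero hc.ne', Real.log_one]
      ring
  rw [h1] at hJ
  have h2 := le_of_mul_le_mul_left hJ (by positivity)
  linarith [negMulLog_le_one hq0]

/-- Entropy bound for a partition most of whose mass sits in the atoms with labels in V. -/
lemma partEntropy_le {Ω ι : Type*} [MeasurableSpace Ω] [Fintype ι] [DecidableEq ι]
    (μ : Measure Ω) [IsProbabilityMeasure μ] (f : Ω → ι)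
    (hf : ∀ i, MeasurableSet (f ⁻¹' {i})) (V : Finset ι) {ρ : ℝ}
    (hρ : μ.real {x | f x ∉ V} ≤ ρ) :
    partEntropy μ f ≤ Real.log V.card + ρ * Real.log (Fintype.card ι) + 2 := by
  classical
  have hsum : ∀ U : Finset ι, ∑ i ∈ U, μ.real (f ⁻¹' {i}) = μ.real {x | f x ∈ U} := by
    intro U
    have h1 : {x | f x ∈ U} = ⋃ i ∈ U, f ⁻¹' {i} := by
      ext x; simp
    rw [h1, measureReal_biUnion_finset]
    · intro i _ j _ hij
      refine Set.disjoint_left.mpr fun x hx hx' => hij ?_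
      simp only [mem_preimage, mem_singleton_iff] at hx hx'
      rw [← hx, ← hx']
    · intro i _; exact hf i
  have hc : ({x | f x ∉ V} : Set Ω) = {x | f x ∈ Vᶜ} := by
    ext x; simp
  unfold partEntropy
  rw [← Finset.sum_add_sum_compl V]
  have h1 := sum_negMulLog_le V (fun i => μ.real (f ⁻¹' {i})) (fun _ _ => measureReal_nonneg)
  have h2 := sum_negMulLog_le Vᶜ (fun i => μ.real (f ⁻¹' {i})) (fun _ _ => measureReal_nonneg)
  rw [hsum] at h1 h2
  rw [← hc] at h2
  have h3 : μ.real {x | f x ∈ V} * Real.log V.card ≤ 1 * Real.log V.card :=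
    mul_le_mul_of_nonneg_right measureReal_le_one (Real.log_natCast_nonneg _)
  have h4 : Real.log (Vᶜ.card) ≤ Real.log (Fintype.card ι) := by
    rcases Nat.eq_zero_or_pos (Vᶜ.card) with h | h
    · rw [h]; simp [Real.log_natCast_nonneg]
    · exact Real.log_le_log (by exact_mod_cast h) (by exact_mod_cast Finset.card_le_univ _)
  have h5 : μ.real {x | f x ∉ V} * Real.log (Vᶜ.card) ≤ ρ * Real.log (Fintype.card ι) := by
    have h0 : 0 ≤ μ.real {x | f x ∉ V} := measureReal_nonneg
    exact mul_le_mul hρ h4 (Real.log_natCast_nonneg _) (h0.trans hρ)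
  linarith

/-- Size of a Hamming ball. -/
lemma card_ball_le {n k : ℕ} (w0 : Fin n → Fin k) (m t : ℝ) (ht : 0 ≤ t) :
    ((Finset.univ.filter fun w : Fin n → Fin k =>
      ((Finset.univ.filter fun i => w i ≠ w0 i).card : ℝ) ≤ m).card : ℝ) ≤
      Real.exp (t * m + n * (k * Real.exp (-t))) := by
  classical
  set B := Finset.univ.filter fun w : Fin n → Fin k =>
      ((Finset.univ.filter fun i => w i ≠ w0 i).card : ℝ) ≤ m with hB
  have h1 : ∀ w : Fin n → Fin k,
      Real.exp (-t * ((Finset.univ.filter fun i => w i ≠ w0 i).card : ℝ)) =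
        ∏ i, (if w i ≠ w0 i then Real.exp (-t) else 1) := by
    intro w
    rw [Finset.prod_ite, Finset.prod_const, Finset.prod_const_one, mul_one, ← Real.exp_nat_mul]
    congr 1; ring
  have h2 : ∑ w : Fin n → Fin k,
      Real.exp (-t * ((Finset.univ.filter fun i => w i ≠ w0 i).card : ℝ)) ≤
        Real.exp (n * (k * Real.exp (-t))) := by
    simp_rw [h1]
    have h2a := Finset.prod_univ_sum (fun _ : Fin n => (Finset.univ : Finset (Fin k)))
      (fun i c => (if c ≠ w0 i then Real.exp (-t) else (1 : ℝ)))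
    rw [Fintype.piFinset_univ] at h2a
    rw [← h2a]
    have h2b : ∀ i : Fin n, ∑ c : Fin k, (if c ≠ w0 i then Real.exp (-t) else (1 : ℝ)) ≤
        Real.exp (k * Real.exp (-t)) := by
      intro i
      calc ∑ c : Fin k, (if c ≠ w0 i then Real.exp (-t) else (1 : ℝ))
          ≤ ∑ c : Fin k, (Real.exp (-t) + if c = w0 i then (1 : ℝ) else 0) := by
            refine Finset.sum_le_sum fun c _ => ?_
            have := (Real.exp_pos (-t)).le
            by_cases hc : c = w0 i <;> simp [hc, this]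
        _ = k * Real.exp (-t) + 1 := by
            rw [Finset.sum_add_distrib, Finset.sum_const, Finset.card_univ, Fintype.card_fin,
              nsmul_eq_mul]
            simp
        _ ≤ _ := Real.add_one_le_exp _
    calc ∏ i : Fin n, ∑ c : Fin k, (if c ≠ w0 i then Real.exp (-t) else (1 : ℝ))
        ≤ ∏ _i : Fin n, Real.exp (k * Real.exp (-t)) :=
          Finset.prod_le_prod (fun i _ => Finset.sum_nonneg fun c _ => by
            split_ifs <;> first | exact (Real.exp_pos _).le | exact zero_le_one)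
            (fun i _ => h2b i)
      _ = _ := by
          rw [Finset.prod_const, Finset.card_univ, Fintype.card_fin, ← Real.exp_nat_mul]
  have h3 : (B.card : ℝ) * Real.exp (-t * m) ≤ ∑ w : Fin n → Fin k,
      Real.exp (-t * ((Finset.univ.filter fun i => w i ≠ w0 i).card : ℝ)) := by
    calc (B.card : ℝ) * Real.exp (-t * m) = ∑ w ∈ B, Real.exp (-t * m) := by
          rw [Finset.sum_const, nsmul_eq_mul]
      _ ≤ ∑ w ∈ B, Real.exp (-t * ((Finset.univ.filter fun i => w i ≠ w0 i).card : ℝ)) := by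
          refine Finset.sum_le_sum fun w hw => Real.exp_le_exp.mpr ?_
          have : ((Finset.univ.filter fun i => w i ≠ w0 i).card : ℝ) ≤ m :=
            (Finset.mem_filter.mp hw).2
          nlinarith
      _ ≤ _ := Finset.sum_le_sum_of_subset_of_nonneg (Finset.subset_univ _)
          fun _ _ _ => (Real.exp_pos _).le
  have h4 := h3.trans h2
  have h5 : Real.exp (t * m + n * (k * Real.exp (-t))) =
      Real.exp (n * (k * Real.exp (-t))) / Real.exp (-t * m) := by
    rw [← Real.exp_sub]; congr 1; ring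
  rw [h5, le_div_iff₀ (Real.exp_pos _)]
  exact h4


/-- Points close to a good point have the same digits and nearby orbits. -/
lemma close_orbits (hC : Comparable) {a : ℝ} (ha : a ∈ Ico (1 / 2 : ℝ) 1) {x x' : ℝ}
    (hx : x ∈ Ico (a - 1) a) (hx' : x' ∈ Ico (a - 1) a) (hi : Irrational x)
    (hi' : Irrational x') {n : ℕ} {δ Q : ℝ} (hδ : 0 < δ) (hδ1 : δ < 1 / 10)
    (hP : Q ≤ (P a x n) ^ 2)
    (hend : ∀ i, 1 ≤ i → i ≤ n → a - 1 + δ ≤ (T a)^[i] x ∧ (T a)^[i] x ≤ a - δ)
    (hclose : |x - x'| ≤ δ ^ 2 * Q) :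
    ∀ i, i ≤ n → ∀ j < i, dig a ((T a)^[j] x) = dig a ((T a)^[j] x') ∧
      |(T a)^[j] x - (T a)^[j] x'| ≤ 5 * δ ^ 2 := by
  have ha' : a ∈ Ioo (0 : ℝ) 1 := ⟨by linarith [ha.1], ha.2⟩
  have hxI : x ∈ Ioo (-1 : ℝ) 1 := ⟨by linarith [ha.1, hx.1], by linarith [ha.2, hx.2]⟩
  intro i
  induction i with
  | zero => intro _ j hj; exact absurd hj (Nat.not_lt_zero j)
  | succ i ih =>
    intro hin j hj
    have ih' := ih (by omega)
    rcases Nat.lt_succ_iff_lt_or_eq.mp hj with h | h
    · exact ih' j h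
    subst h
    have habs := abs_sub_eq hi hi' j fun l hl => (ih' l hl).1
    have hcomp := hC a ha x' hx' x hx hi' hi j fun l hl => ((ih' l hl).1).symm
    have hp := P_pos (a := a) hi j
    have hp' := P_pos (a := a) hi' j
    have hy0 : (T a)^[j] x ≠ 0 := (irrational_iter hi j).ne_zero
    have hy0' : (T a)^[j] x' ≠ 0 := (irrational_iter hi' j).ne_zero
    have hyI := iter_mem_Ioo ha' hxI j
    have hPn : P a x n ≤ P a x (j + 1) := P_antitone ha' hxI hin
    rw [P_succ] at hPn
    have hPn0 := P_nonneg a x n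
    have hnext := hend (j + 1) (by omega) hin
    rw [Function.iterate_succ_apply'] at hnext
    rw [T_of_ne hy0] at hnext
    set p := P a x j
    set p' := P a x' j
    set y := (T a)^[j] x
    set y' := (T a)^[j] x'
    have hya : 0 < |y| := abs_pos.mpr hy0
    have hya' : 0 < |y'| := abs_pos.mpr hy0'
    have hy1 : |y| < 1 := abs_lt.mpr hyI
    have h1 : p * p' * |y - y'| ≤ δ ^ 2 * (p * |y|) ^ 2 := by
      rw [← habs]
      refine hclose.trans (mul_le_mul_of_nonneg_left ?_ (by positivity))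
      exact hP.trans (by gcongr)
    have h2 : p' * |y - y'| ≤ p' * (5 * δ ^ 2 * |y| ^ 2) := by
      have h3 : p * (p' * |y - y'|) ≤ p * (δ ^ 2 * p * |y| ^ 2) := by
        calc p * (p' * |y - y'|) = p * p' * |y - y'| := by ring
          _ ≤ _ := h1
          _ = _ := by ring
      have h4 := le_of_mul_le_mul_left h3 hp
      refine h4.trans ?_
      have : δ ^ 2 * |y| ^ 2 * p ≤ δ ^ 2 * |y| ^ 2 * (5 * p') :=
        mul_le_mul_of_nonneg_left hcomp (by positivity)
      linarith
    have h3 : |y - y'| ≤ 5 * δ ^ 2 * |y| ^ 2 := le_of_mul_le_mul_left h2 hp'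
    have h5 : |y - y'| ≤ 5 * δ ^ 2 := by
      refine h3.trans ?_
      have : |y| ^ 2 ≤ 1 := by nlinarith
      nlinarith [sq_nonneg δ]
    have h6 : |y| / 2 ≤ |y'| := by
      have h7 : |y| - |y'| ≤ |y - y'| := abs_sub_abs_le_abs_sub y y'
      have h8 : 5 * δ ^ 2 * |y| ^ 2 ≤ |y| / 2 := by
        have : 5 * δ ^ 2 ≤ 1 / 2 := by nlinarith
        nlinarith
      linarith
    have h7 : |1 / y - 1 / y'| ≤ 10 * δ ^ 2 := by
      have h8 : 1 / y - 1 / y' = (y' - y) / (y * y') := by field_simp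
      rw [h8, abs_div, abs_mul, abs_sub_comm, div_le_iff₀ (by positivity)]
      refine h3.trans ?_
      have : |y| * (|y| / 2) ≤ |y| * |y'| := mul_le_mul_of_nonneg_left h6 hya.le
      nlinarith [sq_nonneg δ]
    have h8 : |1 / y - 1 / y'| < δ := by
      refine h7.trans_lt ?_
      nlinarith
    have h9 := abs_lt.mp h8
    refine ⟨(dig_eq_of (a := a) (x := y') (dig a y) ?_ ?_).symm, h5⟩
    · linarith [hnext.1, h9.2]
    · linarith [hnext.2, h9.1]


lemma vol_bad_le {C : ℝ} (hB : RenewalBound C) {a : ℝ} (ha : a ∈ Ico (1 / 2 : ℝ) 1) {s δ : ℝ}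
    (hs : s ∈ Ioc (0 : ℝ) 1) (hδ : 0 ≤ δ) (n : ℕ) :
    volume {x | x ∈ Ico (a - 1) a ∧ s ≤ P a x n ∧
      ∃ i, i ≤ n ∧ ((T a)^[i] x < a - 1 + δ ∨ a - δ < (T a)^[i] x)} ≤
      ENNReal.ofReal (C * (1 + Real.log (1 / s))) * ENNReal.ofReal (2 * δ) := by
  have ha' : a ∈ Ioo (0 : ℝ) 1 := ⟨by linarith [ha.1], ha.2⟩
  set E : Set ℝ := {y | y < a - 1 + δ ∨ a - δ < y} with hE
  have hEm : MeasurableSet E := by
    rw [hE]
    exact (measurableSet_lt measurable_id measurable_const).union
      (measurableSet_lt measurable_const measurable_id)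
  set f : ℝ → ℝ≥0∞ := E.indicator 1 with hf
  have hfm : Measurable f := measurable_one.indicator hEm
  have h1 := hB a ha s hs f hfm
  have h2 : ∫⁻ x in Ico (a - 1) a, f x ≤ ENNReal.ofReal (2 * δ) := by
    rw [hf, lintegral_indicator_one hEm, Measure.restrict_apply hEm]
    have hsub : E ∩ Ico (a - 1) a ⊆ Ico (a - 1) (a - 1 + δ) ∪ Ioo (a - δ) a := by
      rintro y ⟨hy, hy1, hy2⟩
      rcases hy with h | h
      · exact Or.inl ⟨hy1, h⟩
      · exact Or.inr ⟨h, hy2⟩
    refine (measure_mono hsub).trans ((measure_union_le _ _).trans ?_)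
    rw [Real.volume_Ico, Real.volume_Ioo, ← ENNReal.ofReal_add (by linarith) (by linarith)]
    apply ENNReal.ofReal_le_ofReal
    linarith
  have hgm : Measurable (fun x => ∑' k : ℕ, if s ≤ P a x k then f ((T a)^[k] x) else 0) := by
    refine Measurable.tsum fun k => ?_
    refine Measurable.ite (measurableSet_le measurable_const (measurable_P a k)) ?_
      measurable_const
    exact hfm.comp ((measurable_T a).iterate k)
  have h3 := mul_meas_ge_le_lintegral (μ := volume.restrict (Ico (a - 1) a)) hgm 1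
  rw [one_mul] at h3
  rw [Measure.restrict_apply (measurableSet_le measurable_const hgm)] at h3
  refine (measure_mono ?_).trans ((h3.trans h1).trans (by gcongr))
  rintro x ⟨hxI, hsP, i, hi, hiE⟩
  refine ⟨?_, hxI⟩
  have hx' : x ∈ Ioo (-1 : ℝ) 1 := ⟨by linarith [ha.1, hxI.1], by linarith [ha.2, hxI.2]⟩
  have h4 : s ≤ P a x i := hsP.trans (P_antitone ha' hx' hi)
  have h5 := ENNReal.le_tsum (f := fun k : ℕ => if s ≤ P a x k then f ((T a)^[k] x) else 0) i
  refine le_trans ?_ h5
  simp only [if_pos h4, hf]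
  rw [indicator_of_mem (show (T a)^[i] x ∈ E from hiE)]
  simp

lemma tendsto_measure_zero_of_ac {μ : Measure ℝ} [IsFiniteMeasure μ] (hac : μ ≪ volume)
    {s : ℕ → Set ℝ} (hs : Tendsto (fun n => volume (s n)) atTop (𝓝 0)) :
    Tendsto (fun n => μ (s n)) atTop (𝓝 0) := by
  have h1 : ∀ n, μ (s n) = ∫⁻ x in s n, μ.rnDeriv volume x := fun n =>
    (Measure.setLIntegral_rnDeriv hac (s n)).symm
  simp_rw [h1]
  refine tendsto_setLIntegral_zero ?_ hs
  rw [Measure.lintegral_rnDeriv hac]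
  exact measure_ne_top _ _

lemma tendsto_bad_two {C : ℝ} (hB : RenewalBound C) {a : ℝ} (ha : a ∈ Ico (1 / 2 : ℝ) 1)
    {μ : Measure ℝ} (hμ : IsAcip a μ) {lam ε : ℝ} (hlam : 0 < lam) (hε : 0 < ε) :
    Tendsto (fun n : ℕ => μ {x | x ∈ Ico (a - 1) a ∧
      Real.exp (-((lam + ε) / 2 * n)) ≤ P a x n ∧
      ∃ i, i ≤ n ∧ ((T a)^[i] x < a - 1 + Real.exp (-(ε * n)) ∨
        a - Real.exp (-(ε * n)) < (T a)^[i] x)}) atTop (𝓝 0) := by
  have := hμ.prob
  apply tendsto_measure_zero_of_ac hμ.ac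
  have hbound : ∀ n : ℕ, volume {x | x ∈ Ico (a - 1) a ∧
      Real.exp (-((lam + ε) / 2 * n)) ≤ P a x n ∧
      ∃ i, i ≤ n ∧ ((T a)^[i] x < a - 1 + Real.exp (-(ε * n)) ∨
        a - Real.exp (-(ε * n)) < (T a)^[i] x)} ≤
      ENNReal.ofReal (C * (1 + (lam + ε) / 2 * n)) * ENNReal.ofReal (2 * Real.exp (-(ε * n))) := by
    intro n
    have h := vol_bad_le hB ha (s := Real.exp (-((lam + ε) / 2 * n)))
      (δ := Real.exp (-(ε * n))) ⟨Real.exp_pos _, by
        rw [Real.exp_le_one_iff]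
        have : 0 ≤ (lam + ε) / 2 * n := by positivity
        linarith⟩ (Real.exp_pos _).le n
    have hl : Real.log (1 / Real.exp (-((lam + ε) / 2 * n))) = (lam + ε) / 2 * n := by
      rw [one_div, ← Real.exp_neg, neg_neg, Real.log_exp]
    rw [hl] at h
    exact h
  have hlim0 : Tendsto (fun n : ℕ => ENNReal.ofReal ((|C| * (1 + (lam + ε) / 2 * n)) *
      (2 * Real.exp (-(ε * n))))) atTop (𝓝 0) := by
    rw [← ENNReal.ofReal_zero]
    apply ENNReal.tendsto_ofReal
    have h1 : Tendsto (fun x : ℝ => x * Real.exp (-(ε * x))) atTop (𝓝 0) := by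
      have h2 := (Real.tendsto_pow_mul_exp_neg_atTop_nhds_zero 1).comp
        (tendsto_id.const_mul_atTop hε)
      have h3 := h2.const_mul (1 / ε)
      rw [mul_zero] at h3
      refine h3.congr fun x => ?_
      simp only [Function.comp, id, pow_one]
      field_simp
    have h2 : Tendsto (fun x : ℝ => Real.exp (-(ε * x))) atTop (𝓝 0) :=
      Real.tendsto_exp_neg_atTop_nhds_zero.comp (tendsto_id.const_mul_atTop hε)
    have h3 : Tendsto (fun x : ℝ => |C| * 2 * (Real.exp (-(ε * x)) +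
        (lam + ε) / 2 * (x * Real.exp (-(ε * x))))) atTop (𝓝 (|C| * 2 * (0 + (lam + ε) / 2 * 0))) :=
      (h2.add (h1.const_mul _)).const_mul _
    rw [mul_zero, add_zero, mul_zero] at h3
    refine (h3.comp tendsto_natCast_atTop_atTop).congr fun n => ?_
    simp only [Function.comp]
    ring
  refine tendsto_of_tendsto_of_tendsto_of_le_of_le tendsto_const_nhds hlim0
    (fun n => bot_le) (fun n => (hbound n).trans ?_)
  have h0 : 0 ≤ 1 + (lam + ε) / 2 * (n : ℝ) := by positivity
  rw [ENNReal.ofReal_mul (p := |C| * (1 + (lam + ε) / 2 * n))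
    (mul_nonneg (abs_nonneg C) h0)]
  gcongr
  exact le_abs_self C

lemma tendsto_bad_one {a : ℝ} {μ : Measure ℝ} (hμ : IsAcip a μ) {lam ε : ℝ} (hε : 0 < ε)
    (hlim : ∀ᵐ x ∂μ, Tendsto (fun n : ℕ => birkhoffSum (T a) psi n x / n) atTop (𝓝 lam)) :
    Tendsto (fun n : ℕ => μ {x | Irrational x ∧
      P a x n < Real.exp (-((lam + ε) / 2 * n))}) atTop (𝓝 0) := by
  have := hμ.prob
  have hmeas : ∀ n : ℕ, Measurable (fun x => birkhoffSum (T a) psi n x / n) := by
    intro n
    unfold birkhoffSum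
    refine Measurable.div_const (Finset.measurable_sum _ fun i _ => ?_) _
    exact measurable_psi.comp ((measurable_T a).iterate i)
  have h1 := tendstoInMeasure_of_tendsto_ae
    (fun n => (hmeas n).aestronglyMeasurable (μ := μ)) hlim
  have h2 := (tendstoInMeasure_iff_dist.mp h1) ε hε
  refine tendsto_of_tendsto_of_tendsto_of_le_of_le' tendsto_const_nhds h2
    (Eventually.of_forall fun n => bot_le) ?_
  filter_upwards [eventually_gt_atTop 0] with n hn
  apply measure_mono
  rintro x ⟨hi, hx⟩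
  have hn' : (0 : ℝ) < n := by exact_mod_cast hn
  have hP := P_pos (a := a) hi n
  have h3 : Real.log (P a x n) < -((lam + ε) / 2 * n) := by
    rw [← Real.log_exp (-((lam + ε) / 2 * n))]
    exact Real.log_lt_log hP hx
  show ε ≤ dist (birkhoffSum (T a) psi n x / n) lam
  rw [Real.dist_eq, birkhoffSum_psi hi]
  refine le_trans ?_ (le_abs_self _)
  rw [le_sub_iff_add_le, le_div_iff₀ hn']
  nlinarith

/-- Markov inequality for Birkhoff sums. -/
lemma measure_birkhoff_ge {μ : Measure ℝ} [IsProbabilityMeasure μ] {S : ℝ → ℝ}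
    (hS : MeasurePreserving S μ μ) {v : ℝ → ℝ} (hv : Integrable v μ) (hv0 : ∀ x, 0 ≤ v x)
    {d : ℝ} (hd : 0 < d) (hvd : ∫ x, v x ∂μ ≤ d ^ 2) {n : ℕ} (hn : 0 < n) :
    μ.real {x | d * n / 3 ≤ birkhoffSum S v n x} ≤ 3 * d := by
  have hn' : (0 : ℝ) < n := by exact_mod_cast hn
  have hint : ∀ i : ℕ, Integrable (fun x => v (S^[i] x)) μ := fun i =>
    ((hS.iterate i).integrable_comp hv.aestronglyMeasurable).mpr hv
  have hI : ∀ i : ℕ, ∫ x, v (S^[i] x) ∂μ = ∫ x, v x ∂μ := by
    intro i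
    have h1 := (hS.iterate i).map_eq
    conv_rhs => rw [← h1]
    rw [integral_map (hS.iterate i).measurable.aemeasurable]
    rw [h1]
    exact hv.aestronglyMeasurable
  have hsum : ∫ x, birkhoffSum S v n x ∂μ = n * ∫ x, v x ∂μ := by
    unfold birkhoffSum
    rw [integral_finsetSum _ fun i _ => hint i]
    simp [hI]
  have h2 := mul_meas_ge_le_integral_of_nonneg (μ := μ) (f := birkhoffSum S v n)
    (Eventually.of_forall fun x => Finset.sum_nonneg fun i _ => hv0 _)
    (by unfold birkhoffSum; exact integrable_finsetSum _ fun i _ => hint i) (d * n / 3)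
  rw [hsum] at h2
  have h3 : (n : ℝ) * ∫ x, v x ∂μ ≤ n * d ^ 2 := mul_le_mul_of_nonneg_left hvd hn'.le
  have h4 : (d * n / 3) * μ.real {x | d * n / 3 ≤ birkhoffSum S v n x} ≤
      (d * n / 3) * (3 * d) := by
    refine h2.trans (h3.trans (le_of_eq ?_))
    ring
  exact le_of_mul_le_mul_left h4 (by positivity)

/-- Number of itineraries of good points. -/
lemma card_words_le (hC : Comparable) {a : ℝ} (ha : a ∈ Ico (1 / 2 : ℝ) 1) {k : ℕ}
    (η : ℝ → Fin k) {v : ℝ → ℝ} {n : ℕ} {δ Q d t : ℝ} (hδ : 0 < δ) (hδ1 : δ < 1 / 10)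
    (hQ : 0 < Q) (ht : 0 ≤ t)
    (hv : ∀ x y, v x < 1 / 3 → v y < 1 / 3 → |x - y| ≤ 5 * δ ^ 2 → η x = η y)
    (G : Set ℝ) (hG : ∀ x ∈ G, x ∈ Ico (a - 1) a ∧ Irrational x ∧ Q ≤ (P a x n) ^ 2 ∧
      (∀ i, 1 ≤ i → i ≤ n → a - 1 + δ ≤ (T a)^[i] x ∧ (T a)^[i] x ≤ a - δ) ∧
      ((Finset.univ.filter fun i : Fin n => 1 / 3 ≤ v ((T a)^[i] x)).card : ℝ) ≤ d * n)
    (V : Finset (Fin n → Fin k)) (hV : ∀ w ∈ V, ∃ x ∈ G, itin (T a) η n x = w) :
    (V.card : ℝ) ≤ (1 / (δ ^ 2 * Q) + 1) *
      Real.exp (t * (2 * (d * n)) + n * (k * Real.exp (-t))) := by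
  classical
  set r := δ ^ 2 * Q with hr
  have hr0 : 0 < r := by positivity
  set X := Real.exp (t * (2 * (d * n)) + n * (k * Real.exp (-t))) with hX
  have hX0 : 0 < X := Real.exp_pos _
  choose! z hzG hzw using hV
  set j : (Fin n → Fin k) → ℕ := fun w => ⌊(z w - (a - 1)) / r⌋₊ with hj
  have key : ∀ w ∈ V, ∀ w' ∈ V, j w = j w' →
      ((Finset.univ.filter fun i => w i ≠ w' i).card : ℝ) ≤ 2 * (d * n) := by
    intro w hw w' hw' hjj
    obtain ⟨hxI, hi, hPx, hend, hcx⟩ := hG _ (hzG w hw)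
    obtain ⟨hxI', hi', hPx', hend', hcx'⟩ := hG _ (hzG w' hw')
    have h0 : 0 ≤ (z w - (a - 1)) / r := div_nonneg (by linarith [hxI.1]) hr0.le
    have h0' : 0 ≤ (z w' - (a - 1)) / r := div_nonneg (by linarith [hxI'.1]) hr0.le
    have h1 := Nat.floor_le h0
    have h2 := Nat.lt_floor_add_one ((z w - (a - 1)) / r)
    have h1' := Nat.floor_le h0'
    have h2' := Nat.lt_floor_add_one ((z w' - (a - 1)) / r)
    have hjj' : ⌊(z w - (a - 1)) / r⌋₊ = ⌊(z w' - (a - 1)) / r⌋₊ := hjj
    rw [hjj'] at h1 h2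
    have hclose : |z w - z w'| ≤ r := by
      have h3 : z w - (a - 1) = (z w - (a - 1)) / r * r := by field_simp
      have h3' : z w' - (a - 1) = (z w' - (a - 1)) / r * r := by field_simp
      rw [abs_le]
      constructor
      · nlinarith
      · nlinarith
    have horb := close_orbits hC ha hxI hxI' hi hi' hδ hδ1 hPx hend hclose n le_rfl
    have hsub : (Finset.univ.filter fun i => w i ≠ w' i) ⊆
        (Finset.univ.filter fun i : Fin n => 1 / 3 ≤ v ((T a)^[i] (z w))) ∪
        (Finset.univ.filter fun i : Fin n => 1 / 3 ≤ v ((T a)^[i] (z w'))) := by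
      intro i hi0
      rw [Finset.mem_filter] at hi0
      rw [Finset.mem_union, Finset.mem_filter, Finset.mem_filter]
      by_contra hcon
      push Not at hcon
      apply hi0.2
      have e1 : w i = η ((T a)^[i] (z w)) := by rw [← congrFun (hzw w hw) i]; rfl
      have e2 : w' i = η ((T a)^[i] (z w')) := by rw [← congrFun (hzw w' hw') i]; rfl
      rw [e1, e2]
      exact hv _ _ (hcon.1 (Finset.mem_univ _)) (hcon.2 (Finset.mem_univ _))
        (horb i i.isLt).2
    have h5 : ((Finset.univ.filter fun i => w i ≠ w' i).card : ℝ) ≤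
        ((Finset.univ.filter fun i : Fin n => 1 / 3 ≤ v ((T a)^[i] (z w))).card : ℝ) +
        ((Finset.univ.filter fun i : Fin n => 1 / 3 ≤ v ((T a)^[i] (z w'))).card : ℝ) := by
      exact_mod_cast (Finset.card_le_card hsub).trans (Finset.card_union_le _ _)
    linarith
  have hfib : ∀ b ∈ V.image j, (V.filter fun w => j w = b).card ≤ ⌊X⌋₊ := by
    intro b hb
    obtain ⟨w0, hw0, rfl⟩ := Finset.mem_image.mp hb
    apply Nat.le_floor
    refine le_trans ?_ (card_ball_le w0 (2 * (d * n)) t ht)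
    have hsub : (V.filter fun w => j w = j w0) ⊆ (Finset.univ.filter fun w : Fin n → Fin k =>
      ((Finset.univ.filter fun i => w i ≠ w0 i).card : ℝ) ≤ 2 * (d * n)) := by
      intro w hw
      rw [Finset.mem_filter] at hw ⊢
      exact ⟨Finset.mem_univ _, key w hw.1 w0 hw0 hw.2⟩
    exact_mod_cast Finset.card_le_card hsub
  have h1 := Finset.card_le_mul_card_image V ⌊X⌋₊ hfib
  have himg : V.image j ⊆ Finset.range (⌊1 / r⌋₊ + 1) := by
    intro b hb
    obtain ⟨w, hw, rfl⟩ := Finset.mem_image.mp hb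
    rw [Finset.mem_range, Nat.lt_succ_iff]
    apply Nat.floor_le_floor
    have hxI := (hG _ (hzG w hw)).1
    apply div_le_div_of_nonneg_right _ hr0.le
    linarith [hxI.2]
  have h2 : ((V.image j).card : ℝ) ≤ 1 / r + 1 := by
    have h3 := Finset.card_le_card himg
    rw [Finset.card_range] at h3
    have h4 : ((V.image j).card : ℝ) ≤ (⌊1 / r⌋₊ : ℝ) + 1 := by exact_mod_cast h3
    linarith [Nat.floor_le (show 0 ≤ 1 / r by positivity)]
  calc (V.card : ℝ) ≤ (⌊X⌋₊ : ℝ) * ((V.image j).card : ℝ) := by exact_mod_cast h1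
    _ ≤ X * (1 / r + 1) := mul_le_mul (Nat.floor_le hX0.le) h2 (by positivity) hX0.le
    _ = _ := by ring

lemma measure_not_good {a : ℝ} {μ : Measure ℝ} (hμ : IsAcip a μ) :
    μ {x | ¬ (x ∈ Ico (a - 1) a ∧ Irrational x)} = 0 := by
  have h1 : μ {a} = 0 := hμ.ac (by simp)
  have h2 : μ (Set.range ((↑) : ℚ → ℝ)) = 0 := hμ.ac ((Set.countable_range _).measure_zero volume)
  refine measure_mono_null ?_ (measure_union_null (measure_union_null hμ.supp h1) h2)
  intro x hx
  by_contra hcon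
  simp only [mem_union, not_or] at hcon
  obtain ⟨⟨h3, h4⟩, h5⟩ := hcon
  rw [mem_compl_iff, not_not] at h3
  apply hx
  exact ⟨⟨h3.1, lt_of_le_of_ne h3.2 h4⟩, h5⟩

lemma measurable_itin {a : ℝ} {k : ℕ} {η : ℝ → Fin k} (hη : Measurable η) (n : ℕ) :
    Measurable (itin (T a) η n) := by
  rw [measurable_pi_iff]
  intro i
  exact hη.comp ((measurable_T a).iterate i)

lemma partEntropy_eventually_le {C : ℝ} (hB : RenewalBound C) (hC : Comparable) {a : ℝ}
    (ha : a ∈ Ico (1 / 2 : ℝ) 1) {μ : Measure ℝ} (hμ : IsAcip a μ) {lam : ℝ} (hlam : 0 < lam)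
    (hlim : ∀ᵐ x ∂μ, Tendsto (fun n : ℕ => birkhoffSum (T a) psi n x / n) atTop (𝓝 lam))
    {k : ℕ} {η : ℝ → Fin k} (hη : Measurable η) {κ : ℝ} (hκ : 0 < κ) :
    ∀ᶠ n : ℕ in atTop, partEntropy μ (itin (T a) η n) / n ≤ lam + κ := by
  classical
  have := hμ.prob
  have hk : 0 < k := Fin.pos (η 0)
  have hk' : (0 : ℝ) < k := by exact_mod_cast hk
  -- parameters
  obtain ⟨t, ht, htk⟩ : ∃ t : ℝ, 0 ≤ t ∧ k * Real.exp (-t) ≤ κ / 8 := by
    refine ⟨max 0 (Real.log (8 * k / κ)), le_max_left _ _, ?_⟩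
    have h1 : Real.exp (-(max 0 (Real.log (8 * k / κ)))) ≤
        Real.exp (-(Real.log (8 * k / κ))) := by
      apply Real.exp_le_exp.mpr
      linarith [le_max_right 0 (Real.log (8 * k / κ))]
    rw [Real.exp_neg (Real.log _), Real.exp_log (by positivity)] at h1
    calc k * Real.exp (-(max 0 (Real.log (8 * k / κ)))) ≤ k * (8 * k / κ)⁻¹ :=
          mul_le_mul_of_nonneg_left h1 hk'.le
      _ = κ / 8 := by field_simp
  have hlogk : 0 ≤ Real.log k := Real.log_natCast_nonneg _
  set Bc := 2 * t + 4 * Real.log k + 1 with hBc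
  have hBc0 : 0 < Bc := by positivity
  set d := κ / (8 * Bc) with hd
  have hd0 : 0 < d := by positivity
  have hdB : d * Bc = κ / 8 := by rw [hd]; field_simp
  set ε := κ / 24 with hε
  have hε0 : 0 < ε := by positivity
  -- approximation of the labelling
  have hηm : Measurable (fun x => ((η x : ℕ) : ℝ)) :=
    (measurable_from_top (f := fun c : Fin k => ((c : ℕ) : ℝ))).comp hη
  have hηint : Integrable (fun x => ((η x : ℕ) : ℝ)) μ := by
    refine Integrable.of_bound hηm.aestronglyMeasurable (k : ℝ) (Eventually.of_forall fun x => ?_)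
    rw [Real.norm_eq_abs, abs_of_nonneg (by positivity)]
    exact_mod_cast (η x).isLt.le
  obtain ⟨g, hgc, hgi, hgcont, hgint⟩ :=
    hηint.exists_hasCompactSupport_integral_sub_le (show 0 < d ^ 2 by positivity)
  set v : ℝ → ℝ := fun x => ‖((η x : ℕ) : ℝ) - g x‖ with hv
  have hvint : Integrable v μ := (hηint.sub hgint).norm
  have hv0 : ∀ x, 0 ≤ v x := fun x => norm_nonneg _
  have huc := hgc.uniformContinuous_of_continuous hgcont
  obtain ⟨δ0, hδ0, hδ0g⟩ := Metric.uniformContinuous_iff.mp huc (1 / 3) (by norm_num)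
  -- eventual conditions
  have e1 := (ENNReal.tendsto_toReal ENNReal.zero_ne_top).comp (tendsto_bad_one hμ hε0 hlim)
  have e2 := (ENNReal.tendsto_toReal ENNReal.zero_ne_top).comp
    (tendsto_bad_two hB ha hμ hlam hε0)
  have e3 : Tendsto (fun n : ℕ => Real.exp (-(ε * (n : ℝ)))) atTop (𝓝 0) :=
    Real.tendsto_exp_neg_atTop_nhds_zero.comp
      ((tendsto_id.const_mul_atTop hε0).comp tendsto_natCast_atTop_atTop)
  have c1 := e1.eventually_lt_const (show (0 : ℝ≥0∞).toReal < d / 2 by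
    simpa using (by positivity : 0 < d / 2))
  have c2 := e2.eventually_lt_const (show (0 : ℝ≥0∞).toReal < d / 2 by
    simpa using (by positivity : 0 < d / 2))
  have c3 := e3.eventually_lt_const (show (0 : ℝ) < 1 / 10 by norm_num)
  have c4 := e3.eventually_lt_const (show (0 : ℝ) < δ0 / 5 by positivity)
  filter_upwards [c1, c2, c3, c4, eventually_gt_atTop 0,
    eventually_ge_atTop (⌈24 / (5 * κ)⌉₊)] with n h1 h2 h3 h4 hn hn2
  have hn' : (0 : ℝ) < n := by exact_mod_cast hn
  set δ := Real.exp (-(ε * (n : ℝ))) with hδ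
  have hδpos : 0 < δ := Real.exp_pos _
  set s := Real.exp (-((lam + ε) / 2 * n)) with hs
  have hs0 : 0 < s := Real.exp_pos _
  set Q := s ^ 2 with hQ
  have hQ0 : 0 < Q := by positivity
  simp only [Function.comp] at h1 h2
  set B1 := {x | Irrational x ∧ P a x n < s} with hB1
  set B2 := {x | x ∈ Ico (a - 1) a ∧ s ≤ P a x n ∧
      ∃ i, i ≤ n ∧ ((T a)^[i] x < a - 1 + δ ∨ a - δ < (T a)^[i] x)} with hB2
  set B3 := {x | d * n / 3 ≤ birkhoffSum (T a) v n x} with hB3
  set B0 := {x | ¬ (x ∈ Ico (a - 1) a ∧ Irrational x)} with hB0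
  have hm0 : μ.real B0 = 0 := by
    rw [measureReal_def, measure_not_good hμ]; simp
  have hm3 : μ.real B3 ≤ 3 * d := measure_birkhoff_ge hμ.inv hvint hv0 hd0 hgi hn
  set G : Set ℝ := (B0 ∪ B1 ∪ B2 ∪ B3)ᶜ with hGdef
  have hGc : μ.real Gᶜ ≤ 4 * d := by
    rw [hGdef, compl_compl]
    have u1 := measureReal_union_le (μ := μ) (B0 ∪ B1 ∪ B2) B3
    have u2 := measureReal_union_le (μ := μ) (B0 ∪ B1) B2
    have u3 := measureReal_union_le (μ := μ) B0 B1
    have h1' : μ.real B1 < d / 2 := h1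
    have h2' : μ.real B2 < d / 2 := h2
    linarith
  set V : Finset (Fin n → Fin k) := Finset.univ.filter fun w =>
    ∃ x ∈ G, itin (T a) η n x = w with hVdef
  have hVc : μ.real {x | itin (T a) η n x ∉ V} ≤ 4 * d := by
    refine le_trans (measureReal_mono ?_) hGc
    intro x hx hxG
    apply hx
    rw [hVdef, Finset.mem_filter]
    exact ⟨Finset.mem_univ _, x, hxG, rfl⟩
  have hent := partEntropy_le μ (itin (T a) η n)
    (fun w => measurable_itin hη n (measurableSet_singleton w)) V hVc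
  have hcardV := card_words_le hC ha η (v := v) (n := n) (δ := δ) (Q := Q) (d := d) (t := t)
    hδpos h3 hQ0 ht (by
      intro x y hx hy hxy
      have hxy' : dist x y < δ0 := by
        rw [Real.dist_eq]
        have : δ ^ 2 ≤ δ := by nlinarith
        linarith
      have hg := hδ0g hxy'
      rw [Real.dist_eq] at hg
      have hx' : |((η x : ℕ) : ℝ) - g x| < 1 / 3 := hx
      have hy' : |((η y : ℕ) : ℝ) - g y| < 1 / 3 := hy
      have hlt : |((η x : ℕ) : ℝ) - ((η y : ℕ) : ℝ)| < 1 := by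
        rw [abs_lt] at *
        constructor <;> linarith [hx'.1, hx'.2, hy'.1, hy'.2, hg.1, hg.2]
      have hlt' : |((η x : ℕ) : ℤ) - ((η y : ℕ) : ℤ)| < 1 := by exact_mod_cast hlt
      have := Int.abs_lt_one_iff.mp hlt'
      apply Fin.ext
      omega) G (by
      intro x hx
      rw [hGdef, mem_compl_iff, mem_union, mem_union, mem_union, not_or, not_or, not_or] at hx
      obtain ⟨⟨⟨hx0, hx1⟩, hx2⟩, hx3⟩ := hx
      rw [hB0, mem_ofPred_eq, not_not] at hx0
      rw [hB1, mem_ofPred_eq, not_and, not_lt] at hx1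
      have hsP := hx1 hx0.2
      rw [hB3, mem_ofPred_eq, not_le] at hx3
      refine ⟨hx0.1, hx0.2, ?_, ?_, ?_⟩
      · rw [hQ]; gcongr
      · intro i hi1 hi2
        by_contra hcon
        apply hx2
        refine ⟨hx0.1, hsP, i, hi2, ?_⟩
        by_contra hcon2
        push Not at hcon2
        exact hcon hcon2
      · have hle : ((Finset.univ.filter fun i : Fin n =>
            1 / 3 ≤ v ((T a)^[i] x)).card : ℝ) * (1 / 3) ≤ birkhoffSum (T a) v n x := by
          unfold birkhoffSum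
          rw [Finset.sum_range fun i => v ((T a)^[i] x)]
          calc ((Finset.univ.filter fun i : Fin n =>
              1 / 3 ≤ v ((T a)^[i] x)).card : ℝ) * (1 / 3) =
              ∑ i ∈ (Finset.univ.filter fun i : Fin n => 1 / 3 ≤ v ((T a)^[i] x)), (1 / 3 : ℝ) := by
                rw [Finset.sum_const, nsmul_eq_mul]
            _ ≤ ∑ i ∈ (Finset.univ.filter fun i : Fin n => 1 / 3 ≤ v ((T a)^[i] x)),
                v ((T a)^[i] x) := Finset.sum_le_sum fun i hi => (Finset.mem_filter.mp hi).2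
            _ ≤ _ := Finset.sum_le_sum_of_subset_of_nonneg (Finset.subset_univ _)
                fun _ _ _ => hv0 _
        linarith)
      V (fun w hw => (Finset.mem_filter.mp hw).2)
  -- logarithm of the number of words
  have hδQ : δ ^ 2 * Q = Real.exp (-((lam + 3 * ε) * n)) := by
    rw [hQ, hδ, hs, ← Real.exp_nat_mul, ← Real.exp_nat_mul, ← Real.exp_add]
    congr 1
    push_cast
    ring
  set Y := Real.log 2 + (lam + 3 * ε) * n + (t * (2 * (d * n)) + n * (k * Real.exp (-t)))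
    with hY
  have hY0 : 0 ≤ Y := by
    have := Real.log_nonneg (show (1 : ℝ) ≤ 2 by norm_num)
    positivity
  have hcard2 : (V.card : ℝ) ≤ Real.exp Y := by
    refine hcardV.trans ?_
    rw [hδQ, hY, Real.exp_add (Real.log 2 + (lam + 3 * ε) * n)]
    refine mul_le_mul_of_nonneg_right ?_ (Real.exp_pos _).le
    rw [Real.exp_add, Real.exp_log (by norm_num), one_div, ← Real.exp_neg, neg_neg]
    have : 1 ≤ Real.exp ((lam + 3 * ε) * n) := Real.one_le_exp (by positivity)
    linarith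
  have hlogV : Real.log V.card ≤ Y := by
    rcases Nat.eq_zero_or_pos V.card with h | h
    · rw [h]; simpa using hY0
    · calc Real.log V.card ≤ Real.log (Real.exp Y) :=
          Real.log_le_log (by exact_mod_cast h) hcard2
        _ = Y := Real.log_exp Y
  have hcw : Real.log (Fintype.card (Fin n → Fin k)) = n * Real.log k := by
    rw [Fintype.card_fun, Fintype.card_fin, Fintype.card_fin]
    push_cast
    rw [Real.log_pow]
  rw [hcw] at hent
  rw [div_le_iff₀ hn']
  have hlog2 : Real.log 2 ≤ 1 := by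
    have := Real.log_two_lt_d9
    linarith
  have hn3 : 24 / (5 * κ) ≤ (n : ℝ) := (Nat.le_ceil _).trans (by exact_mod_cast hn2)
  rw [div_le_iff₀ (by positivity)] at hn3
  have hdB' : d * (2 * t) + 4 * (d * Real.log k) + d = κ / 8 := by
    rw [← hdB, hBc]; ring
  have hfin : (n : ℝ) * (d * (2 * t) + 4 * (d * Real.log k)) ≤ n * (κ / 8) :=
    mul_le_mul_of_nonneg_left (by linarith) hn'.le
  have hfin2 : (n : ℝ) * (k * Real.exp (-t)) ≤ n * (κ / 8) :=
    mul_le_mul_of_nonneg_left htk hn'.le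
  have h3ε : 3 * ε = κ / 8 := by rw [hε]; ring
  rw [hY] at hlogV
  rw [h3ε] at hlogV
  nlinarith

theorem ks_le {C : ℝ} (hB : RenewalBound C) (hC : Comparable) {a : ℝ} (ha : a ∈ Ico (1 / 2 : ℝ) 1)
    {μ : Measure ℝ} (hμ : IsAcip a μ) {lam : ℝ} (hlam : 0 < lam)
    (hlim : ∀ᵐ x ∂μ, Tendsto (fun n : ℕ => birkhoffSum (T a) psi n x / n) atTop (𝓝 lam)) :
    ksEntropy μ (T a) ≤ (lam : EReal) := by
  unfold ksEntropy
  refine iSup_le fun k => iSup_le fun η => iSup_le fun hη => ?_
  by_contra hcon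
  push Not at hcon
  obtain ⟨r, hr1, hr2⟩ := EReal.lt_iff_exists_real_btwn.mp hcon
  have hr1' : lam < r := by exact_mod_cast hr1
  have h := partEntropy_eventually_le hB hC ha hμ hlam hlim hη (sub_pos.mpr hr1')
  have h2 : entropyRate μ (T a) η ≤ (r : EReal) := by
    unfold entropyRate
    refine limsup_le_of_le (by isBoundedDefault) ?_
    filter_upwards [h] with n hn
    have : partEntropy μ (itin (T a) η n) / n ≤ r := by linarith
    exact_mod_cast this
  exact absurd (hr2.trans_le h2) (lt_irrefl _)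

end TanakaIto
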