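import Pool.Agent.TI.Defs

/-! Tanaka-Ito continued fraction maps: basic facts. -/

open MeasureTheory Filter Topology Set
open scoped ENNReal

namespace TanakaIto

lemma T_zero (a : ℝ) : T a 0 = 0 := by simp [T]

lemma T_of_ne {a x : ℝ} (hx : x ≠ 0) : T a x = 1 / x - (dig a x : ℝ) := by
  simp [T, dig, hx]

lemma T_mem_Ico {a x : ℝ} (ha : a ∈ Ioo (0:ℝ) 1) : T a x ∈ Ico (a - 1) a := by
  by_cases hx : x = 0
  · subst hx
    rw [T_zero]
    exact ⟨by linarith [ha.2], ha.1⟩
  · rw [T_of_ne hx, dig]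
    have h1 := Int.floor_le (1 / x + 1 - a)
    have h2 := Int.lt_floor_add_one (1 / x + 1 - a)
    constructor <;> linarith

lemma T_mem_Ioo {a x : ℝ} (ha : a ∈ Ioo (0:ℝ) 1) : T a x ∈ Ioo (-1:ℝ) 1 := by
  have h := T_mem_Ico (x := x) ha
  constructor
  · linarith [h.1, ha.1]
  · linarith [h.2, ha.2]

/-- Characterisation of the value of T. -/
lemma T_eq_of {a x z : ℝ} (hx : x ≠ 0) (m : ℤ) (h : 1 / x - m = z) (h1 : a - 1 ≤ z)
    (h2 : z < a) : T a x = z := by
  rw [T_of_ne hx, dig]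
  have : ⌊1 / x + 1 - a⌋ = m := by
    rw [Int.floor_eq_iff]
    constructor <;> linarith
  rw [this, h]

lemma dig_eq_of {a x : ℝ} (m : ℤ) (h1 : a - 1 ≤ 1 / x - m) (h2 : 1 / x - m < a) :
    dig a x = m := by
  rw [dig, Int.floor_eq_iff]
  constructor <;> linarith

lemma irrational_T {a x : ℝ} (hx : Irrational x) : Irrational (T a x) := by
  have hx0 : x ≠ 0 := hx.ne_zero
  rw [T_of_ne hx0, one_div]
  exact (irrational_inv_iff.mpr hx).sub_intCast _

lemma irrational_iter {a x : ℝ} (hx : Irrational x) (k : ℕ) : Irrational ((T a)^[k] x) := by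
  induction k with
  | zero => simpa using hx
  | succ k ih => rw [Function.iterate_succ_apply']; exact irrational_T ih

lemma iter_mem_Ioo {a x : ℝ} (ha : a ∈ Ioo (0:ℝ) 1) (hx : x ∈ Ioo (-1:ℝ) 1) (k : ℕ) :
    (T a)^[k] x ∈ Ioo (-1:ℝ) 1 := by
  cases k with
  | zero => simpa using hx
  | succ k => rw [Function.iterate_succ_apply']; exact T_mem_Ioo ha

lemma iter_mem_Ico {a x : ℝ} (ha : a ∈ Ioo (0:ℝ) 1) (hx : x ∈ Ico (a - 1) a) (k : ℕ) :
    (T a)^[k] x ∈ Ico (a - 1) a := by
  cases k with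
  | zero => simpa using hx
  | succ k => rw [Function.iterate_succ_apply']; exact T_mem_Ico ha

lemma P_zero (a x : ℝ) : P a x 0 = 1 := by simp [P]

lemma P_succ (a x : ℝ) (k : ℕ) : P a x (k + 1) = P a x k * |(T a)^[k] x| := by
  simp [P, Finset.prod_range_succ]

lemma P_succ' (a x : ℝ) (k : ℕ) : P a x (k + 1) = |x| * P a (T a x) k := by
  simp only [P, Finset.prod_range_succ', Function.iterate_succ_apply, Function.iterate_zero_apply]
  rw [mul_comm]

lemma P_add (a x : ℝ) (m k : ℕ) : P a x (m + k) = P a x m * P a ((T a)^[m] x) k := by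
  induction k with
  | zero => simp [P_zero]
  | succ k ih =>
    rw [← add_assoc, P_succ, ih, P_succ, mul_assoc, ← Function.iterate_add_apply, add_comm k m]

lemma P_nonneg (a x : ℝ) (k : ℕ) : 0 ≤ P a x k :=
  Finset.prod_nonneg fun _ _ => abs_nonneg _

lemma P_pos {a x : ℝ} (hx : Irrational x) (k : ℕ) : 0 < P a x k :=
  Finset.prod_pos fun i _ => abs_pos.mpr (irrational_iter hx i).ne_zero

lemma P_succ_le {a x : ℝ} (ha : a ∈ Ioo (0:ℝ) 1) (hx : x ∈ Ioo (-1:ℝ) 1) (k : ℕ) :
    P a x (k + 1) ≤ P a x k := by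
  rw [P_succ]
  have h := iter_mem_Ioo ha hx k
  have h1 : |(T a)^[k] x| ≤ 1 := abs_le.mpr ⟨h.1.le, h.2.le⟩
  nlinarith [P_nonneg a x k, abs_nonneg ((T a)^[k] x)]

lemma P_succ_lt {a x : ℝ} (ha : a ∈ Ioo (0:ℝ) 1) (hx : x ∈ Ioo (-1:ℝ) 1)
    (hi : Irrational x) (k : ℕ) : P a x (k + 1) < P a x k := by
  rw [P_succ]
  have h := iter_mem_Ioo ha hx k
  have h1 : |(T a)^[k] x| < 1 := abs_lt.mpr ⟨h.1, h.2⟩
  nlinarith [P_pos (a := a) hi k]

lemma P_antitone {a x : ℝ} (ha : a ∈ Ioo (0:ℝ) 1) (hx : x ∈ Ioo (-1:ℝ) 1) :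
    Antitone (P a x) :=
  antitone_nat_of_succ_le (P_succ_le ha hx)

lemma P_strictAnti {a x : ℝ} (ha : a ∈ Ioo (0:ℝ) 1) (hx : x ∈ Ioo (-1:ℝ) 1)
    (hi : Irrational x) : StrictAnti (P a x) :=
  strictAnti_nat_of_succ_lt (P_succ_lt ha hx hi)

lemma P_le_one {a x : ℝ} (ha : a ∈ Ioo (0:ℝ) 1) (hx : x ∈ Ioo (-1:ℝ) 1) (k : ℕ) :
    P a x k ≤ 1 := by
  have := P_antitone ha hx (Nat.zero_le k)
  rwa [P_zero] at this

/-- Two consecutive steps contract by at least one half. -/
lemma abs_mul_abs_T_le {a x : ℝ} (ha : a ∈ Ioo (0:ℝ) 1) (hx : x ∈ Ico (a - 1) a) :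
    |x| * |T a x| ≤ 1 / 2 := by
  obtain ⟨ha0, ha1⟩ := ha
  obtain ⟨hx1, hx2⟩ := hx
  by_cases hx0 : x = 0
  · subst hx0; simp
  have ht := T_mem_Ico (x := x) (a := a) ⟨ha0, ha1⟩
  obtain ⟨ht1, ht2⟩ := ht
  have heq : x * T a x = 1 - (dig a x : ℝ) * x := by
    rw [T_of_ne hx0]; field_simp
  set t := T a x with htdef
  set n := dig a x with hn
  rw [← abs_mul]
  by_contra hcon
  push Not at hcon
  rcases lt_abs.mp hcon with h | h
  · -- x * t > 1/2
    rcases lt_trichotomy x 0 with hx | hx | hx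
    · have htneg : t < 0 := by
        by_contra h'
        push Not at h'
        nlinarith
      have hxlt : x < -1 / 2 := by nlinarith
      have hn1 : (-1 : ℝ) < n := by nlinarith
      have hn2 : (0 : ℤ) ≤ n := by
        have : (-1 : ℤ) < n := by exact_mod_cast hn1
        omega
      have hn3 : (0 : ℝ) ≤ n := by exact_mod_cast hn2
      nlinarith
    · exact hx0 hx
    · have htpos : 0 < t := by
        by_contra h'
        push Not at h'
        nlinarith
      have hxgt : 1 / 2 < x := by nlinarith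
      have hn1 : (n : ℝ) < 1 := by nlinarith
      have hn2 : n ≤ (0 : ℤ) := by
        have : n < (1 : ℤ) := by exact_mod_cast hn1
        omega
      have hn3 : (n : ℝ) ≤ 0 := by exact_mod_cast hn2
      nlinarith
  · -- x * t < -1/2
    rcases lt_trichotomy x 0 with hx | hx | hx
    · have htpos : 0 < t := by
        by_contra h'
        push Not at h'
        nlinarith
      nlinarith
    · exact hx0 hx
    · have htneg : t < 0 := by
        by_contra h'
        push Not at h'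
        nlinarith
      nlinarith

lemma P_add_two_le {a x : ℝ} (ha : a ∈ Ioo (0:ℝ) 1) (m : ℕ) :
    P a x (m + 1 + 2) ≤ P a x (m + 1) * (1 / 2) := by
  rw [P_add]
  have h : (T a)^[m + 1] x ∈ Ico (a - 1) a := by
    rw [Function.iterate_succ_apply']; exact T_mem_Ico ha
  have h2 : P a ((T a)^[m + 1] x) 2 = |(T a)^[m + 1] x| * |T a ((T a)^[m + 1] x)| := by
    simp [P, Finset.prod_range_succ]
  rw [h2]
  exact mul_le_mul_of_nonneg_left (abs_mul_abs_T_le ha h) (P_nonneg _ _ _)

lemma P_le_half_pow {a x : ℝ} (ha : a ∈ Ioo (0:ℝ) 1) (hx : x ∈ Ioo (-1:ℝ) 1) (k : ℕ) :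
    P a x (2 * k + 1) ≤ (1 / 2) ^ k := by
  induction k with
  | zero => simpa using P_le_one ha hx 1
  | succ k ih =>
    have h := P_add_two_le (x := x) ha (2 * k)
    rw [show 2 * (k + 1) + 1 = 2 * k + 1 + 2 by ring, pow_succ]
    linarith

lemma exists_P_lt {a x s : ℝ} (ha : a ∈ Ioo (0:ℝ) 1) (hx : x ∈ Ioo (-1:ℝ) 1) (hs : 0 < s) :
    ∃ k, P a x k < s := by
  obtain ⟨k, hk⟩ := exists_pow_lt_of_lt_one hs (by norm_num : (1 / 2 : ℝ) < 1)
  exact ⟨2 * k + 1, (P_le_half_pow ha hx k).trans_lt hk⟩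

lemma P_N_lt {a x s : ℝ} (ha : a ∈ Ioo (0:ℝ) 1) (hx : x ∈ Ioo (-1:ℝ) 1) (hs : 0 < s) :
    P a x (N a s x) < s :=
  Nat.sInf_mem (s := {k : ℕ | P a x k < s}) (exists_P_lt ha hx hs)

lemma lt_N_iff {a x s : ℝ} (ha : a ∈ Ioo (0:ℝ) 1) (hx : x ∈ Ioo (-1:ℝ) 1) (hs : 0 < s)
    (k : ℕ) : k < N a s x ↔ s ≤ P a x k := by
  constructor
  · intro h
    by_contra h'
    push Not at h'
    exact absurd (Nat.sInf_le (s := {k : ℕ | P a x k < s}) h') (not_le.mpr h)
  · intro h
    by_contra h'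
    push Not at h'
    exact absurd ((P_antitone ha hx h').trans_lt (P_N_lt ha hx hs)) (not_lt.mpr h)

lemma N_le_iff {a x s : ℝ} (ha : a ∈ Ioo (0:ℝ) 1) (hx : x ∈ Ioo (-1:ℝ) 1) (hs : 0 < s)
    (k : ℕ) : N a s x ≤ k ↔ P a x k < s := by
  rw [← not_lt, lt_N_iff ha hx hs, not_le]

lemma N_eq_zero {a x s : ℝ} (hs : 1 < s) : N a s x = 0 := by
  have : (0 : ℕ) ∈ {k : ℕ | P a x k < s} := by simpa [P_zero] using hs
  exact Nat.le_zero.mp (Nat.sInf_le this)

/-- Unrolling of the counting function. -/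
lemma N_unroll {a x s : ℝ} (ha : a ∈ Ioo (0:ℝ) 1) (hx : x ∈ Ioo (-1:ℝ) 1) (hi : Irrational x)
    (hs : 0 < s) (m : ℕ) (hm : s ≤ P a x m * 1 ∨ 1 ≤ m ∧ s ≤ P a x (m - 1)) :
    N a s x = m + N a (s / P a x m) ((T a)^[m] x) := by
  have hP := P_pos (a := a) hi m
  have hx' := iter_mem_Ioo ha hx m
  have hs' : 0 < s / P a x m := div_pos hs hP
  have hmN : m ≤ N a s x := by
    rcases hm with h | ⟨h1, h2⟩
    · exact ((lt_N_iff ha hx hs m).mpr (by simpa using h)).le
    · have := (lt_N_iff ha hx hs (m - 1)).mpr h2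
      omega
  apply le_antisymm
  · rw [N_le_iff ha hx hs, P_add]
    have := P_N_lt ha hx' hs'
    rw [lt_div_iff₀ hP] at this
    linarith [mul_comm (P a x m) (P a ((T a)^[m] x) (N a (s / P a x m) ((T a)^[m] x)))]
  · obtain ⟨j, hj⟩ := Nat.exists_eq_add_of_le hmN
    rw [hj]
    apply Nat.add_le_add_left
    rw [N_le_iff ha hx' hs', lt_div_iff₀ hP, mul_comm, ← P_add, ← hj]
    exact P_N_lt ha hx hs

lemma N_succ {a x s : ℝ} (ha : a ∈ Ioo (0:ℝ) 1) (hx : x ∈ Ioo (-1:ℝ) 1) (hi : Irrational x)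
    (hs : 0 < s) (hs1 : s ≤ 1) : N a s x = 1 + N a (s / |x|) (T a x) := by
  have h := N_unroll ha hx hi hs 1 (Or.inr ⟨le_refl _, by simpa [P_zero] using hs1⟩)
  simpa [P] using h

lemma N_pos {a x s : ℝ} (ha : a ∈ Ioo (0:ℝ) 1) (hx : x ∈ Ioo (-1:ℝ) 1)
    (hs : 0 < s) (hs1 : s ≤ 1) : 0 < N a s x := by
  rw [lt_N_iff ha hx hs, P_zero]; exact hs1

/-- Growth bound for the counting function. -/
lemma N_le_log {a x s : ℝ} (ha : a ∈ Ioo (0:ℝ) 1) (hx : x ∈ Ioo (-1:ℝ) 1)
    (hs : 0 < s) (hs1 : s ≤ 1) : (N a s x : ℝ) ≤ 3 * Real.log (1 / s) + 4 := by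
  have hlog : 0 ≤ Real.log (1 / s) := Real.log_nonneg (by rw [le_div_iff₀ hs]; linarith)
  set L := Real.log (1 / s) with hL
  set k := ⌊L / Real.log 2⌋₊ + 1 with hk
  have hl2 : 0 < Real.log 2 := Real.log_pos (by norm_num)
  have hl2' : (0.6931471803 : ℝ) < Real.log 2 := Real.log_two_gt_d9
  have hk1 : L / Real.log 2 < k := by
    rw [hk]; push_cast; exact Nat.lt_floor_add_one _
  have hpow : (1 / 2 : ℝ) ^ k < s := by
    have h1 : L < k * Real.log 2 := by rwa [div_lt_iff₀ hl2] at hk1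
    have h2 : Real.log ((1 / 2 : ℝ) ^ k) < Real.log s := by
      rw [Real.log_pow, Real.log_div one_ne_zero two_ne_zero, Real.log_one]
      have : L = - Real.log s := by rw [hL, Real.log_div one_ne_zero hs.ne', Real.log_one]; ring
      linarith
    exact (Real.log_lt_log_iff (by positivity) hs).mp h2
  have h := (N_le_iff ha hx hs (2 * k + 1)).mpr ((P_le_half_pow ha hx k).trans_lt hpow)
  have hk2 : (k : ℝ) ≤ L / Real.log 2 + 1 := by
    rw [hk]; push_cast
    linarith [Nat.floor_le (div_nonneg hlog hl2.le)]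
  have h3 : L / Real.log 2 ≤ (3 / 2) * L := by
    rw [div_le_iff₀ hl2]
    nlinarith
  have h4 : (N a s x : ℝ) ≤ 2 * k + 1 := by exact_mod_cast h
  linarith

lemma N_anti {a x s s' : ℝ} (ha : a ∈ Ioo (0:ℝ) 1) (hx : x ∈ Ioo (-1:ℝ) 1)
    (hs : 0 < s) (hss : s ≤ s') : N a s' x ≤ N a s x := by
  rw [N_le_iff ha hx (hs.trans_le hss)]
  exact (P_N_lt ha hx hs).trans_le hss

/-- Window bound. -/
lemma N_le_N_add {a x s r : ℝ} (ha : a ∈ Ioo (0:ℝ) 1) (hx : x ∈ Ioo (-1:ℝ) 1)
    (hi : Irrational x) (hs : 0 < s) (hr : 0 < r) (hr1 : r ≤ 1) :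
    (N a (s * r) x : ℝ) ≤ N a s x + (3 * Real.log (1 / r) + 4) := by
  have hsr : 0 < s * r := mul_pos hs hr
  have hx' := iter_mem_Ioo ha hx (N a s x)
  by_cases hle : s * r ≤ P a x (N a s x)
  · rw [N_unroll ha hx hi hsr (N a s x) (Or.inl (by simpa using hle))]
    push_cast
    have hP := P_pos (a := a) hi (N a s x)
    have hlt := P_N_lt ha hx hs
    have h1 : r ≤ s * r / P a x (N a s x) := by
      rw [le_div_iff₀ hP]; nlinarith
    have h2 := N_anti ha hx' hr h1
    have h3 := N_le_log ha hx' hr hr1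
    have h2' : (N a (s * r / P a x (N a s x)) ((T a)^[N a s x] x) : ℝ) ≤
        N a r ((T a)^[N a s x] x) := by exact_mod_cast h2
    linarith
  · push Not at hle
    have h1 := (N_le_iff ha hx hsr (N a s x)).mpr hle
    have h1' : (N a (s * r) x : ℝ) ≤ N a s x := by exact_mod_cast h1
    have h2 : 0 ≤ Real.log (1 / r) := Real.log_nonneg (by rw [le_div_iff₀ hr]; linarith)
    linarith

lemma measurable_dig (a : ℝ) : Measurable (dig a) := by
  unfold dig
  exact Int.measurable_floor.comp (by fun_prop)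

lemma measurable_T (a : ℝ) : Measurable (T a) := by
  unfold T
  refine Measurable.ite (measurableSet_singleton 0) measurable_const ?_
  have : Measurable (fun x : ℝ => (1 / x + 1 - a)) := by fun_prop
  have h2 : Measurable (fun x : ℝ => ((⌊1 / x + 1 - a⌋ : ℤ) : ℝ)) :=
    (measurable_from_top (f := fun m : ℤ => (m : ℝ))).comp (Int.measurable_floor.comp this)
  fun_prop

lemma measurable_P (a : ℝ) (k : ℕ) : Measurable (fun x => P a x k) := by
  unfold P
  refine Finset.measurable_prod _ fun i _ => ?_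
  exact ((measurable_T a).iterate i).norm

lemma measurable_psi : Measurable psi := by
  unfold psi
  fun_prop

lemma psi_nonneg {x : ℝ} (hx : x ∈ Icc (-1:ℝ) 1) : 0 ≤ psi x := by
  unfold psi
  have : Real.log |x| ≤ 0 := Real.log_nonpos (abs_nonneg _) (abs_le.mpr ⟨hx.1, hx.2⟩)
  linarith

/-- The Birkhoff sum of psi is the logarithm of the product. -/
lemma birkhoffSum_psi {a x : ℝ} (hi : Irrational x) (n : ℕ) :
    birkhoffSum (T a) psi n x = -2 * Real.log (P a x n) := by
  induction n with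
  | zero => simp [P_zero]
  | succ n ih =>
    rw [birkhoffSum_succ, ih, P_succ, Real.log_mul (P_pos hi n).ne'
      (abs_pos.mpr (irrational_iter hi n).ne_zero).ne', psi]
    ring

/-- Exact distance formula for two points with the same first n digits. -/
lemma abs_sub_eq {a x y : ℝ} (hx : Irrational x) (hy : Irrational y) (n : ℕ)
    (h : ∀ i < n, dig a ((T a)^[i] x) = dig a ((T a)^[i] y)) :
    |x - y| = P a x n * P a y n * |(T a)^[n] x - (T a)^[n] y| := by
  induction n with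
  | zero => simp [P_zero]
  | succ n ih =>
    rw [ih fun i hi => h i (hi.trans (Nat.lt_succ_self n)), P_succ, P_succ,
      Function.iterate_succ_apply', Function.iterate_succ_apply']
    have hx0 := (irrational_iter (a := a) hx n).ne_zero
    have hy0 := (irrational_iter (a := a) hy n).ne_zero
    rw [T_of_ne hx0, T_of_ne hy0, h n (Nat.lt_succ_self n)]
    set u := (T a)^[n] x
    set v := (T a)^[n] y
    have : 1 / u - (dig a v : ℝ) - (1 / v - (dig a v : ℝ)) = (v - u) / (u * v) := by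
      field_simp
      ring
    rw [this, abs_div, abs_mul, abs_sub_comm v u]
    have hu := abs_pos.mpr hx0
    have hv := abs_pos.mpr hy0
    field_simp

lemma measurable_N (a s : ℝ) : Measurable (N a s) := by
  refine measurable_to_countable' fun k => ?_
  have key : N a s ⁻¹' {k} =
      ({x | P a x k < s} ∩ ⋂ j ∈ Finset.range k, {x | P a x j < s}ᶜ) ∪
        ({x | k = 0} ∩ ⋂ j : ℕ, {x | P a x j < s}ᶜ) := by
    ext x
    simp only [mem_preimage, mem_singleton_iff, mem_union, mem_inter_iff, mem_setOf_eq,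
      mem_iInter, mem_compl_iff, Finset.mem_range]
    by_cases hne : ∃ j, P a x j < s
    · constructor
      · intro h
        left
        have h1 : N a s x ∈ {k : ℕ | P a x k < s} :=
          Nat.sInf_mem (s := {k : ℕ | P a x k < s}) hne
        rw [h] at h1
        refine ⟨h1, fun j hj hcon => ?_⟩
        have := Nat.sInf_le (s := {k : ℕ | P a x k < s}) hcon
        change N a s x ≤ j at this
        omega
      · rintro (⟨h1, h2⟩ | ⟨_, h2⟩)
        · apply le_antisymm
          · exact Nat.sInf_le (s := {k : ℕ | P a x k < s}) h1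
          · by_contra h'
            push Not at h'
            exact h2 _ h' (Nat.sInf_mem (s := {k : ℕ | P a x k < s}) hne)
        · obtain ⟨j, hj⟩ := hne
          exact absurd hj (h2 j)
    · have hempty : {k : ℕ | P a x k < s} = ∅ := by
        ext j
        simp only [mem_setOf_eq, mem_empty_iff_false, iff_false]
        exact fun hj => hne ⟨j, hj⟩
      have hN : N a s x = 0 := by
        unfold N
        rw [hempty, Nat.sInf_empty]
      push Not at hne
      rw [hN]
      constructor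
      · intro h
        right
        exact ⟨h.symm, fun j => not_lt.mpr (hne j)⟩
      · rintro (⟨h1, _⟩ | ⟨h1, _⟩)
        · exact absurd h1 (not_lt.mpr (hne k))
        · exact h1.symm
  rw [key]
  have hm : ∀ j : ℕ, MeasurableSet {x | P a x j < s} := fun j =>
    measurableSet_lt (measurable_P a j) measurable_const
  refine MeasurableSet.union ((hm k).inter ?_) (MeasurableSet.inter (by simp) ?_)
  · exact Finset.measurableSet_biInter _ fun j _ => (hm j).compl
  · exact MeasurableSet.iInter fun j => (hm j).compl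

end TanakaIto
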