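import Mathlib

/-! Tanaka-Ito continued fraction maps: definitions. -/

open MeasureTheory Filter Topology Set
open scoped ENNReal

namespace TanakaIto

/-- The Tanaka-Ito map with parameter a. -/
noncomputable def T (a x : ℝ) : ℝ :=
  if x = 0 then 0 else 1 / x - ((⌊1 / x + 1 - a⌋ : ℤ) : ℝ)

/-- The measure mu is an absolutely continuous invariant probability measure of the
Tanaka-Ito map with parameter a on the interval from a - 1 to a. -/
structure IsAcip (a : ℝ) (μ : Measure ℝ) : Prop where
  prob : IsProbabilityMeasure μ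
  supp : μ (Icc (a - 1) a)ᶜ = 0
  ac : μ ≪ volume
  inv : MeasurePreserving (T a) μ μ

/-- Shannon entropy of the finite partition into the level sets of f. -/
noncomputable def partEntropy {Ω ι : Type*} [MeasurableSpace Ω] [Fintype ι]
    (μ : Measure Ω) (f : Ω → ι) : ℝ :=
  ∑ i, Real.negMulLog (μ.real (f ⁻¹' {i}))

/-- The itinerary of length n of a point with respect to a finite partition (given by a
labelling); its level sets are the atoms of the n-th refinement of the partition. -/
def itin {Ω : Type*} {k : ℕ} (S : Ω → Ω) (η : Ω → Fin k) (n : ℕ) (x : Ω) : Fin n → Fin k :=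
  fun i => η (S^[i] x)

/-- Entropy of the transformation S with respect to a finite partition. -/
noncomputable def entropyRate {Ω : Type*} [MeasurableSpace Ω] (μ : Measure Ω) (S : Ω → Ω)
    {k : ℕ} (η : Ω → Fin k) : EReal :=
  limsup (fun n : ℕ => ((partEntropy μ (itin S η n) / n : ℝ) : EReal)) atTop

/-- Kolmogorov-Sinai entropy: supremum over all finite measurable partitions. -/
noncomputable def ksEntropy {Ω : Type*} [MeasurableSpace Ω] (μ : Measure Ω) (S : Ω → Ω) :
    EReal :=
  ⨆ (k : ℕ) (η : Ω → Fin k) (_ : Measurable η), entropyRate μ S η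

/-- The product of the absolute values of the first k points of the orbit. -/
noncomputable def P (a x : ℝ) (k : ℕ) : ℝ := ∏ i ∈ Finset.range k, |(T a)^[i] x|

/-- The number of k with s ≤ P a x k. -/
noncomputable def N (a s x : ℝ) : ℕ := sInf {k : ℕ | P a x k < s}

/-- The digit. -/
noncomputable def dig (a x : ℝ) : ℤ := ⌊1 / x + 1 - a⌋

/-- The potential, the logarithm of the absolute value of the derivative of T. -/
noncomputable def psi (x : ℝ) : ℝ := -2 * Real.log |x|

/-- Renewal bound for the parameters from 1/2 to 1 with an absolute constant C. -/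
def RenewalBound (C : ℝ) : Prop :=
  ∀ a ∈ Ico (1 / 2 : ℝ) 1, ∀ s ∈ Ioc (0 : ℝ) 1, ∀ f : ℝ → ℝ≥0∞, Measurable f →
    ∫⁻ x in Ico (a - 1) a, (∑' k : ℕ, if s ≤ P a x k then f ((T a)^[k] x) else 0) ≤
      ENNReal.ofReal (C * (1 + Real.log (1 / s))) * ∫⁻ x in Ico (a - 1) a, f x

/-- Points with the same first n digits have comparable products. -/
def Comparable : Prop :=
  ∀ a ∈ Ico (1 / 2 : ℝ) 1, ∀ x ∈ Ico (a - 1) a, ∀ y ∈ Ico (a - 1) a,
    Irrational x → Irrational y → ∀ n : ℕ,
    (∀ i < n, dig a ((T a)^[i] x) = dig a ((T a)^[i] y)) → P a y n ≤ 5 * P a x n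

end TanakaIto
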