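import Pool.Agent.TI.Basic

/-! Tanaka-Ito maps: bounded difference of the counting functions at x and x - 1. -/

open MeasureTheory Filter Topology Set
open scoped ENNReal

namespace TanakaIto

lemma T_congr {a x y : ℝ} (hx : x ≠ 0) (hy : y ≠ 0) (m : ℤ) (h : 1 / x = 1 / y + m) :
    T a x = T a y := by
  rw [T_of_ne hx, T_of_ne hy, dig, dig, h]
  have : 1 / y + (m : ℝ) + 1 - a = 1 / y + 1 - a + m := by ring
  rw [this, Int.floor_add_intCast]
  push_cast
  ring

/-- If the sum of the reciprocals is an integer, the sum of the images is 0 or 1. -/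
lemma T_add_T {a x y : ℝ} (ha : a ∈ Ico (1 / 2 : ℝ) 1) (hx : Irrational x) (hy : Irrational y)
    (m : ℤ) (h : 1 / x + 1 / y = m) : T a x + T a y = 0 ∨ T a x + T a y = 1 := by
  have ha' : a ∈ Ioo (0:ℝ) 1 := ⟨by linarith [ha.1], ha.2⟩
  have h1 := T_mem_Ico (x := x) ha'
  have h2 := T_mem_Ico (x := y) ha'
  have hsum : T a x + T a y = ((m - dig a x - dig a y : ℤ) : ℝ) := by
    rw [T_of_ne hx.ne_zero, T_of_ne hy.ne_zero]
    push_cast
    linarith
  set j : ℤ := m - dig a x - dig a y with hj
  have hlt : j < 2 := by
    have : (j : ℝ) < 2 := by rw [← hsum]; linarith [h1.2, h2.2, ha.2]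
    exact_mod_cast this
  have hgt : -1 ≤ j := by
    have : (-1 : ℝ) ≤ j := by rw [← hsum]; linarith [h1.1, h2.1, ha.1]
    exact_mod_cast this
  have hne : j ≠ -1 := by
    intro hcon
    rw [hcon] at hsum
    push_cast at hsum
    have h3 : T a x = -1 / 2 := by linarith [h1.1, h2.1, ha.1]
    have h4 := irrational_T (a := a) hx
    rw [h3] at h4
    exact h4 ⟨-1 / 2, by norm_num⟩
  rcases (show j = 0 ∨ j = 1 by omega) with h | h
  · left; rw [hsum, h]; simp
  · right; rw [hsum, h]; simp

lemma P_two {a x : ℝ} : P a x 2 = |x| * |T a x| := by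
  simp [P, Finset.prod_range_succ]

lemma P_three {a x : ℝ} : P a x 3 = |x| * |T a x| * |T a (T a x)| := by
  simp [P, Finset.prod_range_succ]

lemma P_four {a x : ℝ} : P a x 4 = |x| * |T a x| * |T a (T a x)| * |T a (T a (T a x))| := by
  simp [P, Finset.prod_range_succ]

/-- The automaton for the pair (u, 1 - u). -/
lemma pair_step {a u : ℝ} (ha : a ∈ Ico (1 / 2 : ℝ) 1) (hu : Irrational u) (h0 : 0 < u)
    (h1 : u < 1 / 2) :
    (∃ m, 1 ≤ m ∧ m ≤ 4 ∧ P a u m = P a (1 - u) m ∧
      ((T a)^[m] u + (T a)^[m] (1 - u) = 0 ∨ (T a)^[m] u + (T a)^[m] (1 - u) = 1)) ∨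
    (∃ k l, k ≤ 4 ∧ l ≤ 4 ∧ P a u k = P a (1 - u) l ∧ (T a)^[k] u = (T a)^[l] (1 - u)) ∨
    (∃ y, 0 < y ∧ y < 1 / 2 ∧ (T a)^[2] u = y ∧ (T a)^[3] (1 - u) = T a (1 - y) ∧
      P a (1 - u) 3 = P a u 2 * (1 - y)) := by
  obtain ⟨ha1, ha2⟩ := ha
  have hv : Irrational (1 - u) := by
    have := hu.ratCast_sub 1
    simpa using this
  have hv0 : 0 < 1 - u := by linarith
  have h2u : 0 < 1 - 2 * u := by linarith
  set w1 : ℝ := u / (1 - u) with hw1
  have hw1pos : 0 < w1 := div_pos h0 hv0
  have hw1lt : w1 < 1 := by rw [hw1, div_lt_one hv0]; linarith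
  have hinvv : 1 / (1 - u) = 1 + w1 := by rw [hw1]; field_simp; ring
  by_cases hi : w1 < a
  · -- merge (1,2)
    right; left
    have hTv : T a (1 - u) = w1 :=
      T_eq_of hv0.ne' 1 (by rw [hinvv]; push_cast; ring) (by linarith) hi
    have hTw : T a w1 = T a u := by
      refine T_congr hw1pos.ne' h0.ne' (-1) ?_
      rw [hw1]; push_cast; field_simp; ring
    refine ⟨1, 2, by norm_num, by norm_num, ?_, ?_⟩
    · rw [P_two, hTv, abs_of_pos hv0, abs_of_pos hw1pos]
      simp only [P, Finset.prod_range_one, Function.iterate_zero_apply]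
      rw [abs_of_pos h0, hw1]; field_simp
    · simp only [Function.iterate_succ_apply, Function.iterate_zero_apply]
      rw [hTv, hTw]
  · push Not at hi
    -- u ≥ a (1-u)
    have hII : a * (1 - u) ≤ u := by rwa [hw1, le_div_iff₀ hv0] at hi
    set z : ℝ := w1 - 1 with hz
    have hzneg : z < 0 := by rw [hz]; linarith
    have hTv : T a (1 - u) = z :=
      T_eq_of hv0.ne' 2 (by rw [hinvv]; push_cast; ring) (by linarith) (by linarith)
    have hzabs : |z| = (1 - 2 * u) / (1 - u) := by
      rw [abs_of_neg hzneg, hz, hw1]; field_simp; ring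
    have hzeq : z = -((1 - 2 * u) / (1 - u)) := by rw [hz, hw1]; field_simp; ring
    have hP2v : (1 - u) * |z| = 1 - 2 * u := by rw [hzabs]; field_simp
    set r : ℝ := (1 - 2 * u) / u with hr
    have hrpos : 0 < r := div_pos h2u h0
    have hinvu : 1 / u = r + 2 := by rw [hr]; field_simp; ring
    by_cases hra : r < a
    · -- REL 2
      left
      have hTu : T a u = r := T_eq_of h0.ne' 2 (by rw [hinvu]; push_cast; ring) (by linarith) hra
      have hri : Irrational r := hTu ▸ irrational_T hu
      have hzi : Irrational z := hTv ▸ irrational_T hv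
      refine ⟨2, by norm_num, by norm_num, ?_, ?_⟩
      · rw [P_two, P_two, hTv, hTu, abs_of_pos hv0, hP2v, abs_of_pos h0, abs_of_pos hrpos, hr]
        field_simp
      · simp only [Function.iterate_succ_apply, Function.iterate_zero_apply]
        rw [hTv, hTu]
        refine T_add_T ⟨ha1, ha2⟩ hri hzi (-1) ?_
        rw [hzeq, hr]; push_cast; field_simp; ring
    · push Not at hra
      have hra' : a * u ≤ 1 - 2 * u := by rwa [hr, le_div_iff₀ h0] at hra
      -- a^2 + a ≤ 1
      have hgold : a ^ 2 + a ≤ 1 := by nlinarith
      have h3u : 0 < 3 * u - 1 := by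
        have h3 : 0 ≤ 3 * u - 1 := by nlinarith
        rcases h3.lt_or_eq with h | h
        · exact h
        · exfalso
          apply hu
          refine ⟨1 / 3, ?_⟩
          push_cast
          linarith
      have hr1 : r < 1 := by rw [hr, div_lt_one h0]; linarith
      set ρ : ℝ := (3 * u - 1) / u with hρ
      have hρpos : 0 < ρ := div_pos h3u h0
      have hρr : ρ = 1 - r := by rw [hρ, hr]; field_simp; ring
      have hTu : T a u = -ρ :=
        T_eq_of h0.ne' 3 (by rw [hinvu, hρr]; push_cast; ring) (by linarith) (by linarith)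
      have hP2u : u * ρ = 3 * u - 1 := by rw [hρ]; field_simp
      set w2 : ℝ := (3 * u - 1) / (1 - 2 * u) with hw2
      have hw2pos : 0 < w2 := div_pos h3u h2u
      have hinvz : 1 / z = -2 - w2 := by
        rw [hzeq, hw2]; field_simp; ring
      by_cases hb : w2 ≤ 1 - a
      · -- merge (2,3)
        right; left
        have hTz : T a z = -w2 :=
          T_eq_of hzneg.ne (-2) (by rw [hinvz]; push_cast; ring) (by linarith) (by linarith)
        have hTw : T a (-w2) = T a (-ρ) := by
          refine T_congr (by linarith) (by linarith) 1 ?_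
          rw [hw2, hρ]; push_cast; field_simp; ring
        refine ⟨2, 3, by norm_num, by norm_num, ?_, ?_⟩
        · rw [P_two, P_three, hTv, hTu, hTz, abs_of_pos hv0, hP2v, abs_of_pos h0, abs_neg,
            abs_of_pos hρpos, hP2u, abs_neg, abs_of_pos hw2pos, hw2, mul_div_assoc',
            mul_div_cancel_left₀ _ h2u.ne']
        · simp only [Function.iterate_succ_apply, Function.iterate_zero_apply]
          rw [hTv, hTz, hTw, hTu]
      · push Not at hb
        have hI : (1 - a) * (1 - 2 * u) < 3 * u - 1 := by rwa [hw2, lt_div_iff₀ h2u] at hb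
        have hw2lt : w2 ≤ 1 := by
          rw [hw2, div_le_one h2u]; nlinarith
        set z2 : ℝ := (2 - 5 * u) / (1 - 2 * u) with hz2
        have hz2w : z2 = 1 - w2 := by rw [hz2, hw2]; field_simp; ring
        have hTz : T a z = z2 :=
          T_eq_of hzneg.ne (-3) (by rw [hinvz, hz2w]; push_cast; ring) (by linarith)
            (by linarith)
        have hz2i : Irrational z2 := hTz ▸ irrational_T (hTv ▸ irrational_T hv)
        have h5u : 0 < 2 - 5 * u := by
          have h5 : 0 ≤ 2 - 5 * u := by
            have : 3 * u - 1 ≤ 1 - 2 * u := by rwa [hw2, div_le_one h2u] at hw2lt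
            linarith
          rcases h5.lt_or_eq with h | h
          · exact h
          · exfalso
            apply hu
            refine ⟨2 / 5, ?_⟩
            push_cast
            linarith
        have hz2pos : 0 < z2 := div_pos h5u h2u
        have hP3v : (1 - 2 * u) * |z2| = 2 - 5 * u := by
          rw [abs_of_pos hz2pos, hz2]; field_simp
        set r2 : ℝ := (2 - 5 * u) / (3 * u - 1) with hr2
        have hr2pos : 0 < r2 := div_pos h5u h3u
        have hinvρ : 1 / (-ρ) = -2 - r2 := by
          rw [hr2, hρ]; field_simp; ring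
        have hρi : Irrational (-ρ) := hTu ▸ irrational_T hu
        by_cases hA : r2 ≤ 1 - a
        · -- REL 3
          left
          have hTρ : T a (-ρ) = -r2 :=
            T_eq_of (by linarith) (-2) (by rw [hinvρ]; push_cast; ring) (by linarith)
              (by linarith)
          have hr2i : Irrational (-r2) := hTρ ▸ irrational_T hρi
          refine ⟨3, by norm_num, by norm_num, ?_, ?_⟩
          · rw [P_three, P_three, hTv, hTu, hTz, hTρ, abs_of_pos hv0, hP2v, hP3v,
              abs_of_pos h0, abs_neg, abs_of_pos hρpos, hP2u, abs_neg, abs_of_pos hr2pos, hr2]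
            field_simp
          · simp only [Function.iterate_succ_apply, Function.iterate_zero_apply]
            rw [hTv, hTz, hTu, hTρ]
            refine T_add_T ⟨ha1, ha2⟩ hr2i hz2i 1 ?_
            rw [hz2, hr2]; push_cast; field_simp; ring
        · push Not at hA
          have hA' : (1 - a) * (3 * u - 1) < 2 - 5 * u := by
            rwa [hr2, lt_div_iff₀ h3u] at hA
          have hr2le : r2 ≤ 2 - a := by
            rw [hr2, div_le_iff₀ h3u]
            by_contra hcon
            push Not at hcon
            have hcon' : 0 < 4 - a - u * (11 - 3 * a) := by linarith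
            rcases le_total 0 (a ^ 2 - 4 * a + 2) with h | h
            · have e1 := mul_pos (show 0 < 5 - 2 * a by linarith) hcon'
              have e2 := mul_pos (show 0 < 11 - 3 * a by linarith)
                (show 0 < u * (5 - 2 * a) - (2 - a) by linarith)
              linarith
            · have e1 := mul_pos (show 0 < 1 + a by linarith) hcon'
              have e2 := mul_nonneg (show 0 ≤ 11 - 3 * a by linarith)
                (show 0 ≤ u * (1 + a) - a by linarith)
              linarith
          set y : ℝ := 1 - r2 with hy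
          have hTρ : T a (-ρ) = y :=
            T_eq_of (by linarith) (-3) (by rw [hinvρ]; push_cast; ring) (by linarith)
              (by linarith)
          have hyi : Irrational y := hTρ ▸ irrational_T hρi
          have hinvz2 : 1 / z2 = 1 / (1 - y) + 1 := by
            have h1y : 1 - y = r2 := by rw [hy]; ring
            rw [h1y, hz2, hr2]; field_simp; ring
          have h1ypos : 0 < 1 - y := by rw [hy]; linarith
          have hTz2 : T a z2 = T a (1 - y) :=
            T_congr hz2pos.ne' h1ypos.ne' 1 (by rw [hinvz2]; push_cast; ring)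
          have hP3v' : (3 * u - 1) * (1 - y) = 2 - 5 * u := by
            rw [hy, sub_sub_cancel, hr2, mul_div_assoc', mul_div_cancel_left₀ _ h3u.ne']
          rcases lt_trichotomy y 0 with hyneg | hy0 | hypos
          · -- merge (3,4)
            right; left
            have hr2le' : r2 ≤ 1 / a := by
              rw [le_div_iff₀ (by linarith), hr2, div_mul_eq_mul_div, div_le_iff₀ h3u]
              by_contra hcon
              push Not at hcon
              have hcon' : 0 < 2 * a + 1 - u * (3 + 5 * a) := by linarith
              rcases le_total (1 / 3) (a ^ 2) with h | h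
              · have e1 := mul_pos (show 0 < 1 + a by linarith) hcon'
                have e2 := mul_nonneg (show 0 ≤ 3 + 5 * a by linarith)
                  (show 0 ≤ u * (1 + a) - a by linarith)
                linarith
              · have e1 := mul_pos (show 0 < 5 - 2 * a by linarith) hcon'
                have e2 := mul_pos (show 0 < 3 + 5 * a by linarith)
                  (show 0 < u * (5 - 2 * a) - (2 - a) by linarith)
                linarith
            set w3 : ℝ := y / (1 - y) with hw3
            have hw3neg : w3 < 0 := div_neg_of_neg_of_pos hyneg h1ypos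
            have hTz3 : T a z2 = w3 := by
              refine T_eq_of hz2pos.ne' 2 ?_ ?_ (by linarith)
              · rw [hinvz2, hw3]; push_cast; field_simp; ring
              · rw [hw3, le_div_iff₀ h1ypos]
                have : a * r2 ≤ 1 := by
                  rw [le_div_iff₀ (by linarith)] at hr2le'
                  linarith
                have h1y : 1 - y = r2 := by rw [hy]; ring
                rw [h1y]
                nlinarith
            have hTw3 : T a w3 = T a y := by
              refine T_congr hw3neg.ne hyneg.ne (-1) ?_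
              rw [hw3]
              have := hyneg.ne
              have := h1ypos.ne'
              push_cast
              field_simp
              ring
            refine ⟨3, 4, by norm_num, by norm_num, ?_, ?_⟩
            · rw [P_three, P_four, hTv, hTu, hTz, hTρ, hTz3, abs_of_pos hv0, hP2v, hP3v,
                abs_of_pos h0, abs_neg, abs_of_pos hρpos, hP2u, abs_of_neg hyneg,
                abs_of_neg hw3neg, hw3, ← hP3v']
              have := h1ypos.ne'
              field_simp
            · simp only [Function.iterate_succ_apply, Function.iterate_zero_apply]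
              rw [hTv, hTz, hTu, hTρ, hTz3, hTw3]
          · exact absurd hy0 hyi.ne_zero
          · rcases lt_trichotomy y (1 / 2) with hylt | hyh | hygt
            · -- special
              right; right
              refine ⟨y, hypos, hylt, ?_, ?_, ?_⟩
              · simp only [Function.iterate_succ_apply, Function.iterate_zero_apply]
                rw [hTu, hTρ]
              · simp only [Function.iterate_succ_apply, Function.iterate_zero_apply]
                rw [hTv, hTz, hTz2]
              · rw [P_three, P_two, hTv, hTu, hTz, abs_of_pos hv0, hP2v, hP3v,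
                  abs_of_pos h0, abs_neg, abs_of_pos hρpos, hP2u, hP3v']
            · exfalso
              rw [hyh] at hyi
              exact hyi ⟨1 / 2, by norm_num⟩
            · -- REL 4
              left
              have hya : y < a := by rw [hy]; linarith
              have hκpos : 0 < 2 * y - 1 := by linarith
              set κ : ℝ := (2 * y - 1) / y with hκ
              have hκ0 : 0 < κ := div_pos hκpos hypos
              have hTy : T a y = -κ := by
                refine T_eq_of hypos.ne' 2 ?_ ?_ (by linarith)
                · rw [hκ]; push_cast; field_simp; ring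
                · rw [hκ, ← neg_div, le_div_iff₀ hypos]
                  nlinarith
              set z3 : ℝ := (2 * y - 1) / (1 - y) with hz3
              have hz30 : 0 < z3 := div_pos hκpos h1ypos
              have hTz3 : T a z2 = z3 := by
                refine T_eq_of hz2pos.ne' 3 ?_ (by linarith) ?_
                · rw [hinvz2, hz3]
                  have := h1ypos.ne'
                  push_cast; field_simp; ring
                · rw [hz3, div_lt_iff₀ h1ypos]
                  nlinarith
              have hκi : Irrational (-κ) := hTy ▸ irrational_T hyi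
              have hz3i : Irrational z3 := hTz3 ▸ irrational_T hz2i
              refine ⟨4, by norm_num, le_refl _, ?_, ?_⟩
              · rw [P_four, P_four, hTv, hTu, hTz, hTρ, hTz3, hTy, abs_of_pos hv0, hP2v, hP3v,
                  abs_of_pos h0, abs_neg, abs_of_pos hρpos, hP2u, abs_of_pos hypos, abs_neg,
                  abs_of_pos hκ0, abs_of_pos hz30, hκ, hz3, ← hP3v']
                have := h1ypos.ne'
                field_simp
              · simp only [Function.iterate_succ_apply, Function.iterate_zero_apply]
                rw [hTv, hTz, hTu, hTρ, hTz3, hTy]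
                refine T_add_T ⟨ha1, ha2⟩ hκi hz3i (-1) ?_
                rw [hκ, hz3]
                have := h1ypos.ne'
                have := hκpos.ne'
                push_cast
                field_simp
                ring

lemma N_le_of_P_lt {a x s : ℝ} (ha : a ∈ Ioo (0:ℝ) 1) (hx : x ∈ Ioo (-1:ℝ) 1) (hs : 0 < s)
    {k j : ℕ} (h : P a x k < s) (hkj : k ≤ j) : N a s x ≤ j :=
  ((N_le_iff ha hx hs k).mpr h).trans hkj

/-- Bounded difference for pairs with sum 0 or 1. -/
theorem pair_bound {a : ℝ} (ha : a ∈ Ico (1 / 2 : ℝ) 1) (n : ℕ) :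
    ∀ u v s : ℝ, Irrational u → Irrational v → u ∈ Ioo (-1 : ℝ) 1 → v ∈ Ioo (-1 : ℝ) 1 →
      (u + v = 0 ∨ u + v = 1) → 0 < s → N a s u + N a s v ≤ n →
      |(N a s u : ℤ) - (N a s v : ℤ)| ≤ 4 := by
  have ha' : a ∈ Ioo (0:ℝ) 1 := ⟨by linarith [ha.1], ha.2⟩
  induction n using Nat.strong_induction_on with
  | _ n ih =>
  have main : ∀ u v s : ℝ, Irrational u → Irrational v → u ∈ Ioo (-1 : ℝ) 1 →
      v ∈ Ioo (-1 : ℝ) 1 → (u + v = 0 ∨ (u + v = 1 ∧ u < 1 / 2)) → 0 < s →
      N a s u + N a s v ≤ n → |(N a s u : ℤ) - (N a s v : ℤ)| ≤ 4 := by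
    intro u v s hui hvi hu hv huv hs hn
    -- generic treatment of a relation after m steps
    have rel : ∀ m, 1 ≤ m → m ≤ 4 → P a u m = P a v m →
        ((T a)^[m] u + (T a)^[m] v = 0 ∨ (T a)^[m] u + (T a)^[m] v = 1) →
        |(N a s u : ℤ) - (N a s v : ℤ)| ≤ 4 := by
      intro m hm1 hm4 hP hsum
      by_cases hsP : s ≤ P a u m
      · have e1 := N_unroll ha' hu hui hs m (Or.inl (by simpa using hsP))
        have e2 := N_unroll ha' hv hvi hs m (Or.inl (by rw [← hP]; simpa using hsP))
        rw [← hP] at e2
        have := ih (N a (s / P a u m) ((T a)^[m] u) + N a (s / P a u m) ((T a)^[m] v))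
          (by omega) ((T a)^[m] u) ((T a)^[m] v) (s / P a u m) (irrational_iter hui m)
          (irrational_iter hvi m) (iter_mem_Ioo ha' hu m) (iter_mem_Ioo ha' hv m) hsum
          (div_pos hs (P_pos hui m)) le_rfl
        rw [e1, e2]
        push_cast
        rw [show ((m : ℤ) + (N a (s / P a u m) ((T a)^[m] u) : ℤ)) -
          ((m : ℤ) + (N a (s / P a u m) ((T a)^[m] v) : ℤ)) =
          (N a (s / P a u m) ((T a)^[m] u) : ℤ) - (N a (s / P a u m) ((T a)^[m] v) : ℤ) by ring]
        exact this
      · push Not at hsP
        have e1 := N_le_of_P_lt ha' hu hs hsP hm4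
        have e2 := N_le_of_P_lt ha' hv hs (hP ▸ hsP) hm4
        rw [abs_le]; omega
    rcases huv with h0 | ⟨h1, hlt⟩
    · have hv' : v = -u := by linarith
      subst hv'
      refine rel 1 le_rfl (by norm_num) ?_ ?_
      · simp [P]
      · simp only [Function.iterate_succ_apply, Function.iterate_zero_apply]
        exact T_add_T ha hui hvi 0 (by rw [div_neg]; push_cast; ring)
    · have hv' : v = 1 - u := by linarith
      subst hv'
      have hu0 : 0 < u := by linarith [hv.2]
      rcases pair_step ha hui hu0 hlt with ⟨m, hm1, hm4, hP, hsum⟩ | ⟨k, l, hk, hl, hP, hT⟩ |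
        ⟨y, hy0, hy1, hT2, hT3, hP⟩
      · exact rel m hm1 hm4 hP hsum
      · by_cases hsP : s ≤ P a u k
        · have e1 := N_unroll ha' hu hui hs k (Or.inl (by simpa using hsP))
          have e2 := N_unroll ha' hv hvi hs l (Or.inl (by rw [← hP]; simpa using hsP))
          rw [← hP, ← hT] at e2
          rw [abs_le]; omega
        · push Not at hsP
          have e1 := N_le_of_P_lt ha' hu hs hsP hk
          have e2 := N_le_of_P_lt ha' hv hs (hP ▸ hsP) hl
          rw [abs_le]; omega
      · have hP2 := P_pos (a := a) hui 2
        have hyi : Irrational y := hT2 ▸ irrational_iter hui 2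
        have h1yi : Irrational (1 - y) := by simpa using hyi.ratCast_sub 1
        by_cases hsP : s ≤ P a (1 - u) 3
        · have hsP2 : s ≤ P a u 2 := by
            rw [hP] at hsP
            nlinarith
          have e1 := N_unroll ha' hu hui hs 2 (Or.inl (by simpa using hsP2))
          have e2 := N_unroll ha' hv hvi hs 3 (Or.inl (by simpa using hsP))
          rw [hT2] at e1
          rw [hT3, hP] at e2
          have hs' : 0 < s / P a u 2 := div_pos hs hP2
          have hs1 : s / P a u 2 ≤ 1 := by rw [div_le_one hP2]; exact hsP2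
          have e3 := N_succ ha' (x := 1 - y) ⟨by linarith, by linarith⟩ h1yi hs' hs1
          rw [abs_of_pos (show 0 < 1 - y by linarith), div_div] at e3
          have := ih (N a (s / P a u 2) y + N a (s / P a u 2) (1 - y)) (by omega) y (1 - y)
            (s / P a u 2) hyi h1yi ⟨by linarith, by linarith⟩ ⟨by linarith, by linarith⟩
            (Or.inr (by ring)) hs' le_rfl
          rw [abs_le] at this ⊢
          omega
        · push Not at hsP
          have e2 := N_le_of_P_lt ha' hv hs hsP (le_refl 3)
          have hP3 : P a u 3 < s := by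
            have h3 : P a u 3 = P a u 2 * |(T a)^[2] u| := P_succ a u 2
            rw [h3, hT2, abs_of_pos hy0]
            rw [hP] at hsP
            nlinarith
          have e1 := N_le_of_P_lt ha' hu hs hP3 (le_refl 3)
          rw [abs_le]; omega
  intro u v s hui hvi hu hv huv hs hn
  rcases huv with h0 | h1
  · exact main u v s hui hvi hu hv (Or.inl h0) hs hn
  · rcases lt_trichotomy u (1 / 2) with hlt | heq | hgt
    · exact main u v s hui hvi hu hv (Or.inr ⟨h1, hlt⟩) hs hn
    · exfalso
      rw [heq] at hui
      exact hui ⟨1 / 2, by norm_num⟩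
    · rw [abs_sub_comm]
      exact main v u s hvi hui hv hu (Or.inr ⟨by linarith, by linarith⟩) hs (by omega)

theorem index_bound {a : ℝ} (ha : a ∈ Ico (1 / 2 : ℝ) 1) {x : ℝ} (hx : x ∈ Ioo (0 : ℝ) 1)
    (hi : Irrational x) {s : ℝ} (hs : 0 < s) :
    |(N a s x : ℤ) - (N a s (x - 1) : ℤ)| ≤ 8 := by
  have h1x : Irrational (1 - x) := by simpa using hi.ratCast_sub 1
  have hx1 : Irrational (x - 1) := by simpa using hi.sub_ratCast 1
  have e1 := pair_bound ha _ x (1 - x) s hi h1x ⟨by linarith [hx.1], hx.2⟩
    ⟨by linarith [hx.2], by linarith [hx.1]⟩ (Or.inr (by ring)) hs le_rfl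
  have e2 := pair_bound ha _ (1 - x) (x - 1) s h1x hx1
    ⟨by linarith [hx.2], by linarith [hx.1]⟩ ⟨by linarith [hx.1], by linarith [hx.2]⟩
    (Or.inl (by ring)) hs le_rfl
  rw [abs_le] at *
  omega

end TanakaIto
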