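import Pool.Agent.TI.Basic

/-! Lower bound of the entropy of a partition; counting of words. -/

open MeasureTheory Filter Topology Set
open scoped ENNReal

namespace TanakaIto.Lower

lemma negMulLog_ge {p a b : ℝ} (ha : 0 ≤ a) (hap : a ≤ p) (hp : p ≤ 1)
    (hab : a ≤ Real.exp (-b)) : a * b + a - p ≤ Real.negMulLog p := by
  rcases ha.eq_or_lt with rfl | ha0
  · have := Real.negMulLog_nonneg hap hp
    linarith
  · have hp0 : 0 < p := ha0.trans_le hap
    have h1 : Real.log a ≤ -b := by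
      rw [← Real.log_exp (-b)]
      exact Real.log_le_log ha0 hab
    have h2 : 1 - p / a ≤ Real.log (a / p) := by
      have := Real.one_sub_inv_le_log_of_pos (div_pos ha0 hp0)
      rwa [inv_div] at this
    have h3 : Real.log p ≤ 0 := Real.log_nonpos hp0.le hp
    rw [Real.log_div ha0.ne' hp0.ne'] at h2
    have h4 : a * (1 - p / a) ≤ a * (Real.log a - Real.log p) :=
      mul_le_mul_of_nonneg_left h2 ha0.le
    have h5 : a * (1 - p / a) = a - p := by field_simp
    rw [Real.negMulLog]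
    nlinarith

/-- If all atoms of the partition meet G in a set of small measure, the entropy is large. -/
lemma partEntropy_ge {Ω ι : Type*} [MeasurableSpace Ω] [Fintype ι] {μ : Measure Ω}
    [IsProbabilityMeasure μ] {f : Ω → ι} (hf : ∀ j, MeasurableSet (f ⁻¹' {j})) (G : Set Ω)
    {b : ℝ} (h : ∀ j, μ.real (f ⁻¹' {j} ∩ G) ≤ Real.exp (-b)) :
    μ.real G * b - 1 ≤ partEntropy μ f := by
  have h1 : ∑ j, μ.real (f ⁻¹' {j}) = 1 := by
    have := sum_measureReal_preimage_singleton (μ := μ) Finset.univ (fun y _ => hf y)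
    rw [this]
    simp
  have h2 : ∑ j, μ.real (f ⁻¹' {j} ∩ G) = μ.real G := by
    have := sum_measureReal_preimage_singleton (μ := μ.restrict G) Finset.univ (fun y _ => hf y)
    have e1 : ∀ j, (μ.restrict G).real (f ⁻¹' {j}) = μ.real (f ⁻¹' {j} ∩ G) := by
      intro j
      rw [measureReal_def, Measure.restrict_apply (hf j), measureReal_def]
    simp only [e1] at this
    rw [this]
    simp [measureReal_def]
  have h3 : ∀ j, μ.real (f ⁻¹' {j} ∩ G) * b + μ.real (f ⁻¹' {j} ∩ G) - μ.real (f ⁻¹' {j}) ≤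
      Real.negMulLog (μ.real (f ⁻¹' {j})) := fun j =>
    negMulLog_ge measureReal_nonneg (measureReal_mono inter_subset_left) measureReal_le_one (h j)
  have h4 := Finset.sum_le_sum (fun j (_ : j ∈ Finset.univ) => h3 j)
  rw [Finset.sum_sub_distrib, Finset.sum_add_distrib, ← Finset.sum_mul, h1, h2] at h4
  have h5 : 0 ≤ μ.real G := measureReal_nonneg
  rw [partEntropy]
  linarith

/-! ### digits, labels, weights -/

/-- The label of a digit: its value if it is at most L in absolute value, else the last label. -/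
def lab (L : ℕ) (m : ℤ) : Fin (2 * L + 2) :=
  ⟨min (m + L).toNat (2 * L + 1) * (if |m| ≤ L then 1 else 0) +
    (2 * L + 1) * (if |m| ≤ L then 0 else 1), by
    split_ifs <;> omega⟩

lemma lab_inj {L : ℕ} {m m' : ℤ} (h : |m| ≤ L) (he : lab L m = lab L m') : m = m' := by
  rw [lab, lab, Fin.mk.injEq] at he
  rw [abs_le] at h
  by_cases h' : |m'| ≤ L
  · rw [if_pos (abs_le.2 h), if_pos (abs_le.2 h), if_pos h', if_pos h'] at he
    rw [abs_le] at h'
    omega
  · rw [if_pos (abs_le.2 h), if_pos (abs_le.2 h), if_neg h', if_neg h'] at he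
    omega

/-- The weight of a digit. -/
noncomputable def wt (L : ℕ) (m : ℤ) : ℝ := if |m| ≤ L then 1 else ((m : ℝ) ^ 2)⁻¹

lemma wt_nonneg (L : ℕ) (m : ℤ) : 0 ≤ wt L m := by
  rw [wt]; split_ifs <;> positivity

lemma wt_le_one (L : ℕ) (m : ℤ) : wt L m ≤ 1 := by
  rw [wt]
  split_ifs with h
  · exact le_rfl
  · have h1 : (1 : ℝ) ≤ (m : ℝ) ^ 2 := by
      have h2 : m ≠ 0 := by
        rintro rfl
        simp at h
      have h3 : 1 ≤ m ^ 2 := by
        have := sq_nonneg m
        have h4 : m ^ 2 ≠ 0 := pow_ne_zero _ h2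
        omega
      exact_mod_cast h3
    exact inv_le_one_of_one_le₀ h1

lemma sum_wt_le {L : ℕ} (hL : 2 ≤ L) (M : ℕ) (e : Fin (2 * L + 2)) :
    ∑ m ∈ (Finset.Icc (-(M : ℤ)) M).filter (fun m => lab L m = e), wt L m ≤ 1 := by
  by_cases hs : ∃ m ∈ (Finset.Icc (-(M : ℤ)) M).filter (fun m => lab L m = e), |m| ≤ L
  · obtain ⟨m, hm, hmL⟩ := hs
    have h1 : (Finset.Icc (-(M : ℤ)) M).filter (fun m => lab L m = e) ⊆ {m} := by
      intro m' hm'
      rw [Finset.mem_filter] at hm hm'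
      rw [Finset.mem_singleton]
      exact (lab_inj hmL (hm.2.trans hm'.2.symm)).symm
    refine (Finset.sum_le_sum_of_subset_of_nonneg h1 (fun _ _ _ => wt_nonneg _ _)).trans ?_
    rw [Finset.sum_singleton]
    exact wt_le_one _ _
  · push Not at hs
    have h1 : (Finset.Icc (-(M : ℤ)) M).filter (fun m => lab L m = e) ⊆
        (Finset.Ioc L M).image (fun j : ℕ => (j : ℤ)) ∪
          (Finset.Ioc L M).image (fun j : ℕ => -(j : ℤ)) := by
      intro m hm
      have h2 := hs m hm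
      rw [Finset.mem_filter, Finset.mem_Icc] at hm
      rw [Finset.mem_union, Finset.mem_image, Finset.mem_image]
      rcases le_or_gt 0 m with h3 | h3
      · left
        rw [abs_of_nonneg h3] at h2
        exact ⟨m.toNat, by rw [Finset.mem_Ioc]; omega, by omega⟩
      · right
        rw [abs_of_neg h3] at h2
        exact ⟨(-m).toNat, by rw [Finset.mem_Ioc]; omega, by omega⟩
    have h2 : ∑ m ∈ (Finset.Icc (-(M : ℤ)) M).filter (fun m => lab L m = e), wt L m =
        ∑ m ∈ (Finset.Icc (-(M : ℤ)) M).filter (fun m => lab L m = e), ((m : ℝ) ^ 2)⁻¹ := by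
      refine Finset.sum_congr rfl (fun m hm => ?_)
      rw [wt, if_neg (not_le.2 (hs m hm))]
    rw [h2]
    refine (Finset.sum_le_sum_of_subset_of_nonneg h1 (fun _ _ _ => by positivity)).trans ?_
    have hnn : ∀ s t : Finset ℤ, ∑ m ∈ s ∪ t, ((m : ℝ) ^ 2)⁻¹ ≤
        ∑ m ∈ s, ((m : ℝ) ^ 2)⁻¹ + ∑ m ∈ t, ((m : ℝ) ^ 2)⁻¹ := by
      intro s t
      have := Finset.sum_union_inter (s₁ := s) (s₂ := t) (f := fun m : ℤ => ((m : ℝ) ^ 2)⁻¹)
      have h3 : 0 ≤ ∑ m ∈ s ∩ t, ((m : ℝ) ^ 2)⁻¹ := Finset.sum_nonneg (fun _ _ => by positivity)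
      linarith
    refine (hnn _ _).trans ?_
    rw [Finset.sum_image (by intro a _ b _ h; simpa using h),
      Finset.sum_image (by intro a _ b _ h; simpa using h)]
    push_cast
    simp only [neg_sq]
    by_cases hLM : L ≤ M
    · have h3 := sum_Ioc_inv_sq_le_sub (α := ℝ) (k := L) (n := M) (by omega) hLM
      have h4 : ((L : ℝ))⁻¹ ≤ 1 / 2 := by
        have h5 : (2 : ℝ) ≤ L := by exact_mod_cast hL
        rw [one_div]
        exact inv_anti₀ (by norm_num) h5
      have h6 : (0 : ℝ) ≤ (M : ℝ)⁻¹ := by positivity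
      linarith
    · rw [Finset.Ioc_eq_empty (by omega)]
      simp

/-- The number of words with a given itinerary and weight at least c. -/
lemma card_words {L : ℕ} (hL : 2 ≤ L) (M n : ℕ) (e : Fin n → Fin (2 * L + 2)) {c : ℝ}
    (W : Finset (Fin n → ℤ))
    (hW : ∀ w ∈ W, (∀ i, w i ∈ Finset.Icc (-(M : ℤ)) M ∧ lab L (w i) = e i) ∧
      c ≤ ∏ i, wt L (w i)) : (W.card : ℝ) * c ≤ 1 := by
  have h1 : (W.card : ℝ) * c ≤ ∑ w ∈ W, ∏ i, wt L (w i) := by
    rw [← nsmul_eq_mul]
    exact Finset.card_nsmul_le_sum _ _ _ (fun w hw => (hW w hw).2)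
  have h2 : W ⊆ Fintype.piFinset (fun i =>
      (Finset.Icc (-(M : ℤ)) M).filter (fun m => lab L m = e i)) := by
    intro w hw
    rw [Fintype.mem_piFinset]
    intro i
    rw [Finset.mem_filter]
    exact (hW w hw).1 i
  calc (W.card : ℝ) * c ≤ ∑ w ∈ W, ∏ i, wt L (w i) := h1
    _ ≤ ∑ w ∈ Fintype.piFinset (fun i =>
          (Finset.Icc (-(M : ℤ)) M).filter (fun m => lab L m = e i)), ∏ i, wt L (w i) :=
        Finset.sum_le_sum_of_subset_of_nonneg h2
          (fun _ _ _ => Finset.prod_nonneg (fun _ _ => wt_nonneg _ _))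
    _ = ∏ i, ∑ m ∈ (Finset.Icc (-(M : ℤ)) M).filter (fun m => lab L m = e i), wt L m := by
        rw [Finset.prod_univ_sum]
    _ ≤ ∏ i : Fin n, (1 : ℝ) := Finset.prod_le_prod
        (fun i _ => Finset.sum_nonneg (fun _ _ => wt_nonneg _ _)) (fun i _ => sum_wt_le hL M (e i))
    _ = 1 := by simp

end TanakaIto.Lower
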