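import Pool.Agent.TI.Basic

/-! Tanaka-Ito continued fraction maps: invariant cone for the continuants, comparability of the
products, and the renewal bound. -/

open MeasureTheory Filter Topology Set
open scoped ENNReal

namespace TanakaIto

/-- The continuant matrices (A, B, C, D) of a point, with x = (A y + B) / (C y + D) for the
k-th point y of the orbit of x. -/
noncomputable def mat (a x : ℝ) : ℕ → ℤ × ℤ × ℤ × ℤ
  | 0 => (1, 0, 0, 1)
  | k + 1 =>
    ((mat a x k).2.1, (mat a x k).1 + dig a ((T a)^[k] x) * (mat a x k).2.1,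
      (mat a x k).2.2.2, (mat a x k).2.2.1 + dig a ((T a)^[k] x) * (mat a x k).2.2.2)

lemma mat_congr {a x y : ℝ} (n : ℕ)
    (h : ∀ i < n, dig a ((T a)^[i] x) = dig a ((T a)^[i] y)) : mat a x n = mat a y n := by
  induction n with
  | zero => rfl
  | succ n ih =>
    simp only [mat, ih fun i hi => h i (hi.trans (Nat.lt_succ_self n)), h n (Nat.lt_succ_self n)]

/-- One step of the invariant for the ratio C / D. -/
lemma cone_step {a y v : ℝ} (ha : a ∈ Ico (1 / 2 : ℝ) 1) (hy : y ∈ Ico (a - 1) a)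
    (hi : Irrational y) (h1 : y < 0 → v ∈ Icc (-3 / 4 : ℝ) (2 / 3))
    (h2 : 0 < y → v ∈ Icc (-3 / 7 : ℝ) (7 / 4)) :
    v + dig a y ≠ 0 ∧ (T a y < 0 → 1 / (v + dig a y) ∈ Icc (-3 / 4 : ℝ) (2 / 3)) ∧
      (0 < T a y → 1 / (v + dig a y) ∈ Icc (-3 / 7 : ℝ) (7 / 4)) := by
  obtain ⟨ha0, ha1⟩ := ha
  obtain ⟨hy1, hy2⟩ := hy
  have hy0 : y ≠ 0 := hi.ne_zero
  have hT := T_of_ne (a := a) hy0
  rcases lt_or_gt_of_ne hy0 with hneg | hpos
  · -- negative point
    obtain ⟨hv1, hv2⟩ := h1 hneg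
    have hinv : 1 / y ≤ -2 := by
      rw [div_le_iff_of_neg hneg]; linarith
    have hn : dig a y ≤ -2 := by
      have : (dig a y : ℝ) ≤ 1 / y + 1 - a := Int.floor_le _
      have h3 : (dig a y : ℝ) < -1 := by linarith
      have h4 : dig a y < -1 := by exact_mod_cast h3
      omega
    rcases hn.lt_or_eq with hlt | heq
    · have h3 : (dig a y : ℝ) ≤ -3 := by
        have : dig a y ≤ -3 := by omega
        exact_mod_cast this
      have h4 : v + dig a y ≤ -7 / 3 := by linarith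
      have h5 : v + dig a y < 0 := by linarith
      have h6 : 1 / (v + dig a y) < 0 := one_div_neg.mpr h5
      have h7 : -3 / 7 ≤ 1 / (v + dig a y) := by
        rw [le_div_iff_of_neg h5]; linarith
      exact ⟨h5.ne, fun _ => ⟨by linarith, by linarith⟩, fun _ => ⟨h7, by linarith⟩⟩
    · have h3 : (dig a y : ℝ) = -2 := by exact_mod_cast heq
      rw [h3] at hT ⊢
      have h5 : v + -2 < 0 := by linarith
      have h6 : 1 / (v + -2) < 0 := one_div_neg.mpr h5
      have h7 : -3 / 4 ≤ 1 / (v + -2) := by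
        rw [le_div_iff_of_neg h5]; linarith
      refine ⟨h5.ne, fun _ => ⟨h7, by linarith⟩, fun h => ?_⟩
      exfalso
      linarith
  · -- positive point
    obtain ⟨hv1, hv2⟩ := h2 hpos
    have hinv : 1 < 1 / y := by
      rw [lt_div_iff₀ hpos]; linarith
    have hn : 1 ≤ dig a y := by
      rw [dig, Int.le_floor]
      push_cast
      linarith
    rcases hn.lt_or_eq with hlt | heq
    · have h3 : (2 : ℝ) ≤ dig a y := by
        have : 2 ≤ dig a y := by omega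
        exact_mod_cast this
      have h4 : 11 / 7 ≤ v + dig a y := by linarith
      have h5 : 0 < v + dig a y := by linarith
      have h6 : 0 < 1 / (v + dig a y) := one_div_pos.mpr h5
      have h7 : 1 / (v + dig a y) ≤ 2 / 3 := by
        rw [div_le_iff₀ h5]; linarith
      exact ⟨h5.ne', fun _ => ⟨by linarith, h7⟩, fun _ => ⟨by linarith, by linarith⟩⟩
    · have h3 : (dig a y : ℝ) = 1 := by exact_mod_cast heq.symm
      rw [h3] at hT ⊢
      have h5 : 0 < v + 1 := by linarith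
      have h6 : 0 < 1 / (v + 1) := one_div_pos.mpr h5
      have h7 : 1 / (v + 1) ≤ 7 / 4 := by
        rw [div_le_iff₀ h5]; linarith
      refine ⟨h5.ne', fun h => ?_, fun _ => ⟨by linarith, h7⟩⟩
      exfalso
      linarith

/-- The facts about the continuant matrices. -/
lemma mat_spec {a x : ℝ} (ha : a ∈ Ico (1 / 2 : ℝ) 1) (hx : x ∈ Ico (a - 1) a)
    (hi : Irrational x) (k : ℕ) :
    (((mat a x k).2.2.1 : ℝ) * (T a)^[k] x + (mat a x k).2.2.2) * x =
        (mat a x k).1 * (T a)^[k] x + (mat a x k).2.1 ∧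
      |((mat a x k).2.2.1 : ℝ) * (T a)^[k] x + (mat a x k).2.2.2| * P a x k = 1 ∧
      ((mat a x k).1 * (mat a x k).2.2.2 - (mat a x k).2.1 * (mat a x k).2.2.1 = 1 ∨
        (mat a x k).1 * (mat a x k).2.2.2 - (mat a x k).2.1 * (mat a x k).2.2.1 = -1) ∧
      (mat a x k).2.2.2 ≠ 0 ∧
      ((T a)^[k] x < 0 →
        ((mat a x k).2.2.1 : ℝ) / (mat a x k).2.2.2 ∈ Icc (-3 / 4 : ℝ) (2 / 3)) ∧
      (0 < (T a)^[k] x →
        ((mat a x k).2.2.1 : ℝ) / (mat a x k).2.2.2 ∈ Icc (-3 / 7 : ℝ) (7 / 4)) := by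
  have ha' : a ∈ Ioo (0 : ℝ) 1 := ⟨by linarith [ha.1], ha.2⟩
  induction k with
  | zero =>
    simp only [mat, Function.iterate_zero, id_eq, P_zero]
    refine ⟨by simp, by simp, Or.inl (by norm_num), by norm_num, fun _ => ?_, fun _ => ?_⟩ <;>
    · rw [mem_Icc]; norm_num
  | succ k ih =>
    have hy := iter_mem_Ico ha' hx k
    have hyi := irrational_iter (a := a) hi k
    have hy0 : (T a)^[k] x ≠ 0 := hyi.ne_zero
    have hTy := T_of_ne (a := a) hy0
    rw [Function.iterate_succ_apply', P_succ]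
    simp only [mat]
    generalize (T a)^[k] x = y at *
    generalize mat a x k = M at *
    obtain ⟨A, B, C, D⟩ := M
    simp only at ih ⊢
    obtain ⟨h1, h2, h3, h4, h5, h6⟩ := ih
    have hD : (D : ℝ) ≠ 0 := by exact_mod_cast h4
    obtain ⟨s1, s2, s3⟩ := cone_step ha hy hyi h5 h6
    set n := dig a y with hn
    have hkey : (D : ℝ) * T a y + ((C + n * D : ℤ) : ℝ) = (C * y + D) / y := by
      rw [hTy]; push_cast; field_simp; ring
    have hkey2 : (B : ℝ) * T a y + ((A + n * B : ℤ) : ℝ) = (A * y + B) / y := by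
      rw [hTy]; push_cast; field_simp; ring
    have hD' : ((C + n * D : ℤ) : ℝ) = D * (C / D + n) := by
      push_cast; field_simp
    have hratio : (D : ℝ) / ((C + n * D : ℤ) : ℝ) = 1 / (C / D + n) := by
      rw [hD']; field_simp
    refine ⟨?_, ?_, ?_, ?_, ?_, ?_⟩
    · rw [hkey, hkey2, ← h1]; ring
    · rw [hkey, abs_div]
      have : |y| ≠ 0 := abs_ne_zero.mpr hy0
      field_simp
      linarith
    · rcases h3 with h | h
      · right; linear_combination -h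
      · left; linear_combination -h
    · intro hcon
      have : ((C + n * D : ℤ) : ℝ) = 0 := by exact_mod_cast hcon
      rw [hD'] at this
      rcases mul_eq_zero.mp this with h | h
      · exact hD h
      · exact s1 h
    · rw [hratio]; exact s2
    · rw [hratio]; exact s3

lemma cone_bounds {a x : ℝ} (ha : a ∈ Ico (1 / 2 : ℝ) 1) (hx : x ∈ Ico (a - 1) a)
    (hi : Irrational x) (k : ℕ) :
    4 / 7 * |((mat a x k).2.2.2 : ℝ)| ≤
        |((mat a x k).2.2.1 : ℝ) * (T a)^[k] x + (mat a x k).2.2.2| ∧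
      |((mat a x k).2.2.1 : ℝ) * (T a)^[k] x + (mat a x k).2.2.2| ≤
        11 / 4 * |((mat a x k).2.2.2 : ℝ)| ∧
      |((mat a x k).2.2.1 : ℝ)| ≤ 7 / 4 * |((mat a x k).2.2.2 : ℝ)| := by
  have ha' : a ∈ Ioo (0 : ℝ) 1 := ⟨by linarith [ha.1], ha.2⟩
  obtain ⟨-, -, -, h4, h5, h6⟩ := mat_spec ha hx hi k
  have hy := iter_mem_Ico ha' hx k
  have hyi := irrational_iter (a := a) hi k
  have hy0 : (T a)^[k] x ≠ 0 := hyi.ne_zero
  generalize (T a)^[k] x = y at *
  generalize mat a x k = M at *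
  obtain ⟨A, B, C, D⟩ := M
  simp only at h4 h5 h6 ⊢
  have hD : (D : ℝ) ≠ 0 := by exact_mod_cast h4
  set v : ℝ := (C : ℝ) / D with hv
  have hC : (C : ℝ) = v * D := by rw [hv]; field_simp
  have hform : (C : ℝ) * y + D = (1 + v * y) * D := by rw [hC]; ring
  have hv' : |v| ≤ 7 / 4 ∧ 4 / 7 ≤ 1 + v * y ∧ 1 + v * y ≤ 11 / 4 := by
    rcases lt_or_gt_of_ne hy0 with hneg | hpos
    · obtain ⟨hv1, hv2⟩ := h5 hneg
      have hy1 : -1 / 2 ≤ y := by linarith [hy.1, ha.1]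
      refine ⟨abs_le.mpr ⟨by linarith, by linarith⟩, by nlinarith, by nlinarith⟩
    · obtain ⟨hv1, hv2⟩ := h6 hpos
      have hy1 : y < 1 := by linarith [hy.2, ha.2]
      refine ⟨abs_le.mpr ⟨by linarith, by linarith⟩, by nlinarith, by nlinarith⟩
  obtain ⟨w1, w2, w3⟩ := hv'
  have hpos : 0 < |(D : ℝ)| := abs_pos.mpr hD
  rw [hform, hC, abs_mul, abs_mul, abs_of_nonneg (by linarith : 0 ≤ 1 + v * y)]
  exact ⟨mul_le_mul_of_nonneg_right w2 hpos.le, mul_le_mul_of_nonneg_right w3 hpos.le,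
    mul_le_mul_of_nonneg_right w1 hpos.le⟩

theorem comparable : Comparable := by
  intro a ha x hx y hy hix hiy n hdig
  have hm := mat_congr n hdig
  obtain ⟨-, h1, -, hD, -, -⟩ := mat_spec ha hx hix n
  obtain ⟨-, h2, -, -, -, -⟩ := mat_spec ha hy hiy n
  obtain ⟨-, c1, -⟩ := cone_bounds ha hx hix n
  obtain ⟨c2, -, -⟩ := cone_bounds ha hy hiy n
  rw [← hm] at h2 c2
  have hPx := P_pos (a := a) hix n
  have hPy := P_pos (a := a) hiy n
  set u := |((mat a x n).2.2.1 : ℝ) * (T a)^[n] x + (mat a x n).2.2.2|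
  set w := |((mat a x n).2.2.1 : ℝ) * (T a)^[n] y + (mat a x n).2.2.2|
  have hDpos : 0 < |((mat a x n).2.2.2 : ℝ)| := by
    rw [abs_pos]; exact_mod_cast hD
  set d := |((mat a x n).2.2.2 : ℝ)|
  -- 4/7 d Py ≤ 1 and 1 ≤ 11/4 d Px
  have e1 : 4 / 7 * d * P a y n ≤ 1 := by
    calc 4 / 7 * d * P a y n ≤ w * P a y n := mul_le_mul_of_nonneg_right c2 hPy.le
      _ = 1 := h2
  have e2 : 1 ≤ 11 / 4 * d * P a x n := by
    calc 1 = u * P a x n := h1.symm
      _ ≤ 11 / 4 * d * P a x n := mul_le_mul_of_nonneg_right c1 hPx.le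
  have e3 : d * P a y n ≤ 77 / 16 * (d * P a x n) := by nlinarith
  have e4 : d * P a y n ≤ d * (5 * P a x n) := by nlinarith [mul_pos hDpos hPx]
  exact le_of_mul_le_mul_left e4 hDpos

/-! ### Moebius maps -/

/-- The Moebius map of an integer matrix. -/
noncomputable def mob (M : ℤ × ℤ × ℤ × ℤ) (y : ℝ) : ℝ :=
  ((M.1 : ℝ) * y + M.2.1) / ((M.2.2.1 : ℝ) * y + M.2.2.2)

/-- The inverse Moebius map. -/
noncomputable def imob (M : ℤ × ℤ × ℤ × ℤ) (x : ℝ) : ℝ :=
  ((M.2.1 : ℝ) - M.2.2.2 * x) / ((M.2.2.1 : ℝ) * x - M.1)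

/-- The determinant is one or minus one. -/
def Unim (M : ℤ × ℤ × ℤ × ℤ) : Prop :=
  M.1 * M.2.2.2 - M.2.1 * M.2.2.1 = 1 ∨ M.1 * M.2.2.2 - M.2.1 * M.2.2.1 = -1

/-- The matrices which matter for the level s. -/
def Valid (s : ℝ) (M : ℤ × ℤ × ℤ × ℤ) : Prop :=
  Unim M ∧ M.2.2.2 ≠ 0 ∧ |M.2.2.1| ≤ 2 * |M.2.2.2| ∧ |(M.2.2.2 : ℝ)| ≤ 7 / (4 * s)

/-- The points y for which the matrix can occur. -/
def SM (a s : ℝ) (M : ℤ × ℤ × ℤ × ℤ) : Set ℝ :=
  {y | Valid s M ∧ y ∈ Ico (a - 1) a ∧ mob M y ∈ Ico (a - 1) a ∧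
    4 / 7 * |(M.2.2.2 : ℝ)| ≤ |(M.2.2.1 : ℝ) * y + M.2.2.2|}

/-- The corresponding points x. -/
def EM (a s : ℝ) (M : ℤ × ℤ × ℤ × ℤ) : Set ℝ :=
  {x | imob M x ∈ SM a s M ∧ mob M (imob M x) = x}

lemma Unim.det_ne {M : ℤ × ℤ × ℤ × ℤ} (h : Unim M) :
    (M.1 : ℝ) * M.2.2.2 - M.2.1 * M.2.2.1 ≠ 0 := by
  rcases h with h | h
  · have : (M.1 : ℝ) * M.2.2.2 - M.2.1 * M.2.2.1 = 1 := by exact_mod_cast h
    rw [this]; norm_num
  · have : (M.1 : ℝ) * M.2.2.2 - M.2.1 * M.2.2.1 = -1 := by exact_mod_cast h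
    rw [this]; norm_num

lemma Unim.abs_det {M : ℤ × ℤ × ℤ × ℤ} (h : Unim M) :
    |(M.1 : ℝ) * M.2.2.2 - M.2.1 * M.2.2.1| = 1 := by
  rcases h with h | h
  · have : (M.1 : ℝ) * M.2.2.2 - M.2.1 * M.2.2.1 = 1 := by exact_mod_cast h
    rw [this]; norm_num
  · have : (M.1 : ℝ) * M.2.2.2 - M.2.1 * M.2.2.1 = -1 := by exact_mod_cast h
    rw [this]; norm_num

lemma imob_mob {M : ℤ × ℤ × ℤ × ℤ} (h : Unim M) {y : ℝ}
    (hy : (M.2.2.1 : ℝ) * y + M.2.2.2 ≠ 0) : imob M (mob M y) = y := by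
  have hd := h.det_ne
  unfold imob mob
  obtain ⟨A, B, C, D⟩ := M
  simp only at *
  set q : ℝ := (C : ℝ) * y + D with hq
  have h1 : (B : ℝ) - D * ((A * y + B) / q) = -(A * D - B * C) * y / q := by
    field_simp; rw [hq]; ring
  have h2 : (C : ℝ) * ((A * y + B) / q) - A = -(A * D - B * C) / q := by
    field_simp; rw [hq]; ring
  rw [h1, h2]
  field_simp

lemma ne_zero_of_mem_SM {a s : ℝ} {M : ℤ × ℤ × ℤ × ℤ} {y : ℝ} (h : y ∈ SM a s M) :
    (M.2.2.1 : ℝ) * y + M.2.2.2 ≠ 0 := by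
  obtain ⟨⟨-, hD, -, -⟩, -, -, h4⟩ := h
  have hD' : (M.2.2.2 : ℝ) ≠ 0 := by exact_mod_cast hD
  have : 0 < |(M.2.2.2 : ℝ)| := abs_pos.mpr hD'
  have h5 : 0 < |(M.2.2.1 : ℝ) * y + M.2.2.2| := by linarith
  exact abs_pos.mp h5

lemma measurable_mob (M : ℤ × ℤ × ℤ × ℤ) : Measurable (mob M) := by
  unfold mob; fun_prop

lemma measurable_imob (M : ℤ × ℤ × ℤ × ℤ) : Measurable (imob M) := by
  unfold imob; fun_prop

lemma measurableSet_SM (a s : ℝ) (M : ℤ × ℤ × ℤ × ℤ) : MeasurableSet (SM a s M) := by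
  have h1 : MeasurableSet {_y : ℝ | Valid s M} := MeasurableSet.const _
  have h2 : MeasurableSet {y : ℝ | mob M y ∈ Ico (a - 1) a} :=
    measurable_mob M measurableSet_Ico
  have h3 : MeasurableSet {y : ℝ | 4 / 7 * |(M.2.2.2 : ℝ)| ≤ |(M.2.2.1 : ℝ) * y + M.2.2.2|} :=
    measurableSet_le measurable_const (by fun_prop)
  exact h1.inter (measurableSet_Ico.inter (h2.inter h3))

lemma measurableSet_EM (a s : ℝ) (M : ℤ × ℤ × ℤ × ℤ) : MeasurableSet (EM a s M) :=
  (measurable_imob M (measurableSet_SM a s M)).inter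
    (measurableSet_eq_fun ((measurable_mob M).comp (measurable_imob M)) measurable_id)

lemma lintegral_EM_le (a s : ℝ) (M : ℤ × ℤ × ℤ × ℤ) (f : ℝ → ℝ≥0∞) :
    ∫⁻ x in Ico (a - 1) a, (EM a s M).indicator (fun x => f (imob M x)) x ≤
      ∫⁻ y in Ico (a - 1) a, (SM a s M).indicator
        (fun y => ENNReal.ofReal (1 / ((M.2.2.1 : ℝ) * y + M.2.2.2) ^ 2) * f y) y := by
  have hsub : EM a s M ⊆ mob M '' SM a s M := fun x hx => ⟨imob M x, hx.1, hx.2⟩
  have hSI : SM a s M ⊆ Ico (a - 1) a := fun y hy => hy.2.1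
  have hinj : InjOn (mob M) (SM a s M) := by
    intro y hy z hz hyz
    rw [← imob_mob hy.1.1 (ne_zero_of_mem_SM hy), ← imob_mob hz.1.1 (ne_zero_of_mem_SM hz), hyz]
  have hderiv : ∀ y ∈ SM a s M, HasDerivWithinAt (mob M)
      (((M.1 : ℝ) * M.2.2.2 - M.2.1 * M.2.2.1) / ((M.2.2.1 : ℝ) * y + M.2.2.2) ^ 2)
      (SM a s M) y := by
    intro y hy
    have h0 := ne_zero_of_mem_SM hy
    have h1 : HasDerivAt (fun y : ℝ => (M.1 : ℝ) * y + M.2.1) (M.1 : ℝ) y := by
      simpa using ((hasDerivAt_id y).const_mul (M.1 : ℝ)).add_const (M.2.1 : ℝ)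
    have h2 : HasDerivAt (fun y : ℝ => (M.2.2.1 : ℝ) * y + M.2.2.2) (M.2.2.1 : ℝ) y := by
      simpa using ((hasDerivAt_id y).const_mul (M.2.2.1 : ℝ)).add_const (M.2.2.2 : ℝ)
    have h3 : HasDerivWithinAt (mob M) (((M.1 : ℝ) * ((M.2.2.1 : ℝ) * y + M.2.2.2) -
        ((M.1 : ℝ) * y + M.2.1) * M.2.2.1) / ((M.2.2.1 : ℝ) * y + M.2.2.2) ^ 2)
        (SM a s M) y := (h1.div h2 h0).hasDerivWithinAt
    exact h3.congr_deriv (by ring)
  calc ∫⁻ x in Ico (a - 1) a, (EM a s M).indicator (fun x => f (imob M x)) x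
      ≤ ∫⁻ x, (EM a s M).indicator (fun x => f (imob M x)) x := setLIntegral_le_lintegral _ _
    _ = ∫⁻ x in EM a s M, f (imob M x) := lintegral_indicator (measurableSet_EM a s M) _
    _ ≤ ∫⁻ x in mob M '' SM a s M, f (imob M x) := lintegral_mono_set hsub
    _ = ∫⁻ y in SM a s M, ENNReal.ofReal
          |((M.1 : ℝ) * M.2.2.2 - M.2.1 * M.2.2.1) / ((M.2.2.1 : ℝ) * y + M.2.2.2) ^ 2| *
          f (imob M (mob M y)) :=
        lintegral_image_eq_lintegral_abs_deriv_mul (measurableSet_SM a s M) hderiv hinj _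
    _ = ∫⁻ y in SM a s M,
          ENNReal.ofReal (1 / ((M.2.2.1 : ℝ) * y + M.2.2.2) ^ 2) * f y := by
        refine setLIntegral_congr_fun (measurableSet_SM a s M) fun y hy => ?_
        have h0 := ne_zero_of_mem_SM hy
        rw [imob_mob hy.1.1 h0, abs_div, hy.1.1.abs_det, abs_of_nonneg (by positivity)]
    _ = ∫⁻ y in Ico (a - 1) a, (SM a s M).indicator
        (fun y => ENNReal.ofReal (1 / ((M.2.2.1 : ℝ) * y + M.2.2.2) ^ 2) * f y) y := by
        rw [lintegral_indicator (measurableSet_SM a s M), Measure.restrict_restrict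
          (measurableSet_SM a s M), inter_eq_left.mpr hSI]

/-- The matrices of an orbit are pairwise different. -/
lemma mat_injective {a x : ℝ} (ha : a ∈ Ico (1 / 2 : ℝ) 1) (hx : x ∈ Ico (a - 1) a)
    (hi : Irrational x) : Function.Injective (mat a x) := by
  have ha' : a ∈ Ioo (0 : ℝ) 1 := ⟨by linarith [ha.1], ha.2⟩
  have hx' : x ∈ Ioo (-1 : ℝ) 1 := ⟨by linarith [hx.1, ha'.1], by linarith [hx.2, ha'.2]⟩
  have key : ∀ k, imob (mat a x k) x = (T a)^[k] x := by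
    intro k
    obtain ⟨h1, h2, h3, -, -, -⟩ := mat_spec ha hx hi k
    have hne : ((mat a x k).2.2.1 : ℝ) * (T a)^[k] x + (mat a x k).2.2.2 ≠ 0 := by
      intro h
      rw [h, abs_zero, zero_mul] at h2
      exact zero_ne_one h2
    have : mob (mat a x k) ((T a)^[k] x) = x := by
      unfold mob
      rw [div_eq_iff hne, ← h1]; ring
    have h4 := imob_mob h3 hne
    rwa [this] at h4
  intro k l hkl
  have hy : (T a)^[k] x = (T a)^[l] x := by rw [← key k, ← key l, hkl]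
  obtain ⟨-, h1, -⟩ := mat_spec ha hx hi k
  obtain ⟨-, h2, -⟩ := mat_spec ha hx hi l
  rw [← hkl, ← hy] at h2
  have hne : |((mat a x k).2.2.1 : ℝ) * (T a)^[k] x + (mat a x k).2.2.2| ≠ 0 := by
    intro h
    rw [h, zero_mul] at h1
    exact zero_ne_one h1
  have h3 : P a x k = P a x l := mul_left_cancel₀ hne (h1.trans h2.symm)
  exact (P_strictAnti ha' hx' hi).injective h3

lemma mem_EM {a s x : ℝ} (ha : a ∈ Ico (1 / 2 : ℝ) 1) (hs : 0 < s) (hx : x ∈ Ico (a - 1) a)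
    (hi : Irrational x) {k : ℕ} (hk : s ≤ P a x k) :
    x ∈ EM a s (mat a x k) ∧ imob (mat a x k) x = (T a)^[k] x := by
  have ha' : a ∈ Ioo (0 : ℝ) 1 := ⟨by linarith [ha.1], ha.2⟩
  obtain ⟨h1, h2, h3, h4, -, -⟩ := mat_spec ha hx hi k
  obtain ⟨c1, -, c3⟩ := cone_bounds ha hx hi k
  have hy := iter_mem_Ico ha' hx k
  have hP := P_pos (a := a) hi k
  have hne : ((mat a x k).2.2.1 : ℝ) * (T a)^[k] x + (mat a x k).2.2.2 ≠ 0 := by
    intro h
    rw [h, abs_zero, zero_mul] at h2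
    exact zero_ne_one h2
  have hmob : mob (mat a x k) ((T a)^[k] x) = x := by
    unfold mob
    rw [div_eq_iff hne, ← h1]; ring
  have himob : imob (mat a x k) x = (T a)^[k] x := by
    have h5 := imob_mob h3 hne
    rwa [hmob] at h5
  refine ⟨⟨?_, by rw [himob, hmob]⟩, himob⟩
  rw [himob]
  refine ⟨⟨h3, h4, ?_, ?_⟩, hy, by rw [hmob]; exact hx, c1⟩
  · have : (|(mat a x k).2.2.1| : ℝ) ≤ 2 * |((mat a x k).2.2.2 : ℝ)| := by
      linarith [abs_nonneg ((mat a x k).2.2.2 : ℝ)]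
    exact_mod_cast this
  · rw [le_div_iff₀ (by positivity)]
    have h5 : |((mat a x k).2.2.1 : ℝ) * (T a)^[k] x + (mat a x k).2.2.2| * s ≤ 1 := by
      calc _ ≤ |((mat a x k).2.2.1 : ℝ) * (T a)^[k] x + (mat a x k).2.2.2| * P a x k :=
            mul_le_mul_of_nonneg_left hk (abs_nonneg _)
        _ = 1 := h2
    nlinarith [mul_le_mul_of_nonneg_right c1 hs.le]

/-! ### Counting the matrices -/

/-- Bound for the contribution of the matrices with given bottom row and determinant. -/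
noncomputable def Hb (L : ℕ) (t : ℕ × Bool × Bool × ℤ) : ℝ≥0∞ :=
  if 1 ≤ t.1 ∧ t.1 ≤ L ∧ |t.2.2.2| ≤ 2 * (t.1 : ℤ) then
    ENNReal.ofReal (49 / 16 / (t.1 : ℝ) ^ 2) else 0

lemma tsum_Hb_inner (L n : ℕ) (b b' : Bool) :
    ∑' c : ℤ, Hb L (n, b, b', c) ≤
      if 1 ≤ n ∧ n ≤ L then ENNReal.ofReal (245 / 16 / (n : ℝ)) else 0 := by
  by_cases hn : 1 ≤ n ∧ n ≤ L
  · rw [if_pos hn]
    have hn1 : (1 : ℝ) ≤ n := by exact_mod_cast hn.1
    rw [tsum_eq_sum (s := Finset.Icc (-(2 * (n : ℤ))) (2 * (n : ℤ)))]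
    · have h1 : ∀ c ∈ Finset.Icc (-(2 * (n : ℤ))) (2 * (n : ℤ)), Hb L (n, b, b', c) ≤
          ENNReal.ofReal (49 / 16 / (n : ℝ) ^ 2) := by
        intro c _
        unfold Hb
        split_ifs
        · exact le_rfl
        · exact zero_le
      refine (Finset.sum_le_card_nsmul _ _ _ h1).trans ?_
      have hcard : (Finset.Icc (-(2 * (n : ℤ))) (2 * (n : ℤ))).card = 4 * n + 1 := by
        rw [Int.card_Icc]; omega
      rw [hcard, nsmul_eq_mul, ← ENNReal.ofReal_natCast, ← ENNReal.ofReal_mul (by positivity)]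
      apply ENNReal.ofReal_le_ofReal
      rw [mul_div_assoc', div_le_div_iff₀ (by positivity) (by positivity)]
      push_cast
      nlinarith
    · intro c hc
      unfold Hb
      rw [if_neg]
      rintro ⟨-, -, h⟩
      rw [abs_le] at h
      exact hc (Finset.mem_Icc.mpr h)
  · rw [if_neg hn]
    have : ∀ c : ℤ, Hb L (n, b, b', c) = 0 := by
      intro c
      unfold Hb
      rw [if_neg]
      rintro ⟨h1, h2, -⟩
      exact hn ⟨h1, h2⟩
    simp [this]

lemma tsum_Hb (L : ℕ) : ∑' t, Hb L t ≤ ENNReal.ofReal (62 * (harmonic L : ℝ)) := by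
  have h1 : ∑' t, Hb L t ≤
      ∑' n : ℕ, if 1 ≤ n ∧ n ≤ L then ENNReal.ofReal (245 / 4 / (n : ℝ)) else 0 := by
    rw [ENNReal.tsum_prod']
    refine ENNReal.tsum_le_tsum fun n => ?_
    rw [ENNReal.tsum_prod']
    have h2 : ∀ b : Bool, ∑' (c : Bool × ℤ), Hb L (n, b, c) ≤
        2 * (if 1 ≤ n ∧ n ≤ L then ENNReal.ofReal (245 / 16 / (n : ℝ)) else 0) := by
      intro b
      rw [ENNReal.tsum_prod', tsum_fintype, Fintype.sum_bool, two_mul]
      exact add_le_add (tsum_Hb_inner L n b true) (tsum_Hb_inner L n b false)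
    rw [tsum_fintype, Fintype.sum_bool]
    refine (add_le_add (h2 true) (h2 false)).trans ?_
    split_ifs
    · rw [← two_mul, ← mul_assoc]
      have : (2 * 2 : ℝ≥0∞) = ENNReal.ofReal 4 := by
        rw [show (4 : ℝ) = ((4 : ℕ) : ℝ) by norm_num, ENNReal.ofReal_natCast]
        norm_num
      rw [this, ← ENNReal.ofReal_mul (by norm_num)]
      apply ENNReal.ofReal_le_ofReal
      apply le_of_eq
      ring
    · simp
  refine h1.trans ?_
  rw [tsum_eq_sum (s := Finset.Icc 1 L)]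
  · have h3 : ∀ n ∈ Finset.Icc 1 L, (if 1 ≤ n ∧ n ≤ L then
        ENNReal.ofReal (245 / 4 / (n : ℝ)) else 0) = ENNReal.ofReal (245 / 4 / (n : ℝ)) := by
      intro n hn
      rw [if_pos (Finset.mem_Icc.mp hn)]
    rw [Finset.sum_congr rfl h3, ← ENNReal.ofReal_sum_of_nonneg fun n _ => by positivity]
    apply ENNReal.ofReal_le_ofReal
    rw [harmonic_eq_sum_Icc]
    push_cast
    rw [Finset.mul_sum]
    refine Finset.sum_le_sum fun n hn => ?_
    rw [div_eq_mul_inv]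
    have : (0 : ℝ) ≤ (n : ℝ)⁻¹ := by positivity
    nlinarith
  · intro n hn
    rw [if_neg]
    intro h
    exact hn (Finset.mem_Icc.mpr h)

/-- The data which determine the matrix, given the point y. -/
noncomputable def key (M : ℤ × ℤ × ℤ × ℤ) : ℕ × Bool × Bool × ℤ :=
  (M.2.2.2.natAbs, decide (0 ≤ M.2.2.2),
    decide (M.1 * M.2.2.2 - M.2.1 * M.2.2.1 = 1), M.2.2.1)

lemma key_inj {a s y : ℝ} {M M' : ℤ × ℤ × ℤ × ℤ} (h : y ∈ SM a s M) (h' : y ∈ SM a s M')
    (hk : key M = key M') : M = M' := by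
  have hq := ne_zero_of_mem_SM h
  have hq' := ne_zero_of_mem_SM h'
  obtain ⟨⟨hu, -, -, -⟩, -, hm, -⟩ := h
  obtain ⟨⟨hu', -, -, -⟩, -, hm', -⟩ := h'
  obtain ⟨A, B, C, D⟩ := M
  obtain ⟨A', B', C', D'⟩ := M'
  simp only [key, Prod.mk.injEq, decide_eq_decide] at hk
  unfold Unim at hu hu'
  unfold mob at hm hm'
  simp only at hu hu' hm hm' hq hq'
  obtain ⟨k1, k2, k3, rfl⟩ := hk
  have hD : D = D' := by
    by_cases h0 : 0 ≤ D
    · have h0' := k2.mp h0
      omega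
    · have h0' : ¬ 0 ≤ D' := fun h => h0 (k2.mpr h)
      omega
  subst hD
  have hdet : A * D - B * C = A' * D - B' * C := by
    rcases hu with h1 | h1
    · rw [h1, k3.mp h1]
    · rcases hu' with h2 | h2
      · have := k3.mpr h2
        omega
      · rw [h1, h2]
  set δ := A' * D - B' * C with hδ
  have hδ2 : δ * δ = 1 := by rcases hu' with h | h <;> rw [h] <;> norm_num
  set τ := δ * (A' * (B - B') - B' * (A - A')) with hτ
  have e0 : (A - A') * D = (B - B') * C := by linear_combination hdet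
  have e1 : C * τ = A - A' := by
    calc C * τ = δ * (A' * ((B - B') * C) - B' * C * (A - A')) := by rw [hτ]; ring
      _ = δ * δ * (A - A') := by rw [← e0, hδ]; ring
      _ = A - A' := by rw [hδ2, one_mul]
  have e2 : D * τ = B - B' := by
    calc D * τ = δ * (A' * D * (B - B') - B' * ((A - A') * D)) := by rw [hτ]; ring
      _ = δ * δ * (B - B') := by rw [e0, hδ]; ring
      _ = B - B' := by rw [hδ2, one_mul]
  have e3 : ((A : ℝ) * y + B) / (C * y + D) - (A' * y + B') / (C * y + D) = τ := by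
    rw [← sub_div, div_eq_iff hq]
    have e1' : (C : ℝ) * τ = A - A' := by exact_mod_cast e1
    have e2' : (D : ℝ) * τ = B - B' := by exact_mod_cast e2
    linear_combination -y * e1' - e2'
  have hlt1 : (τ : ℝ) < 1 := by rw [← e3]; linarith [hm.2, hm'.1]
  have hlt2 : (-1 : ℝ) < τ := by rw [← e3]; linarith [hm.1, hm'.2]
  have hτ0 : τ = 0 := by
    have h1 : τ < 1 := by exact_mod_cast hlt1
    have h2 : -1 < τ := by exact_mod_cast hlt2
    omega
  rw [hτ0, mul_zero] at e1 e2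
  have hA : A = A' := by omega
  have hB : B = B' := by omega
  rw [hA, hB]

lemma weight_le {a s y : ℝ} (hs : 0 < s) {M : ℤ × ℤ × ℤ × ℤ} (h : y ∈ SM a s M) :
    ENNReal.ofReal (1 / ((M.2.2.1 : ℝ) * y + M.2.2.2) ^ 2) ≤ Hb ⌊7 / (4 * s)⌋₊ (key M) := by
  obtain ⟨⟨-, hD, hC, hL⟩, -, -, hb⟩ := h
  have hn1 : 1 ≤ M.2.2.2.natAbs := by omega
  have habs : ((M.2.2.2.natAbs : ℕ) : ℝ) = |(M.2.2.2 : ℝ)| := by
    rw [Nat.cast_natAbs]; push_cast; rfl
  have hn2 : M.2.2.2.natAbs ≤ ⌊7 / (4 * s)⌋₊ := by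
    apply Nat.le_floor
    rw [habs]; exact hL
  have hn3 : |M.2.2.1| ≤ 2 * (M.2.2.2.natAbs : ℤ) := by
    rw [Int.natCast_natAbs]; exact hC
  unfold Hb key
  simp only
  rw [if_pos ⟨hn1, hn2, hn3⟩, habs]
  apply ENNReal.ofReal_le_ofReal
  have hDpos : 0 < |(M.2.2.2 : ℝ)| := by rw [← habs]; exact_mod_cast hn1
  have hq : 0 < |(M.2.2.1 : ℝ) * y + M.2.2.2| := by linarith
  rw [← sq_abs ((M.2.2.1 : ℝ) * y + M.2.2.2),
    div_le_div_iff₀ (by positivity) (by positivity)]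
  nlinarith [mul_self_le_mul_self (by positivity) hb]

lemma inner_bound {a s y : ℝ} (hs : s ∈ Ioc (0 : ℝ) 1) :
    ∑' M : ℤ × ℤ × ℤ × ℤ, (SM a s M).indicator
        (fun y => ENNReal.ofReal (1 / ((M.2.2.1 : ℝ) * y + M.2.2.2) ^ 2)) y ≤
      ENNReal.ofReal (124 * (1 + Real.log (1 / s))) := by
  obtain ⟨hs0, hs1⟩ := hs
  set L := ⌊7 / (4 * s)⌋₊ with hL
  set w : ℤ × ℤ × ℤ × ℤ → ℝ≥0∞ := fun M =>
    ENNReal.ofReal (1 / ((M.2.2.1 : ℝ) * y + M.2.2.2) ^ 2) with hw
  set S : Set (ℤ × ℤ × ℤ × ℤ) := {M | y ∈ SM a s M} with hS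
  have h1 : ∑' M : ℤ × ℤ × ℤ × ℤ, (SM a s M).indicator
        (fun y => ENNReal.ofReal (1 / ((M.2.2.1 : ℝ) * y + M.2.2.2) ^ 2)) y =
      ∑' M : S, w M := by
    rw [tsum_subtype S w]
    refine tsum_congr fun M => ?_
    by_cases hM : y ∈ SM a s M
    · rw [indicator_of_mem hM, indicator_of_mem (show M ∈ S from hM)]
    · rw [indicator_of_notMem hM, indicator_of_notMem (show M ∉ S from hM)]
  rw [h1]
  have hinj : Function.Injective (fun M : S => key M) := by
    intro M M' hMM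
    exact Subtype.ext (key_inj M.2 M'.2 hMM)
  calc ∑' M : S, w M ≤ ∑' M : S, Hb L (key M) :=
        ENNReal.tsum_le_tsum fun M => weight_le hs0 M.2
    _ ≤ ∑' t, Hb L t := ENNReal.tsum_comp_le_tsum_of_injective hinj _
    _ ≤ ENNReal.ofReal (62 * (harmonic L : ℝ)) := tsum_Hb L
    _ ≤ ENNReal.ofReal (124 * (1 + Real.log (1 / s))) := by
        apply ENNReal.ofReal_le_ofReal
        have h2 : (harmonic L : ℝ) ≤ 1 + Real.log L := harmonic_le_one_add_log L
        have h3 : (1 : ℝ) ≤ 7 / (4 * s) := by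
          rw [le_div_iff₀ (by positivity)]; linarith
        have h4 : (1 : ℕ) ≤ L := by
          rw [hL]; exact Nat.le_floor (by exact_mod_cast h3)
        have h5 : (L : ℝ) ≤ 7 / 4 * (1 / s) := by
          have := Nat.floor_le (show 0 ≤ 7 / (4 * s) by positivity)
          rw [← hL] at this
          calc (L : ℝ) ≤ 7 / (4 * s) := this
            _ = 7 / 4 * (1 / s) := by field_simp
        have h6 : Real.log L ≤ Real.log (7 / 4) + Real.log (1 / s) := by
          rw [← Real.log_mul (by norm_num) (by positivity)]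
          exact Real.log_le_log (by exact_mod_cast h4) h5
        have h7 : Real.log (7 / 4) ≤ 7 / 4 - 1 := Real.log_le_sub_one_of_pos (by norm_num)
        have h8 : 0 ≤ Real.log (1 / s) :=
          Real.log_nonneg (by rw [le_div_iff₀ hs0]; linarith)
        linarith

theorem renewal_bound : ∃ C : ℝ, 0 < C ∧ RenewalBound C := by
  refine ⟨124, by norm_num, fun a ha s hs f hf => ?_⟩
  have hirr : ∀ᵐ x : ℝ, Irrational x := by
    have := (Set.countable_range ((↑) : ℚ → ℝ)).ae_notMem volume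
    exact this
  calc ∫⁻ x in Ico (a - 1) a, (∑' k : ℕ, if s ≤ P a x k then f ((T a)^[k] x) else 0)
      ≤ ∫⁻ x in Ico (a - 1) a, ∑' M : ℤ × ℤ × ℤ × ℤ,
          (EM a s M).indicator (fun x => f (imob M x)) x := by
        refine lintegral_mono_ae ?_
        filter_upwards [ae_restrict_mem measurableSet_Ico, ae_restrict_of_ae hirr] with x hx hi
        refine le_trans (ENNReal.tsum_le_tsum fun k => ?_)
          (ENNReal.tsum_comp_le_tsum_of_injective (mat_injective ha hx hi)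
            (fun M => (EM a s M).indicator (fun x => f (imob M x)) x))
        split_ifs with h
        · obtain ⟨h1, h2⟩ := mem_EM ha hs.1 hx hi h
          rw [indicator_of_mem h1, h2]
        · exact zero_le
    _ = ∑' M : ℤ × ℤ × ℤ × ℤ, ∫⁻ x in Ico (a - 1) a,
          (EM a s M).indicator (fun x => f (imob M x)) x :=
        lintegral_tsum fun M =>
          ((hf.comp (measurable_imob M)).indicator (measurableSet_EM a s M)).aemeasurable
    _ ≤ ∑' M : ℤ × ℤ × ℤ × ℤ, ∫⁻ y in Ico (a - 1) a, (SM a s M).indicator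
        (fun y => ENNReal.ofReal (1 / ((M.2.2.1 : ℝ) * y + M.2.2.2) ^ 2) * f y) y :=
        ENNReal.tsum_le_tsum fun M => lintegral_EM_le a s M f
    _ = ∫⁻ y in Ico (a - 1) a, ∑' M : ℤ × ℤ × ℤ × ℤ, (SM a s M).indicator
        (fun y => ENNReal.ofReal (1 / ((M.2.2.1 : ℝ) * y + M.2.2.2) ^ 2) * f y) y := by
        refine (lintegral_tsum fun M => ?_).symm
        refine (Measurable.indicator ?_ (measurableSet_SM a s M)).aemeasurable
        exact (ENNReal.measurable_ofReal.comp (by fun_prop)).mul hf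
    _ ≤ ∫⁻ y in Ico (a - 1) a, ENNReal.ofReal (124 * (1 + Real.log (1 / s))) * f y := by
        refine setLIntegral_mono' measurableSet_Ico fun y _ => ?_
        have hpt : (∑' M : ℤ × ℤ × ℤ × ℤ, (SM a s M).indicator
            (fun y => ENNReal.ofReal (1 / ((M.2.2.1 : ℝ) * y + M.2.2.2) ^ 2) * f y) y) =
            (∑' M : ℤ × ℤ × ℤ × ℤ, (SM a s M).indicator
              (fun y => ENNReal.ofReal (1 / ((M.2.2.1 : ℝ) * y + M.2.2.2) ^ 2)) y) * f y := by
          rw [← ENNReal.tsum_mul_right]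
          refine tsum_congr fun M => ?_
          by_cases hM : y ∈ SM a s M
          · rw [indicator_of_mem hM, indicator_of_mem hM]
          · rw [indicator_of_notMem hM, indicator_of_notMem hM, zero_mul]
        rw [hpt]
        exact mul_le_mul_left (inner_bound hs) _
    _ = ENNReal.ofReal (124 * (1 + Real.log (1 / s))) * ∫⁻ x in Ico (a - 1) a, f x :=
        lintegral_const_mul _ hf

end TanakaIto
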